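import Pool.Agent.Lib.MP_28303a_al.NK.H91.KSurj
import Pool.Agent.Lib.MP_28303a_al.NK.H78.Lreg

/-! # `K_{-1}(R[E]) = 0` for split extensions of free groups by free groups, `R` regular -/

set_option autoImplicit false

namespace Pool.Agent.NegK.H91

open MonoidAlgebra (single)

universe u

/-- The retraction to the free group on some letters. -/
noncomputable def retL {X : Type} (Λ : Finset X) : FreeGroup X →* FreeGroup Λ :=
  FreeGroup.lift fun x => open Classical in if h : x ∈ Λ then FreeGroup.of ⟨x, h⟩ else 1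

theorem retL_inclL {X : Type} (Λ : Finset X) (w : FreeGroup Λ) : retL Λ (inclL Λ w) = w := by
  have h : (retL Λ).comp (inclL Λ) = MonoidHom.id _ := by
    ext x
    show retL Λ (inclL Λ (FreeGroup.of x)) = FreeGroup.of x
    have h1 : inclL Λ (FreeGroup.of x) = FreeGroup.of (x : X) := FreeGroup.map.of
    rw [h1]
    unfold retL
    rw [FreeGroup.lift_apply_of, dif_pos x.2]
  exact DFunLike.congr_fun h w

theorem mdr_one (S : Type u) [Ring S] {G H : Type} [Group G] [Group H] (f : G →* H) :
    (MonoidAlgebra.mapDomainRingHom S f).comp (MonoidAlgebra.singleOneRingHom :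
      S →+* MonoidAlgebra S G) = MonoidAlgebra.singleOneRingHom := by
  refine RingHom.ext fun c => ?_
  have h1 : MonoidAlgebra.mapDomainRingHom S f (single 1 c) = single (f 1) c :=
    MonoidAlgebra.mapDomain_single
  show MonoidAlgebra.mapDomainRingHom S f (single 1 c) = single 1 c
  rw [h1, map_one]

theorem surj_mulEquiv (S : Type u) [Ring S] {G H : Type} [Group G] [Group H] (e : G ≃* H)
    (h : Function.Surjective (K0.map (MonoidAlgebra.singleOneRingHom :
      S →+* MonoidAlgebra S G))) :
    Function.Surjective (K0.map (MonoidAlgebra.singleOneRingHom :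
      S →+* MonoidAlgebra S H)) := by
  have h1 : Function.Surjective (K0.map (MonoidAlgebra.mapDomainRingHom S (e : G →* H))) := by
    intro z
    refine ⟨K0.map (MonoidAlgebra.mapDomainRingHom S (e.symm : H →* G)) z, ?_⟩
    have h2 := K0Fun.hom_comp (MonoidAlgebra.mapDomainRingHom S (e : G →* H))
      (MonoidAlgebra.mapDomainRingHom S (e.symm : H →* G))
    have h3 : (MonoidAlgebra.mapDomainRingHom S (e : G →* H)).comp
        (MonoidAlgebra.mapDomainRingHom S (e.symm : H →* G)) = RingHom.id _ := by
      refine RingHom.ext fun a => ?_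
      rw [RingHom.comp_apply, mdr_comp]
      exact mdr_id S _ (fun g => e.apply_symm_apply g) a
    rw [h3, K0Fun.hom_id] at h2
    exact (DFunLike.congr_fun h2 z).symm
  have h4 := H64.K0.surj_comp _ _ h1 h
  rwa [mdr_one] at h4

/-- For regular `S`, `K₀(S)` maps onto `K₀(S[F])` for every free group `F`. -/
theorem surj_free (X : Type) {S : Type u} [Ring S] (hS : RegularRing S) :
    Function.Surjective (K0.map (MonoidAlgebra.singleOneRingHom :
      S →+* MonoidAlgebra S (FreeGroup X))) := by
  classical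
  intro z
  refine H50.K0_eq_top (H := (K0.map (MonoidAlgebra.singleOneRingHom :
      S →+* MonoidAlgebra S (FreeGroup X))).range) (fun p => ?_) z
  choose lt hlt using fun f : MonoidAlgebra S (FreeGroup X) => lettersA f
  let Λ : Finset X := Finset.univ.biUnion fun ij : Fin p.n × Fin p.n => lt (p.e ij.1 ij.2)
  have h1 : ∀ i j, MonoidAlgebra.mapDomainRingHom S (inclL Λ)
      (MonoidAlgebra.mapDomainRingHom S (retL Λ) (p.e i j)) = p.e i j := by
    intro i j
    obtain ⟨g, hg⟩ := hlt (p.e i j) Λ (Finset.subset_biUnion_of_mem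
      (fun ij : Fin p.n × Fin p.n => lt (p.e ij.1 ij.2)) (Finset.mem_univ (i, j)))
    rw [← hg, mdr_comp S (inclL Λ) (retL Λ), mdr_id S ((retL Λ).comp (inclL Λ))
      (retL_inclL Λ)]
  have h2 : (p.map (MonoidAlgebra.mapDomainRingHom S (retL Λ))).map
      (MonoidAlgebra.mapDomainRingHom S (inclL Λ)) = p :=
    Idem.ext' rfl fun i j => h1 i j
  have h3 : Function.Surjective (K0.map (MonoidAlgebra.singleOneRingHom :
      S →+* MonoidAlgebra S (FreeGroup Λ))) :=
    surj_mulEquiv S (FreeGroup.freeGroupCongr Λ.equivFin.symm) (H50.free S hS Λ.card)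
  obtain ⟨y, hy⟩ := h3 (K0.cls (p.map (MonoidAlgebra.mapDomainRingHom S (retL Λ))))
  refine ⟨y, ?_⟩
  have h5 := K0Fun.hom_comp (MonoidAlgebra.mapDomainRingHom S (inclL Λ))
    (MonoidAlgebra.singleOneRingHom : S →+* MonoidAlgebra S (FreeGroup Λ))
  rw [mdr_one] at h5
  rw [← h2, ← K0.map_cls, ← hy]
  exact DFunLike.congr_fun h5 y

/-- THEOREM KE, `K₀` part. -/
theorem surj_ext {E : Type} [Group E] {k : ℕ} (D : Split E (FreeGroup (Fin k))) {X : Type}
    (e : D.Y ≃* FreeGroup X) {S : Type u} [Ring S] (hS : RegularRing S) :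
    Function.Surjective (K0.map (MonoidAlgebra.singleOneRingHom :
      S →+* MonoidAlgebra S E)) := by
  let D' : Split D.Y (FreeGroup X) := ⟨e, e.symm, fun w => e.apply_symm_apply w⟩
  have h1 : RC (MonoidAlgebra S D.Y) :=
    rc_free D' (fun y hy => (map_eq_one_iff e e.injective).1 hy) hS
  have h2 := surj_ker D h1
  have h3 := surj_mulEquiv S e.symm (surj_free X hS)
  have h4 := H64.K0.surj_comp _ _ h2 h3
  have h5 : (kinc D S).comp (MonoidAlgebra.singleOneRingHom : S →+* MonoidAlgebra S D.Y) =
      MonoidAlgebra.singleOneRingHom := mdr_one S D.Y.subtype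
  rwa [h5] at h4

/-- THEOREM KE: `K_{-1}(R[E]) = 0` if `R` is regular and `E` is a split extension of a free group
of finite rank by a free group. -/
theorem ke {E : Type} [Group E] {k : ℕ} (π : E →* FreeGroup (Fin k))
    (s : FreeGroup (Fin k) →* E) (hs : ∀ w, π (s w) = w) {X : Type} (e : π.ker ≃* FreeGroup X)
    (R : Type u) [Ring R] (hR : RegularRing R) :
    Subsingleton (KNeg 1 (MonoidAlgebra R E)) := by
  let D : Split E (FreeGroup (Fin k)) := ⟨π, s, hs⟩
  have a1 : Function.Surjective (K0.map (MonoidAlgebra.singleOneRingHom :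
      LaurentPolynomial R →+* MonoidAlgebra (LaurentPolynomial R) E)) :=
    surj_ext D e (H78.lreg H50.ext R hR)
  have a2 : Function.Surjective (K0.map ((H64.swapEquiv R E :
      MonoidAlgebra (LaurentPolynomial R) E →+* LaurentPolynomial (MonoidAlgebra R E)))) :=
    H64.K0.surj_equiv (H64.swapEquiv R E)
  have a3 := H64.K0.surj_comp _ _ a2 a1
  have h1 := H64.K0.surj_comp _ _ a3 (H64.surj_laurent H50.free R hR)
  have h2 : ((H64.swapEquiv R E : _ →+* _).comp
      (MonoidAlgebra.singleOneRingHom : LaurentPolynomial R →+*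
        MonoidAlgebra (LaurentPolynomial R) E)).comp
      (LaurentPolynomial.C : R →+* LaurentPolynomial R) =
      (posMap (MonoidAlgebra R E)).comp (Polynomial.C.comp
        (MonoidAlgebra.singleOneRingHom : R →+* MonoidAlgebra R E)) := by
    ext1 r
    refine (H64.swapEquiv_single R E r).trans ?_
    exact (Polynomial.toLaurent_C _).symm
  rw [h2] at h1
  have h3 : K0Fun.polySub (MonoidAlgebra R E) = ⊤ := by
    rw [eq_top_iff]
    rintro z -
    obtain ⟨y, hy⟩ := h1 z
    have h4 := K0Fun.hom_comp (posMap (MonoidAlgebra R E))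
      (Polynomial.C.comp (MonoidAlgebra.singleOneRingHom : R →+* MonoidAlgebra R E))
    refine AddSubgroup.mem_sup_left ⟨K0.map (Polynomial.C.comp
        (MonoidAlgebra.singleOneRingHom : R →+* MonoidAlgebra R E)) y, ?_⟩
    rw [← hy]
    exact (DFunLike.congr_fun h4 y).symm
  show Subsingleton (K0 (LaurentPolynomial (MonoidAlgebra R E)) ⧸
    K0Fun.polySub (MonoidAlgebra R E))
  rw [h3]
  exact QuotientAddGroup.subsingleton_quotient_top

end Pool.Agent.NegK.H91
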