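import Pool.Agent.Lib.MP_28303a_al.NK.Flat

/-! # Equality in `K₀` is stable equivalence -/

set_option autoImplicit false

namespace Pool.Agent.NegK.H91

universe u v w

open Matrix

section

variable {A : Type u} [Ring A]

/-- Equivalence of idempotent matrices. -/
def MEq {ι κ : Type} [Fintype ι] [Fintype κ] (e : Matrix ι ι A) (f : Matrix κ κ A) : Prop :=
  ∃ (a : Matrix ι κ A) (b : Matrix κ ι A), a * b = e ∧ b * a = f

variable {ι κ μ : Type} [Fintype ι] [Fintype κ] [Fintype μ]

theorem MEq.refl {e : Matrix ι ι A} (he : e * e = e) : MEq e e := ⟨e, e, he, he⟩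

theorem MEq.symm {e : Matrix ι ι A} {f : Matrix κ κ A} (h : MEq e f) : MEq f e := by
  obtain ⟨a, b, h1, h2⟩ := h
  exact ⟨b, a, h2, h1⟩

theorem MEq.trans {e : Matrix ι ι A} {f : Matrix κ κ A} {g : Matrix μ μ A} (he : e * e = e)
    (hg : g * g = g) (h : MEq e f) (h' : MEq f g) : MEq e g := by
  obtain ⟨a, b, h1, h2⟩ := h
  obtain ⟨c, d, h3, h4⟩ := h'
  refine ⟨a * c, d * b, ?_, ?_⟩
  · calc a * c * (d * b) = a * (c * d) * b := by simp only [Matrix.mul_assoc]
      _ = (a * b) * (a * b) := by rw [h3, ← h2]; simp only [Matrix.mul_assoc]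
      _ = e := by rw [h1, he]
  · calc d * b * (a * c) = d * (b * a) * c := by simp only [Matrix.mul_assoc]
      _ = (d * c) * (d * c) := by rw [h2, ← h3]; simp only [Matrix.mul_assoc]
      _ = g := by rw [h4, hg]

theorem MEq.reindex {e : Matrix ι ι A} (he : e * e = e) (σ : κ ≃ ι) :
    MEq e (e.submatrix σ σ) := by
  refine ⟨e.submatrix id σ, e.submatrix σ id, ?_, ?_⟩
  · rw [Matrix.submatrix_mul_equiv, he]; rfl
  · exact (Matrix.submatrix_mul_equiv e e σ (Equiv.refl _) σ).trans (by rw [he])

theorem MEq.blocks {ι' κ' : Type} [Fintype ι'] [Fintype κ']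
    {e : Matrix ι ι A} {f : Matrix κ κ A} {e' : Matrix ι' ι' A} {f' : Matrix κ' κ' A}
    (h : MEq e f) (h' : MEq e' f') : MEq (fromBlocks e 0 0 e') (fromBlocks f 0 0 f') := by
  obtain ⟨a, b, h1, h2⟩ := h
  obtain ⟨a', b', h1', h2'⟩ := h'
  refine ⟨fromBlocks a 0 0 a', fromBlocks b 0 0 b', ?_, ?_⟩ <;>
    rw [Matrix.fromBlocks_multiply] <;> simp [h1, h2, h1', h2']

theorem MEq.blocks_comm {e : Matrix ι ι A} {f : Matrix κ κ A} (he : e * e = e)
    (hf : f * f = f) : MEq (fromBlocks e 0 0 f) (fromBlocks f 0 0 e) := by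
  refine ⟨fromBlocks 0 e f 0, fromBlocks 0 f e 0, ?_, ?_⟩ <;>
    rw [Matrix.fromBlocks_multiply] <;> simp [he, hf]

theorem MEq.blocks_assoc [DecidableEq ι] [DecidableEq κ] [DecidableEq μ] {e : Matrix ι ι A} {f : Matrix κ κ A} {g : Matrix μ μ A}
    (he : e * e = e) (hf : f * f = f) (hg : g * g = g) :
    MEq (fromBlocks (fromBlocks e 0 0 f) 0 0 g) (fromBlocks e 0 0 (fromBlocks f 0 0 g)) := by
  have h1 := MEq.reindex (idem_blocks (idem_blocks he hf) hg) (Equiv.sumAssoc ι κ μ).symm
  have h2 : (fromBlocks (fromBlocks e 0 0 f) 0 0 g).submatrix (Equiv.sumAssoc ι κ μ).symm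
      (Equiv.sumAssoc ι κ μ).symm = fromBlocks e 0 0 (fromBlocks f 0 0 g) := by
    ext i j
    rcases i with i | i | i <;> rcases j with j | j | j <;> simp
  rwa [h2] at h1

theorem MEq.compl [DecidableEq ι] {e : Matrix ι ι A} (he : e * e = e) :
    MEq (fromBlocks e 0 0 (1 - e)) (1 : Matrix ι ι A) := by
  refine ⟨Matrix.fromRows e (1 - e), Matrix.fromCols e (1 - e), ?_, ?_⟩
  · rw [Matrix.fromRows_mul_fromCols, he, idem_compl he, mul_sub, mul_one, he, sub_self,
      sub_mul, one_mul, he, sub_self]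
  · rw [Matrix.fromCols_mul_fromRows, he, idem_compl he, add_sub_cancel]

theorem sum_meq (p q : Idem A) : MEq (fromBlocks p.e 0 0 q.e) (p.sum q).e :=
  MEq.reindex (idem_blocks p.idem q.idem) finSumFinEquiv.symm

theorem toIdem_meq [DecidableEq ι] {e : Matrix ι ι A} (he : e * e = e) : MEq e (toIdem e he).e :=
  MEq.reindex he (Fintype.equivFin ι).symm

/-- The identity matrix as an idempotent. -/
def one (A : Type u) [Ring A] (r : ℕ) : Idem A where
  n := r
  e := 1
  idem := one_mul 1

/-- The complement. -/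
def compl (p : Idem A) : Idem A where
  n := p.n
  e := 1 - p.e
  idem := idem_compl p.idem

/-- The zero idempotent. -/
def zeroIdem (A : Type u) [Ring A] : Idem A where
  n := 0
  e := 0
  idem := by simp

theorem meq_sum [DecidableEq ι] [DecidableEq κ] {p q : Idem A} {e : Matrix ι ι A} {f : Matrix κ κ A} (he : e * e = e)
    (hf : f * f = f) (h : MEq p.e e) (h' : MEq q.e f) : MEq (p.sum q).e (fromBlocks e 0 0 f) :=
  MEq.trans (p.sum q).idem (idem_blocks he hf) (sum_meq p q).symm (h.blocks h')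

theorem equiv_refl (p : Idem A) : p.Equiv p := MEq.refl p.idem

theorem equiv_symm {p q : Idem A} (h : p.Equiv q) : q.Equiv p := MEq.symm h

theorem equiv_trans {p q r : Idem A} (h : p.Equiv q) (h' : q.Equiv r) : p.Equiv r :=
  MEq.trans p.idem r.idem h h'

theorem equiv_sum {p q p' q' : Idem A} (h : p.Equiv q) (h' : p'.Equiv q') :
    (p.sum p').Equiv (q.sum q') :=
  MEq.trans (p.sum p').idem (q.sum q').idem (meq_sum q.idem q'.idem h h') (sum_meq q q')

theorem equiv_comm (p q : Idem A) : (p.sum q).Equiv (q.sum p) :=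
  MEq.trans (p.sum q).idem (q.sum p).idem (sum_meq p q).symm
    (MEq.trans (idem_blocks p.idem q.idem) (q.sum p).idem
      (MEq.blocks_comm p.idem q.idem) (sum_meq q p))

theorem equiv_assoc (p q r : Idem A) : ((p.sum q).sum r).Equiv (p.sum (q.sum r)) := by
  have h1 : MEq ((p.sum q).sum r).e (fromBlocks (fromBlocks p.e 0 0 q.e) 0 0 r.e) :=
    meq_sum (idem_blocks p.idem q.idem) r.idem (sum_meq p q).symm (MEq.refl r.idem)
  have h2 : MEq (p.sum (q.sum r)).e (fromBlocks p.e 0 0 (fromBlocks q.e 0 0 r.e)) :=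
    meq_sum p.idem (idem_blocks q.idem r.idem) (MEq.refl p.idem) (sum_meq q r).symm
  exact MEq.trans ((p.sum q).sum r).idem (p.sum (q.sum r)).idem h1
    (MEq.trans (idem_blocks (idem_blocks p.idem q.idem) r.idem) (p.sum (q.sum r)).idem
      (MEq.blocks_assoc p.idem q.idem r.idem) h2.symm)

theorem equiv_zero (p : Idem A) : ((zeroIdem A).sum p).Equiv p := by
  refine MEq.trans ((zeroIdem A).sum p).idem p.idem (sum_meq (zeroIdem A) p).symm ?_
  show MEq (fromBlocks (0 : Matrix (Fin 0) (Fin 0) A) 0 0 p.e) p.e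
  refine ⟨Matrix.fromRows (0 : Matrix (Fin 0) (Fin p.n) A) p.e,
    Matrix.fromCols (0 : Matrix (Fin p.n) (Fin 0) A) p.e, ?_, ?_⟩
  · rw [Matrix.fromRows_mul_fromCols, p.idem]
    ext i j
    rcases i with i | i
    · exact i.elim0
    · rcases j with j | j
      · exact j.elim0
      · rfl
  · rw [Matrix.fromCols_mul_fromRows, p.idem]
    simp

theorem equiv_compl (p : Idem A) : (p.sum (compl p)).Equiv (one A p.n) :=
  MEq.trans (p.sum (compl p)).idem (one A p.n).idem (sum_meq p (compl p)).symm
    (MEq.compl p.idem)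

theorem equiv_one (m n : ℕ) : ((one A m).sum (one A n)).Equiv (one A (m + n)) := by
  refine MEq.trans ((one A m).sum (one A n)).idem (one A (m + n)).idem
    (sum_meq (one A m) (one A n)).symm ?_
  show MEq (fromBlocks (1 : Matrix (Fin m) (Fin m) A) 0 0 (1 : Matrix (Fin n) (Fin n) A))
    (1 : Matrix (Fin (m + n)) (Fin (m + n)) A)
  rw [Matrix.fromBlocks_one]
  have h := MEq.reindex (A := A) (one_mul (1 : Matrix (Fin m ⊕ Fin n) (Fin m ⊕ Fin n) A))
    finSumFinEquiv.symm
  rwa [Matrix.submatrix_one_equiv] at h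

instance idemSetoid (A : Type u) [Ring A] : Setoid (Idem A) where
  r := Idem.Equiv
  iseqv := ⟨equiv_refl, equiv_symm, equiv_trans⟩

/-- The monoid of equivalence classes of idempotent matrices. -/
abbrev VMon (A : Type u) [Ring A] : Type u := Quotient (idemSetoid A)

instance : Add (VMon A) := ⟨Quotient.map₂ Idem.sum (fun _ _ h _ _ h' => equiv_sum h h')⟩

instance : Zero (VMon A) := ⟨Quotient.mk _ (zeroIdem A)⟩

instance : AddCommMonoid (VMon A) where
  nsmul := nsmulRec
  add_assoc := by
    intro a b c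
    induction a using Quotient.inductionOn with | _ a => ?_
    induction b using Quotient.inductionOn with | _ b => ?_
    induction c using Quotient.inductionOn with | _ c => ?_
    exact Quotient.sound (equiv_assoc a b c)
  zero_add := by
    intro a
    induction a using Quotient.inductionOn with | _ a => ?_
    exact Quotient.sound (equiv_zero a)
  add_zero := by
    intro a
    induction a using Quotient.inductionOn with | _ a => ?_
    exact Quotient.sound (equiv_trans (equiv_comm a (zeroIdem A)) (equiv_zero a))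
  add_comm := by
    intro a b
    induction a using Quotient.inductionOn with | _ a => ?_
    induction b using Quotient.inductionOn with | _ b => ?_
    exact Quotient.sound (equiv_comm a b)

/-- STAB. -/
theorem stab {p q : Idem A} (h : K0.cls p = K0.cls q) :
    ∃ r : ℕ, (p.sum (one A r)).Equiv (q.sum (one A r)) := by
  let φ : Idem A → Algebra.GrothendieckAddGroup (VMon A) := fun p =>
    Algebra.GrothendieckAddGroup.of (Quotient.mk (idemSetoid A) p)
  let L : K0 A →+ Algebra.GrothendieckAddGroup (VMon A) := K0.lift φ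
    (fun p q h => congrArg (Algebra.GrothendieckAddGroup.of (M := VMon A))
      (Quotient.sound (s := idemSetoid A) h))
    (fun p q => map_add (Algebra.GrothendieckAddGroup.of (M := VMon A))
      (Quotient.mk (idemSetoid A) p) (Quotient.mk (idemSetoid A) q))
  have hL : ∀ p, L (K0.cls p) = φ p := fun p => K0.lift_cls _ _ _ p
  have h1 : φ p = φ q := by
    have h2 := congrArg L h
    rwa [hL, hL] at h2
  have h2 : ∃ c : (⊤ : AddSubmonoid (VMon A)), (c : VMon A) + Quotient.mk (idemSetoid A) p =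
      c + Quotient.mk (idemSetoid A) q :=
    (AddLocalization.addMonoidOf (⊤ : AddSubmonoid (VMon A))).eq_iff_exists.1 h1
  obtain ⟨⟨c, _⟩, hc⟩ := h2
  induction c using Quotient.inductionOn with | _ c => ?_
  have h3 : (c.sum p).Equiv (c.sum q) := Quotient.exact hc
  refine ⟨c.n, ?_⟩
  have h4 : ∀ p : Idem A, (p.sum (one A c.n)).Equiv ((c.sum p).sum (compl c)) := by
    intro p
    refine equiv_symm ?_
    refine equiv_trans (equiv_sum (equiv_comm c p) (equiv_refl _)) ?_
    refine equiv_trans (equiv_assoc p c (compl c)) ?_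
    exact equiv_sum (equiv_refl p) (equiv_compl c)
  exact equiv_trans (h4 p) (equiv_trans (equiv_sum h3 (equiv_refl _)) (equiv_symm (h4 q)))

end

end Pool.Agent.NegK.H91
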