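import Pool.Agent.Lib.MP_28303a_al.NK.H91.Fin
import Pool.Agent.Lib.MP_28303a_al.NK.H91.Stab
import Pool.Agent.Lib.MP_28303a_al.NK.Iface2

/-! # Vertex exactness of `K₀` for groups acting on trees -/

set_option autoImplicit false

namespace Pool.Agent.NegK.H91

universe u v w

open Matrix

section

variable {k : Type u} [Ring k] {Γ : Type} [Group Γ] {G : Subgroup Γ} {J : Type}
  {A : J → Subgroup Γ} {S : J → Set Γ} {n m : ℕ}
  {u : Matrix (Fin n) (Fin m) (MonoidAlgebra k Γ)}
  {v : Matrix (Fin m) (Fin n) (MonoidAlgebra k Γ)}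
  {P : Matrix (Fin m) (Fin m) (MonoidAlgebra k G)}

/-- The union of the translates of `T` by `G`. -/
def GS (G : Subgroup Γ) (T : Set Γ) : Set Γ := {x | ∃ g ∈ G, g * x ∈ T}

theorem GS_left (T : Set Γ) : ∀ h ∈ G, ∀ y ∈ GS G T, h * y ∈ GS G T := by
  rintro h hh y ⟨g, hg, hy⟩
  exact ⟨g * h⁻¹, G.mul_mem hg (G.inv_mem hh), by rwa [mul_assoc, inv_mul_cancel_left]⟩

theorem GS_right (T : Set Γ) (hT : ∀ x ∈ T, ∀ g ∈ G, x * g ∈ T) :
    ∀ y ∈ GS G T, ∀ h ∈ G, y * h ∈ GS G T := by
  rintro y ⟨g, hg, hy⟩ h hh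
  exact ⟨g, hg, by rw [← mul_assoc]; exact hT _ hy h hh⟩

theorem pre_right (T : Set Γ) (hT : ∀ x ∈ T, ∀ g ∈ G, x * g ∈ T) (r : Γ) :
    ∀ y ∈ pre r T, ∀ h ∈ G, y * h ∈ pre r T := by
  intro y hy h hh
  rw [mem_pre, ← mul_assoc]
  exact hT _ hy h hh

theorem subset_GS (T : Set Γ) : T ⊆ GS G T := fun x hx => ⟨1, G.one_mem, by rwa [one_mul]⟩

theorem pre_subset_GS (T : Set Γ) (r : Γ) (hr : r ∈ G) : pre r T ⊆ GS G T :=
  fun _ hx => ⟨r, hr, hx⟩

/-- The operator `Θ_S` is the restriction to `S` away from the bad set. -/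
theorem Th_del (huv : u * v = 1) (T : Set Γ) (g : Γ) (i : Fin n) (c : k)
    (h : ∀ l, ∀ y ∈ (u i l).coeff.support, (g ∈ T ↔ g * y ∈ T)) :
    Th u v T (del g i c) = res T (del g i c) := by
  have hw : ∀ l, (mulM u (del g i c) : Row k Γ m) l = MonoidAlgebra.single g c * u i l := by
    intro l
    rw [mulM_apply, Finset.sum_eq_single i]
    · rw [del_apply_self]
    · intro j _ hj
      rw [del_apply_ne _ _ _ _ hj, zero_mul]
    · intro hi
      exact absurd (Finset.mem_univ i) hi
  by_cases hg : g ∈ T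
  · have h1 : res T (mulM u (del g i c)) = (mulM u (del g i c) : Row k Γ m) := by
      funext l
      rw [res_apply, hw]
      ext y
      by_cases hy : y ∈ T
      · rw [resA_coeff_mem _ _ _ hy]
      · rw [resA_coeff_notMem _ _ _ hy, MonoidAlgebra.coeff_single_mul_apply]
        by_cases h0 : (u i l).coeff (g⁻¹ * y) = 0
        · rw [h0, mul_zero]
        · exfalso
          have := (h l _ (Finsupp.mem_support_iff.2 h0)).1 hg
          rw [mul_inv_cancel_left] at this
          exact hy this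
    rw [Th_apply, h1, mulM_mulM, huv, mulM_one, res_del_mem _ _ _ _ hg]
  · have h1 : res T (mulM u (del g i c)) = (0 : Row k Γ m) := by
      funext l
      rw [res_apply, hw]
      ext y
      by_cases hy : y ∈ T
      · rw [resA_coeff_mem _ _ _ hy, MonoidAlgebra.coeff_single_mul_apply]
        by_cases h0 : (u i l).coeff (g⁻¹ * y) = 0
        · rw [h0, mul_zero]; rfl
        · exfalso
          refine hg ((h l _ (Finsupp.mem_support_iff.2 h0)).2 ?_)
          rwa [mul_inv_cancel_left]
      · rw [resA_coeff_notMem _ _ _ hy]; rfl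
    rw [Th_apply, h1, map_zero, res_del_notMem _ _ _ _ hg]

/-- The difference of `Θ_{S_j}` and the restriction lives on finitely many cosets of `A_j`. -/
theorem exists_F (hS : StarData G A S) (huv : u * v = 1) (j : J) :
    ∃ F' : Finset Γ, ∀ Y : Set Γ, (∀ a ∈ A j, ∀ f ∈ F', a * f ∈ Y) → ∀ x : Row k Γ n,
      Th u v (S j) (res Y x) - res (S j) (res Y x) = Th u v (S j) x - res (S j) x ∧
      res Y (Th u v (S j) x - res (S j) x) = Th u v (S j) x - res (S j) x := by
  classical
  let F0 : Γ → Finset Γ := fun x => (hS.fin j x).choose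
  have hF0 : ∀ x g, ¬ (g ∈ S j ↔ g * x ∈ S j) → ∃ a ∈ A j, ∃ f ∈ F0 x, g = a * f :=
    fun x => (hS.fin j x).choose_spec
  let U : Finset Γ := Finset.univ.biUnion fun i : Fin n => Finset.univ.biUnion fun l : Fin m =>
    (u i l).coeff.support
  refine exists_supp (A j) (Th u v (S j) - res (S j)) ?_ (U.biUnion F0) ?_
  · intro a ha c x
    rw [AddMonoidHom.sub_apply, AddMonoidHom.sub_apply, Th_smul, res_smul,
      pre_eq (A j) (S j) (hS.left j) a ha]
    funext i
    exact (mul_sub _ _ _).symm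
  · intro g hg i c
    rw [AddMonoidHom.sub_apply, sub_eq_zero]
    refine Th_del huv (S j) g i c fun l y hy => ?_
    by_contra hc
    obtain ⟨a, ha, f, hf, e⟩ := hF0 y g hc
    refine hg ⟨a, ha, f, Finset.mem_biUnion.2 ⟨y, ?_, hf⟩, e⟩
    exact Finset.mem_biUnion.2 ⟨i, Finset.mem_univ i, Finset.mem_biUnion.2
      ⟨l, Finset.mem_univ l, hy⟩⟩

/-- `Θ_{GT}(x)` is a sum of elements of `g Θ_T(X)`. -/
theorem Th_GS_mem (hd : Dat G u v P) (T : Set Γ) (hT : ∀ x ∈ T, ∀ g ∈ G, x * g ∈ T)
    (x : Row k Γ n) :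
    Th u v (GS G T) x ∈ AddSubgroup.closure {y : Row k Γ n | ∃ g ∈ G, ∃ z,
      y = (MonoidAlgebra.single g (1 : k) : MonoidAlgebra k Γ) • Th u v T z} := by
  let K : AddSubgroup (Row k Γ n) := AddSubgroup.closure {y : Row k Γ n | ∃ g ∈ G, ∃ z,
      y = (MonoidAlgebra.single g (1 : k) : MonoidAlgebra k Γ) • Th u v T z}
  have h1 : (QuotientAddGroup.mk' K).comp ((mulM v).comp (res (GS G T))) = 0 := by
    refine row_hom_ext fun g l c => ?_
    show QuotientAddGroup.mk' K (mulM v (res (GS G T) (del g l c))) = 0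
    by_cases hg : g ∈ GS G T
    · rw [res_del_mem _ _ _ _ hg]
      obtain ⟨r, hr, hrg⟩ := hg
      have e1 : (del g l c : Row k Γ m) =
          (MonoidAlgebra.single r⁻¹ (1 : k) : MonoidAlgebra k Γ) • del (r * g) l c := by
        rw [smul_del, one_mul, inv_mul_cancel_left]
      have e2 : mulM v (del (r * g) l c) = Th u v T (mulM v (del (r * g) l c)) := by
        rw [hd.mulM_v T hT, res_del_mem _ _ _ _ hrg]
      rw [e1, mulM_smul, e2]
      refine (QuotientAddGroup.eq_zero_iff _).2 (AddSubgroup.subset_closure ?_)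
      exact ⟨r⁻¹, G.inv_mem hr, _, rfl⟩
    · rw [res_del_notMem _ _ _ _ hg, map_zero, map_zero]
  have h2 := DFunLike.congr_fun h1 (mulM u x)
  exact (QuotientAddGroup.eq_zero_iff _).1 h2

/-- Separation. -/
theorem eq_zero_of_sep (hd : Dat G u v P) (T : Set Γ) (hT : ∀ x ∈ T, ∀ g ∈ G, x * g ∈ T)
    (y : Row k Γ n) (hy : Th u v (GS G T) y = y) (h : ∀ r ∈ G, Th u v (pre r T) y = 0) :
    y = 0 := by
  have h1 : ∀ r ∈ G, res (pre r T) (mulM u y) = 0 := by
    intro r hr
    have h2 : mulM u (Th u v (pre r T) y) = 0 := by rw [h r hr, map_zero]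
    rw [Th_apply, mulM_mulM, hd.hvu, ← res_mulM_inc G _ (pre_right T hT r), mulM_mulM,
      hd.huP] at h2
    exact h2
  have h3 : res (GS G T) (mulM u y) = 0 := by
    funext l
    rw [res_apply]
    ext g
    by_cases hg : g ∈ GS G T
    · rw [resA_coeff_mem _ _ _ hg]
      obtain ⟨r, hr, hrg⟩ := hg
      have h4 := congrFun (h1 r hr) l
      rw [res_apply] at h4
      have h5 : (resA k (pre r T) (mulM u y l)).coeff g = 0 := by rw [h4]; rfl
      rw [resA_coeff_mem (pre r T) _ _ (show g ∈ pre r T from hrg)] at h5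
      rw [h5]; rfl
    · rw [resA_coeff_notMem _ _ _ hg]; rfl
  rw [← hy, Th_apply, h3, map_zero]

/-- Commutation with restrictions. -/
theorem Th_GS_res (hd : Dat G u v P) (T : Set Γ) (hT : ∀ x ∈ T, ∀ g ∈ G, x * g ∈ T)
    (Y : Set Γ) (hY : ∀ h ∈ G, ∀ y ∈ Y, h * y ∈ Y)
    (hc : ∀ x : Row k Γ n, Th u v T (res Y x) = res Y (Th u v T x)) (x : Row k Γ n) :
    Th u v (GS G T) (res Y x) = res Y (Th u v (GS G T) x) := by
  have hGS := GS_right (G := G) T hT
  have hR : ∀ g ∈ G, ∀ (c : k) (x : Row k Γ n),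
      res Y ((MonoidAlgebra.single g c : MonoidAlgebra k Γ) • x) =
        (MonoidAlgebra.single g c : MonoidAlgebra k Γ) • res Y x := by
    intro g hg c x
    rw [res_smul, pre_eq G Y hY g hg]
  have hc' : ∀ r ∈ G, ∀ x : Row k Γ n,
      Th u v (pre r T) (res Y x) = res Y (Th u v (pre r T) x) := by
    intro r hr x
    have e : ∀ z : Row k Γ n, Th u v (pre r T) z =
        (MonoidAlgebra.single r⁻¹ (1 : k) : MonoidAlgebra k Γ) •
          Th u v T ((MonoidAlgebra.single r (1 : k) : MonoidAlgebra k Γ) • z) := by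
      intro z
      rw [Th_smul, smul_smul_row, MonoidAlgebra.single_mul_single, inv_mul_cancel, one_mul]
      exact (one_smul_row _).symm
    rw [e, e, ← hR r hr, hc, hR r⁻¹ (G.inv_mem hr)]
  have hE : ∀ y ∈ AddSubgroup.closure {y : Row k Γ n | ∃ g ∈ G, ∃ z,
      y = (MonoidAlgebra.single g (1 : k) : MonoidAlgebra k Γ) • Th u v T z},
      Th u v (GS G T) (res Y y) = res Y y := by
    intro y hy
    induction hy using AddSubgroup.closure_induction with
    | mem y h =>
      obtain ⟨g, hg, z, rfl⟩ := h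
      rw [hR g hg, ← hc, Th_smul, pre_eq G _ (GS_left T) g hg, hd.Th_Th _ _ hGS,
        Set.inter_eq_self_of_subset_right (subset_GS T)]
    | zero => rw [map_zero, map_zero]
    | add y z _ _ hy hz => rw [map_add, map_add, hy, hz]
    | neg y _ hy => rw [map_neg, map_neg, hy]
  rw [← sub_eq_zero]
  refine eq_zero_of_sep hd T hT _ ?_ ?_
  · rw [map_sub, hd.Th_Th _ _ hGS, Set.inter_self, hE _ (Th_GS_mem hd T hT x)]
  · intro r hr
    rw [map_sub, hd.Th_Th _ _ (pre_right T hT r), hc' r hr (Th u v (GS G T) x),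
      hd.Th_Th _ _ (pre_right T hT r),
      Set.inter_eq_self_of_subset_left (pre_subset_GS T r hr), hc' r hr x, sub_self]

theorem Th_biUnion (hS : StarData G A S) (s : Finset J) (x : Row k Γ n) [DecidableEq J] :
    Th u v (⋃ j ∈ s, GS G (S j)) x = ∑ j ∈ s, Th u v (GS G (S j)) x := by
  induction s using Finset.induction_on with
  | empty => simp [Th_empty]
  | insert a s ha ih =>
    rw [Finset.set_biUnion_insert, Th_union, ih, Finset.sum_insert ha]
    rw [Set.disjoint_iUnion₂_right]
    intro j hj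
    rw [Set.disjoint_left]
    rintro y ⟨g, hg, hy⟩ ⟨g', hg', hy'⟩
    have h1 : (g' * g⁻¹) * (g * y) ∈ S j := by
      rwa [mul_assoc, inv_mul_cancel_left]
    have := (hS.disj a j _ (G.mul_mem hg' (G.inv_mem hg)) _ hy h1).1
    exact ha (this ▸ hj)

/-- The main step. -/
theorem main_step (hS : StarData G A S) [Finite J] (hd : Dat G u v P) (hP : P * P = P) :
    mcls P hP ∈ (K0.map (MonoidAlgebra.singleOneRingHom : k →+* MonoidAlgebra k G)).range ⊔
      ⨆ j, (K0.map (inc k (Subgroup.inclusion (hS.le j)))).range := by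
  classical
  have : Fintype J := Fintype.ofFinite J
  choose F' hF' using fun j => exists_F (n := n) hS hd.huv j
  let FY : Finset Γ := insert 1 (Finset.univ.biUnion F')
  let Y : Set Γ := {y | ∃ g ∈ G, ∃ f ∈ FY, y = g * f}
  have hY : ∀ h ∈ G, ∀ y ∈ Y, h * y ∈ Y := by
    rintro h hh y ⟨g, hg, f, hf, rfl⟩
    exact ⟨h * g, G.mul_mem hh hg, f, hf, (mul_assoc _ _ _).symm⟩
  have hGY : ∀ g ∈ G, g ∈ Y := fun g hg => ⟨g, hg, 1, Finset.mem_insert_self _ _,
    (mul_one g).symm⟩
  have hFY : ∀ j, ∀ a ∈ A j, ∀ f ∈ F' j, a * f ∈ Y := fun j a ha f hf =>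
    ⟨a, hS.le j ha, f, Finset.mem_insert_of_mem (Finset.mem_biUnion.2
      ⟨j, Finset.mem_univ j, hf⟩), rfl⟩
  have hright := hS.right
  have hAY : ∀ j, ∀ h ∈ A j, ∀ y ∈ Y, h * y ∈ Y := fun j h hh y hy => hY h (hS.le j hh) y hy
  -- commutation
  have hc : ∀ j (x : Row k Γ n), Th u v (S j) (res Y x) = res Y (Th u v (S j) x) := by
    intro j x
    obtain ⟨h1, h2⟩ := hF' j Y (hFY j) x
    have e1 : Th u v (S j) (res Y x) = (Th u v (S j) x - res (S j) x) +
        res (S j) (res Y x) := by rw [← h1, sub_add_cancel]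
    have e2 : res Y (Th u v (S j) x) = res Y (Th u v (S j) x - res (S j) x) +
        res Y (res (S j) x) := by rw [← map_add, sub_add_cancel]
    rw [e1, e2, h2, res_comm]
  have hcE : ∀ j (x : Row k Γ n),
      Th u v (GS G (S j)) (res Y x) = res Y (Th u v (GS G (S j)) x) := fun j x =>
    Th_GS_res hd (S j) (hright j) Y hY (hc j) x
  have hG1 : ∀ y ∈ (G : Set Γ), ∀ g ∈ G, y * g ∈ (G : Set Γ) := fun y hy g hg => G.mul_mem hy hg
  have hG2 : ∀ h ∈ G, ∀ y ∈ (G : Set Γ), h * y ∈ (G : Set Γ) := fun y hy g hg => G.mul_mem hy hg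
  have hdj : Disjoint (G : Set Γ) (⋃ j ∈ (Finset.univ : Finset J), GS G (S j)) := by
    rw [Set.disjoint_iUnion₂_right]
    intro j _
    rw [Set.disjoint_left]
    rintro y hy ⟨g, hg, hgy⟩
    exact hS.notMem j _ hgy (G.mul_mem hg hy)
  have hdec : ∀ x : Row k Γ n, x = Th u v (G : Set Γ) x + ∑ j, Th u v (GS G (S j)) x := by
    intro x
    rw [← Th_biUnion hS, ← Th_union _ _ _ _ hdj]
    have : (G : Set Γ) ∪ (⋃ j ∈ (Finset.univ : Finset J), GS G (S j)) = Set.univ := by
      refine Set.eq_univ_of_forall fun y => ?_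
      by_cases hy : y ∈ G
      · exact Or.inl hy
      · obtain ⟨j, g, hg, h⟩ := hS.cover y hy
        exact Or.inr (Set.mem_iUnion₂.2 ⟨j, Finset.mem_univ j, g, hg, h⟩)
    rw [this, Th_univ u v hd.huv]
  have hcG : ∀ x : Row k Γ n, Th u v (G : Set Γ) (res Y x) = res Y (Th u v (G : Set Γ) x) := by
    intro x
    have e1 := hdec (res Y x)
    have e2 : res Y x = res Y (Th u v (G : Set Γ) x) + ∑ j, res Y (Th u v (GS G (S j)) x) := by
      conv_lhs => rw [hdec x]
      rw [map_add, _root_.map_sum]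
    have e3 : ∑ j, Th u v (GS G (S j)) (res Y x) = ∑ j, res Y (Th u v (GS G (S j)) x) :=
      Finset.sum_congr rfl fun j _ => hcE j x
    rw [e3] at e1
    exact add_right_cancel (e1.symm.trans e2)
  have hGR : ∀ x : Row k Γ n, Th u v (G : Set Γ) (res Y x) = Th u v (G : Set Γ) x := by
    intro x
    have : (Th u v (G : Set Γ)).comp (res Y) = (Th u v (G : Set Γ) : Row k Γ n →+ Row k Γ n) := by
      refine row_hom_ext fun g i c => ?_
      show Th u v (G : Set Γ) (res Y (del g i c)) = _
      by_cases hg : g ∈ Y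
      · rw [res_del_mem _ _ _ _ hg]
      · rw [res_del_notMem _ _ _ _ hg, map_zero]
        have hgG : g ∉ G := fun h => hg (hGY g h)
        obtain ⟨j, r, hr, hs⟩ := hS.cover g hgG
        have hsY : r * g ∉ Y := by
          intro h
          have := hY _ (G.inv_mem hr) _ h
          rw [inv_mul_cancel_left] at this
          exact hg this
        have e1 : Th u v (S j) (del (r * g) i c) = (del (r * g) i c : Row k Γ n) := by
          obtain ⟨h1, -⟩ := hF' j Y (hFY j) (del (r * g) i c)
          rw [res_del_notMem _ _ _ _ hsY, map_zero, map_zero, sub_zero,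
            res_del_mem _ _ _ _ hs] at h1
          exact sub_eq_zero.1 h1.symm
        have e2 : (del g i c : Row k Γ n) =
            (MonoidAlgebra.single r⁻¹ (1 : k) : MonoidAlgebra k Γ) • del (r * g) i c := by
          rw [smul_del, one_mul, inv_mul_cancel_left]
        rw [e2, Th_smul, pre_eq G _ hG2 _ (G.inv_mem hr), ← e1, hd.Th_Th _ _ hG1]
        have e3 : (G : Set Γ) ∩ S j = ∅ := by
          rw [← Set.disjoint_iff_inter_eq_empty, Set.disjoint_left]
          exact fun y hy hy' => hS.notMem j y hy' hy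
        rw [e3, Th_empty]
        funext l
        exact (mul_zero _).symm
    exact DFunLike.congr_fun this x
  -- the class of `Y`
  obtain ⟨cY, hcY, hclY⟩ := hasCl_res (k := k) (n := n) G Y hY FY (by
    rintro y ⟨g, hg, f, hf, rfl⟩
    exact ⟨g, hg, f, hf, rfl⟩)
  -- the operators
  let ThG : Row k Γ n →ₗ[MonoidAlgebra k G] Row k Γ n :=
    rowLin G (Th u v (G : Set Γ)) (fun h hh c x => by rw [Th_smul, pre_eq G _ hG2 h hh])
  have hRG : ∀ h ∈ G, ∀ (c : k) (x : Row k Γ n),
      res Y ((MonoidAlgebra.single h c : MonoidAlgebra k Γ) • x) =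
        (MonoidAlgebra.single h c : MonoidAlgebra k Γ) • res Y x := fun h hh c x => by
    rw [res_smul, pre_eq G Y hY h hh]
  let E : J → (Row k Γ n →ₗ[MonoidAlgebra k G] Row k Γ n) := fun j =>
    rowLin G ((Th u v (GS G (S j))).comp (res Y)) (fun h hh c x => by
      rw [AddMonoidHom.comp_apply, AddMonoidHom.comp_apply, hRG h hh, Th_smul,
        pre_eq G _ (GS_left (S j)) h hh])
  let σ : (j : J) → (Row k Γ n →ₗ[MonoidAlgebra k (A j)] Row k Γ n) := fun j =>
    rowLin (A j) ((Th u v (S j)).comp (res Y)) (fun h hh c x => by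
      rw [AddMonoidHom.comp_apply, AddMonoidHom.comp_apply, hRG h (hS.le j hh), Th_smul,
        pre_eq (A j) _ (hS.left j) h hh])
  have hE : ∀ j x, E j x = Th u v (GS G (S j)) (res Y x) := fun j x => rfl
  have hσ : ∀ j x, σ j x = Th u v (S j) (res Y x) := fun j x => rfl
  have hYY : ∀ x : Row k Γ n, res Y (res Y x) = res Y x := fun x => by
    rw [res_res, Set.inter_self]
  have hσσ : ∀ j x, σ j (σ j x) = σ j x := by
    intro j x
    rw [hσ, hσ, ← hc, hYY, hd.Th_Th _ _ (hright j), Set.inter_self]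
  -- the classes of `σ j`
  have hclσ : ∀ j, ∃ c, HasCl (σ j) c := by
    intro j
    let T : Set Γ := (S j ∩ Y) ∪ {y | ∃ a ∈ A j, ∃ f ∈ F' j, y = a * f}
    have hT : ∀ h ∈ A j, ∀ y ∈ T, h * y ∈ T := by
      rintro h hh y (hy | ⟨a, ha, f, hf, rfl⟩)
      · exact Or.inl ⟨hS.left j h hh y hy.1, hAY j h hh y hy.2⟩
      · exact Or.inr ⟨h * a, (A j).mul_mem hh ha, f, hf, (mul_assoc _ _ _).symm⟩
    let s : Γ → Γ := fun f => if h : ∃ g ∈ G, g * f ∈ S j then h.choose * f else 1
    have hs : ∀ g ∈ G, ∀ f, g * f ∈ S j → ∃ a ∈ A j, g * f = a * s f := by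
      intro g hg f hgf
      have h : ∃ g ∈ G, g * f ∈ S j := ⟨g, hg, hgf⟩
      have h1 : s f = h.choose * f := dif_pos h
      obtain ⟨h2, h3⟩ := h.choose_spec
      refine ⟨g * h.choose⁻¹, ?_, ?_⟩
      · refine (hS.disj j j _ (G.mul_mem hg (G.inv_mem h2)) _ h3 ?_).2
        rwa [mul_assoc, inv_mul_cancel_left]
      · rw [h1, mul_assoc, inv_mul_cancel_left]
    obtain ⟨c, -, hcl⟩ := hasCl_res (k := k) (n := n) (A j) T hT (FY.image s ∪ F' j) (by
      rintro y (⟨hy, g, hg, f, hf, rfl⟩ | ⟨a, ha, f, hf, rfl⟩)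
      · obtain ⟨a, ha, e⟩ := hs g hg f hy
        exact ⟨a, ha, s f, Finset.mem_union_left _ (Finset.mem_image_of_mem s hf), e⟩
      · exact ⟨a, ha, f, Finset.mem_union_right _ hf, rfl⟩)
    obtain ⟨N, e, he, hI⟩ := hcl.exists_sub (θ' := σ j) (LinearMap.ext (hσσ j)) (by
      refine LinearMap.ext fun x => ?_
      show res T (σ j x) = σ j x
      have hT1 := hF' j T (fun a ha f hf => Or.inr ⟨a, ha, f, hf, rfl⟩)
      have e1 : σ j x = (Th u v (S j) (res Y x) - res (S j) (res Y x)) +
          res (S j) (res Y x) := by rw [hσ, sub_add_cancel]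
      have hTS : T ∩ (S j ∩ Y) = S j ∩ Y :=
        Set.inter_eq_self_of_subset_right Set.subset_union_left
      rw [e1, map_add, (hT1 _).2]
      congr 1
      rw [res_res (S j) Y, res_res, hTS])
    exact ⟨_, HasCl.of_img he hI⟩
  choose cσ hcσ using hclσ
  have hclE : ∀ j, HasCl (E j) (K0.map (inc k (Subgroup.inclusion (hS.le j))) (cσ j)) := by
    intro j
    refine HasCl.induced (Subgroup.inclusion (hS.le j)) ?_
      (Subgroup.inclusion_injective _) (σ j) (E j) (hcσ j) ?_ ?_ ?_ ?_
    · intro c x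
      show (inc k (A j).subtype c) • x = (inc k G.subtype (inc k _ c)) • x
      congr 1
      show _ = ((inc k G.subtype).comp (inc k _)) c
      rw [← MonoidAlgebra.mapDomainRingHom_comp]
      rfl
    · intro x
      rw [hσ, hE, ← hcE, hYY, hd.Th_Th _ _ (hright j),
        Set.inter_eq_self_of_subset_left (subset_GS _)]
      rfl
    · intro x
      rw [hσ, hE, ← hc, hYY, hd.Th_Th _ _ (GS_right _ (hright j)),
        Set.inter_eq_self_of_subset_right (subset_GS _)]
    · intro g hg x
      have hgA : (g : Γ) ∉ A j := fun h => hg ⟨⟨g, h⟩, Subtype.ext rfl⟩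
      rw [hσ, smul_eq, hRG g g.2, Th_smul, hσ, ← hc, hYY,
        hd.Th_Th _ _ (pre_right _ (hright j) _)]
      have e : pre (g : Γ) (S j) ∩ S j = ∅ := by
        rw [← Set.disjoint_iff_inter_eq_empty, Set.disjoint_left]
        intro y hy hy'
        exact hgA (hS.disj j j g g.2 y hy' hy).2
      rw [e, Th_empty]
      funext l
      exact mul_zero _
    · intro x
      rw [hE, hcE]
      have h1 := Th_GS_mem hd (S j) (hright j) x
      have h2 : ∀ y ∈ AddSubgroup.closure {y : Row k Γ n | ∃ g ∈ G, ∃ z,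
          y = (MonoidAlgebra.single g (1 : k) : MonoidAlgebra k Γ) • Th u v (S j) z},
          res Y y ∈ AddSubgroup.closure {y | ∃ (g : G) (z : Row k Γ n),
            y = MonoidAlgebra.single g (1 : k) • σ j z} := by
        intro y hy
        induction hy using AddSubgroup.closure_induction with
        | mem y h =>
          obtain ⟨g, hg, z, rfl⟩ := h
          refine AddSubgroup.subset_closure ⟨⟨g, hg⟩, z, ?_⟩
          rw [hRG g hg, ← hc, smul_eq]
          rfl
        | zero => rw [map_zero]; exact AddSubgroup.zero_mem _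
        | add y z _ _ hy hz => rw [map_add]; exact AddSubgroup.add_mem _ hy hz
        | neg y _ hy => rw [map_neg]; exact AddSubgroup.neg_mem _ hy
      exact h2 _ h1
  -- the class of `Θ_G`
  have hclG : HasCl ThG (mcls P hP) := by
    refine HasCl.of_img hP ?_
    let a : Row k Γ n →ₗ[MonoidAlgebra k G] (Fin m → MonoidAlgebra k G) :=
      mkLin
        { toFun := fun x => fun l => cut G 1 (mulM u x l)
          map_zero' := by
            funext l
            rw [map_zero]
            exact map_zero _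
          map_add' := fun x y => by
            funext l
            rw [map_add]
            exact map_add _ _ _ }
        (fun h c x => by
          funext l
          show cut G 1 (mulM u (MonoidAlgebra.single h c • x) l) = _
          rw [smul_eq, mulM_smul]
          exact cut_single_mul G 1 h c _)
    let inr : (Fin m → MonoidAlgebra k G) → Row k Γ m := fun w l => inc k G.subtype (w l)
    have hinr : ∀ w, mulM (P.map (inc k G.subtype)) (inr w) = inr (w ᵥ* P) := by
      intro w
      funext l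
      rw [mulM_apply]
      show _ = inc k G.subtype (∑ i, w i * P i l)
      rw [_root_.map_sum]
      exact Finset.sum_congr rfl fun i _ => (map_mul _ _ _).symm
    let b : (Fin m → MonoidAlgebra k G) →ₗ[MonoidAlgebra k G] Row k Γ n :=
      mkLin
        { toFun := fun w => mulM v (inr w)
          map_zero' := by
            have : inr 0 = 0 := funext fun l => map_zero _
            rw [this, map_zero]
          map_add' := fun x y => by
            have : inr (x + y) = inr x + inr y := funext fun l => map_add _ _ _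
            rw [this, map_add] }
        (fun h c w => by
          show mulM v (inr (MonoidAlgebra.single h c • w)) = _
          have : inr (MonoidAlgebra.single h c • w) =
              (MonoidAlgebra.single (h : Γ) c : MonoidAlgebra k Γ) • inr w := by
            funext l
            show inc k G.subtype (MonoidAlgebra.single h c * w l) = _
            rw [map_mul, inc_single]; rfl
          rw [this, mulM_smul, smul_eq]; rfl)
    have hcutG : ∀ w : Row k Γ m, inr (fun l => cut G 1 (w l)) = res (G : Set Γ) w := by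
      intro w
      funext l
      show inc k G.subtype (cut G 1 (w l)) = resA k (G : Set Γ) (w l)
      ext g
      show (Finsupp.mapDomain G.subtype (cut G 1 (w l)).coeff) g = _
      by_cases hg : g ∈ G
      · rw [resA_coeff_mem _ _ _ hg]
        have := Finsupp.mapDomain_apply G.subtype_injective (cut G 1 (w l)).coeff ⟨g, hg⟩
        refine this.trans ?_
        rw [cut_coeff]
        show (w l).coeff (g * 1) = _
        rw [mul_one]
      · rw [resA_coeff_notMem _ _ _ hg, Finsupp.mapDomain_of_notMem_range]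
        rintro ⟨h, rfl⟩
        exact hg h.2
    have hcuti : ∀ w : Fin m → MonoidAlgebra k G, (fun l => cut G 1 (inr w l)) = w := by
      intro w
      funext l
      ext h
      rw [cut_coeff]
      show (Finsupp.mapDomain G.subtype (w l).coeff) ((h : Γ) * 1) = _
      rw [mul_one]
      exact Finsupp.mapDomain_apply G.subtype_injective (w l).coeff h
    have k1 : ∀ x, b (a x) = Th u v (G : Set Γ) x := by
      intro x
      show mulM v (inr (fun l => cut G 1 (mulM u x l))) = _
      rw [hcutG]; rfl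
    have k2 : ∀ w, a (b w) = w ᵥ* P := by
      intro w
      show (fun l => cut G 1 (mulM u (mulM v (inr w)) l)) = _
      rw [mulM_mulM, hd.hvu, hinr, hcuti]
    have k3 : ∀ w, b (w ᵥ* P) = b w := by
      intro w
      show mulM v (inr (w ᵥ* P)) = mulM v (inr w)
      rw [← hinr, mulM_mulM, hd.hPv]
    have k4 : ∀ x, (a x) ᵥ* P = a x := by
      intro x
      rw [← hcuti ((a x) ᵥ* P), ← hinr]
      show (fun l => cut G 1 (mulM _ (inr (fun l => cut G 1 (mulM u x l))) l)) = _
      rw [hcutG, ← res_mulM_inc G _ hG1, mulM_mulM, hd.huP, ← hcutG, hcuti]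
      rfl
    refine ⟨a, b, LinearMap.ext k1, LinearMap.ext k2, LinearMap.ext fun x => ?_,
      LinearMap.ext fun w => ?_⟩
    · show a (Th u v (G : Set Γ) x) = a x
      rw [← k1, k2, k4]
    · show Th u v (G : Set Γ) (b w) = b w
      rw [← k1, k2, k3]
  -- the decomposition
  have hsum : resL G Y hY = ThG + ∑ j, E j := by
    refine LinearMap.ext fun x => ?_
    show res Y x = Th u v (G : Set Γ) x + (∑ j, E j) x
    rw [LinearMap.sum_apply]
    have := hdec (res Y x)
    rw [hGR] at this
    exact this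
  have horth : ∀ i j, i ≠ j → E i ∘ₗ E j = 0 := by
    intro i j hij
    refine LinearMap.ext fun x => ?_
    show E i (E j x) = 0
    rw [hE, hE, ← hcE, hYY, hd.Th_Th _ _ (GS_right _ (hright i))]
    have e : GS G (S i) ∩ GS G (S j) = ∅ := by
      rw [← Set.disjoint_iff_inter_eq_empty, Set.disjoint_left]
      rintro y ⟨g, hg, hy⟩ ⟨g', hg', hy'⟩
      have h1 : (g' * g⁻¹) * (g * y) ∈ S j := by
        rwa [mul_assoc, inv_mul_cancel_left]
      exact hij (hS.disj i j _ (G.mul_mem hg' (G.inv_mem hg)) _ hy h1).1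
    rw [e, Th_empty]
  have hGE : ∀ j, (G : Set Γ) ∩ GS G (S j) = ∅ := by
    intro j
    rw [← Set.disjoint_iff_inter_eq_empty, Set.disjoint_left]
    rintro y hy ⟨g, hg, hgy⟩
    exact hS.notMem j _ hgy (G.mul_mem hg hy)
  have hcl := (hclG.add (HasCl.sum Finset.univ E _ hclE horth) (by
      refine LinearMap.ext fun x => ?_
      rw [LinearMap.comp_apply, LinearMap.sum_apply, _root_.map_sum]
      refine Finset.sum_eq_zero fun j _ => ?_
      show Th u v (G : Set Γ) (Th u v (GS G (S j)) (res Y x)) = 0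
      rw [hd.Th_Th _ _ hG1, hGE, Th_empty]) (by
      refine LinearMap.ext fun x => ?_
      rw [LinearMap.comp_apply, LinearMap.sum_apply]
      refine Finset.sum_eq_zero fun j _ => ?_
      show Th u v (GS G (S j)) (res Y (Th u v (G : Set Γ) x)) = 0
      rw [← hcG, hGR, hd.Th_Th _ _ (GS_right _ (hright j)), Set.inter_comm, hGE, Th_empty]))
  rw [← hsum] at hcl
  have hfin := hclY.unique hcl
  have hP' : mcls P hP = cY - ∑ j, K0.map (inc k (Subgroup.inclusion (hS.le j))) (cσ j) := by
    rw [hfin, add_sub_cancel_right]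
  rw [hP']
  refine AddSubgroup.sub_mem _ (AddSubgroup.mem_sup_left hcY) (AddSubgroup.mem_sup_right ?_)
  refine AddSubgroup.sum_mem _ fun j _ => ?_
  exact AddSubgroup.mem_iSup_of_mem j ⟨_, rfl⟩

end

/-- VERT. -/
theorem vert : VertStatement.{u} := by
  intro k _ Γ _ G J _ A S h z hz
  let H : AddSubgroup (K0 (MonoidAlgebra k G)) :=
    (K0.map (MonoidAlgebra.singleOneRingHom : k →+* MonoidAlgebra k G)).range ⊔
      ⨆ j, (K0.map (MonoidAlgebra.mapDomainRingHom k (Subgroup.inclusion (h.le j)))).range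
  show z ∈ H
  have hone : ∀ r, K0.cls (one (MonoidAlgebra k G) r) ∈ H := by
    intro r
    refine AddSubgroup.mem_sup_left ⟨K0.cls (one k r), ?_⟩
    rw [K0.map_cls]
    refine cls_eq_of_equiv ?_
    have e : ((one k r).map (MonoidAlgebra.singleOneRingHom : k →+* MonoidAlgebra k G)) =
        one (MonoidAlgebra k G) r := by
      unfold Idem.map one
      congr 1
      exact Matrix.map_one _ (map_zero _) (map_one _)
    rw [e]
    exact equiv_refl _
  have hmapone : ∀ r, (one (MonoidAlgebra k G) r).map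
      (MonoidAlgebra.mapDomainRingHom k G.subtype) = one (MonoidAlgebra k Γ) r := by
    intro r
    unfold Idem.map one
    congr 1
    exact Matrix.map_one _ (map_zero _) (map_one _)
  obtain ⟨p, q, rfl⟩ := exists_sub z
  have hq : K0.cls q + K0.cls (compl q) = K0.cls (one (MonoidAlgebra k G) q.n) := by
    rw [← cls_sum]
    exact cls_eq_of_equiv (equiv_compl q)
  let p0 : Idem (MonoidAlgebra k G) := p.sum (compl q)
  have hz1 : K0.cls p - K0.cls q = K0.cls p0 - K0.cls (one (MonoidAlgebra k G) q.n) := by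
    rw [← hq]
    show _ = K0.cls (p.sum (compl q)) - _
    rw [cls_sum]
    abel
  rw [hz1] at hz ⊢
  have h1 : K0.cls (p0.map (MonoidAlgebra.mapDomainRingHom k G.subtype)) =
      K0.cls (one (MonoidAlgebra k Γ) q.n) := by
    rw [map_sub, K0.map_cls, K0.map_cls, sub_eq_zero, hmapone] at hz
    exact hz
  obtain ⟨r, hr⟩ := stab h1
  let p1 : Idem (MonoidAlgebra k G) := p0.sum (one (MonoidAlgebra k G) r)
  have h2 : (one (MonoidAlgebra k Γ) (q.n + r)).Equiv
      (p1.map (MonoidAlgebra.mapDomainRingHom k G.subtype)) := by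
    refine equiv_trans (equiv_symm (equiv_one q.n r)) ?_
    have e : p1.map (MonoidAlgebra.mapDomainRingHom k G.subtype) =
        (p0.map (MonoidAlgebra.mapDomainRingHom k G.subtype)).sum
          (one (MonoidAlgebra k Γ) r) := by
      show (p0.sum (one (MonoidAlgebra k G) r)).map _ = _
      rw [Idem.map_sum, hmapone]
    rw [e]
    exact equiv_symm hr
  obtain ⟨u, v, huv, hvu⟩ := h2
  have hd : Dat G u v p1.e := ⟨huv, hvu⟩
  have h3 : mcls p1.e p1.idem ∈ H := main_step h hd p1.idem
  rw [mcls_self] at h3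
  have h4 : K0.cls p1 = K0.cls p0 + K0.cls (one (MonoidAlgebra k G) r) := cls_sum _ _
  have h5 : K0.cls p0 = K0.cls p1 - K0.cls (one (MonoidAlgebra k G) r) := by
    rw [h4, add_sub_cancel_right]
  rw [h5]
  exact H.sub_mem (H.sub_mem h3 (hone r)) (hone q.n)

end Pool.Agent.NegK.H91
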