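import Pool.Agent.Lib.MP_28303a_al.NK.H91.Row

/-! # Finite unions of cosets give finitely generated free modules -/

set_option autoImplicit false

namespace Pool.Agent.NegK.H91

universe u v w

open Matrix

section

variable {k : Type u} [Ring k] {Γ : Type} [Group Γ]

/-- Linear maps of row vectors over `k[H]`. -/
noncomputable def rowLin {n : ℕ} (H : Subgroup Γ) (f : Row k Γ n →+ Row k Γ n)
    (hf : ∀ (h : Γ), h ∈ H → ∀ (c : k) (x : Row k Γ n),
      f ((MonoidAlgebra.single h c : MonoidAlgebra k Γ) • x) =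
        (MonoidAlgebra.single h c : MonoidAlgebra k Γ) • f x) :
    Row k Γ n →ₗ[MonoidAlgebra k H] Row k Γ n :=
  mkLin f (fun h c x => by
    rw [smul_eq, smul_eq, hf h h.2])

@[simp] theorem rowLin_apply {n : ℕ} (H : Subgroup Γ) (f : Row k Γ n →+ Row k Γ n)
    (hf : ∀ (h : Γ), h ∈ H → ∀ (c : k) (x : Row k Γ n),
      f ((MonoidAlgebra.single h c : MonoidAlgebra k Γ) • x) =
        (MonoidAlgebra.single h c : MonoidAlgebra k Γ) • f x) (x : Row k Γ n) :
    rowLin H f hf x = f x := rfl

theorem pre_eq (H : Subgroup Γ) (Y : Set Γ) (hY : ∀ h ∈ H, ∀ y ∈ Y, h * y ∈ Y) (h : Γ)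
    (hh : h ∈ H) : pre h Y = Y := by
  ext y
  rw [mem_pre]
  constructor
  · intro h1
    have := hY _ (H.inv_mem hh) _ h1
    rwa [inv_mul_cancel_left] at this
  · exact hY h hh y

/-- The restriction to `Y` as a `k[H]`-linear map if `H Y = Y`. -/
noncomputable def resL {n : ℕ} (H : Subgroup Γ) (Y : Set Γ)
    (hY : ∀ h ∈ H, ∀ y ∈ Y, h * y ∈ Y) : Row k Γ n →ₗ[MonoidAlgebra k H] Row k Γ n :=
  rowLin H (res Y) (fun h hh c x => by rw [res_smul, pre_eq H Y hY h hh])

@[simp] theorem resL_apply {n : ℕ} (H : Subgroup Γ) (Y : Set Γ)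
    (hY : ∀ h ∈ H, ∀ y ∈ Y, h * y ∈ Y) (x : Row k Γ n) : resL H Y hY x = res Y x := rfl

/-- The coefficients on the coset `H r`. -/
noncomputable def cut (H : Subgroup Γ) (r : Γ) : MonoidAlgebra k Γ →+ MonoidAlgebra k H :=
  MonoidAlgebra.comapDomainAddMonoidHom (fun h : H => (h : Γ) * r)
    (fun a b hab => Subtype.ext (mul_right_cancel hab))

theorem cut_coeff (H : Subgroup Γ) (r : Γ) (w : MonoidAlgebra k Γ) (h : H) :
    (cut H r w).coeff h = w.coeff (h * r) := rfl

theorem cut_single_mul (H : Subgroup Γ) (r : Γ) (h : H) (c : k) (w : MonoidAlgebra k Γ) :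
    cut H r (MonoidAlgebra.single (h : Γ) c * w) = MonoidAlgebra.single h c * cut H r w := by
  ext h'
  rw [cut_coeff, MonoidAlgebra.coeff_single_mul_apply, MonoidAlgebra.coeff_single_mul_apply,
    cut_coeff, ← mul_assoc]
  rfl

theorem cut_single (H : Subgroup Γ) (r : Γ) (h : H) (c : k) :
    cut H r (MonoidAlgebra.single ((h : Γ) * r) c) = MonoidAlgebra.single h c := by
  classical
  ext h'
  rw [cut_coeff, MonoidAlgebra.coeff_single, MonoidAlgebra.coeff_single, Finsupp.single_apply,
    Finsupp.single_apply]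
  have : (h : Γ) * r = (h' : Γ) * r ↔ h = h' :=
    ⟨fun e => Subtype.ext (mul_right_cancel e), fun e => by rw [e]⟩
  simp only [this]

theorem cut_single_ne (H : Subgroup Γ) (r g : Γ) (c : k) (hg : ∀ h ∈ H, g ≠ h * r) :
    cut H r (MonoidAlgebra.single g c) = 0 := by
  classical
  ext h'
  rw [cut_coeff, MonoidAlgebra.coeff_single, Finsupp.single_apply,
    if_neg (fun e => hg h' h'.2 e)]
  rfl

/-- The cut map on row vectors. -/
noncomputable def cutRow {n : ℕ} (H : Subgroup Γ) (r : Γ) (i : Fin n) :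
    Row k Γ n →ₗ[MonoidAlgebra k H] MonoidAlgebra k H :=
  mkLin ((cut H r).comp (Pi.evalAddMonoidHom (fun _ : Fin n => MonoidAlgebra k Γ) i))
    (fun h c x => by
      show cut H r ((MonoidAlgebra.single h c • x : Row k Γ n) i) = _
      rw [single_smul_apply, cut_single_mul]; rfl)

theorem cutRow_apply {n : ℕ} (H : Subgroup Γ) (r : Γ) (i : Fin n) (x : Row k Γ n) :
    cutRow H r i x = cut H r (x i) := rfl

open Classical in
/-- A finite union of cosets gives a finitely generated free module. -/
theorem hasCl_res {n : ℕ} (H : Subgroup Γ) (Y : Set Γ) (hY : ∀ h ∈ H, ∀ y ∈ Y, h * y ∈ Y)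
    (F : Finset Γ) (hF : ∀ y ∈ Y, ∃ h ∈ H, ∃ f ∈ F, y = h * f) :
    ∃ c ∈ (K0.map (MonoidAlgebra.singleOneRingHom : k →+* MonoidAlgebra k H)).range,
      HasCl (resL (k := k) (n := n) H Y hY) c := by
  let Q := Quotient (QuotientGroup.rightRel H)
  let C := {q : Q // q.out ∈ Y}
  have hmk : ∀ (h : Γ), h ∈ H → ∀ (y : Γ), (Quotient.mk (QuotientGroup.rightRel H) (h * y) : Q) =
      Quotient.mk (QuotientGroup.rightRel H) y := by
    intro h hh y
    refine Quotient.sound ?_
    show QuotientGroup.rightRel H (h * y) y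
    rw [QuotientGroup.rightRel_apply]
    simpa using H.inv_mem hh
  have hout : ∀ g : Γ, ∃ h ∈ H, g = h * (Quotient.mk (QuotientGroup.rightRel H) g : Q).out := by
    intro g
    have h1 : (Quotient.mk (QuotientGroup.rightRel H)
        (Quotient.mk (QuotientGroup.rightRel H) g : Q).out : Q) =
        Quotient.mk (QuotientGroup.rightRel H) g := Quotient.out_eq _
    have h2 : QuotientGroup.rightRel H (Quotient.mk (QuotientGroup.rightRel H) g : Q).out g :=
      Quotient.exact h1
    rw [QuotientGroup.rightRel_apply] at h2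
    exact ⟨_, h2, by simp⟩
  have hfin : Finite C := by
    let φ : C → F := fun q => ⟨(hF _ q.2).choose_spec.2.choose,
      (hF _ q.2).choose_spec.2.choose_spec.1⟩
    have hφ : ∀ q : C, ∃ h ∈ H, q.1.out = h * (φ q : Γ) := fun q =>
      ⟨(hF _ q.2).choose, (hF _ q.2).choose_spec.1, (hF _ q.2).choose_spec.2.choose_spec.2⟩
    refine Finite.of_injective φ fun q q' hqq => ?_
    obtain ⟨h, hh, e1⟩ := hφ q
    obtain ⟨h', hh', e2⟩ := hφ q'
    have e3 : q.1 = Quotient.mk (QuotientGroup.rightRel H) (φ q : Γ) := by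
      rw [← hmk h hh, ← e1]
      exact (Quotient.out_eq _).symm
    have e4 : q'.1 = Quotient.mk (QuotientGroup.rightRel H) (φ q' : Γ) := by
      rw [← hmk h' hh', ← e2]
      exact (Quotient.out_eq _).symm
    exact Subtype.ext (by rw [e3, e4, hqq])
  have : Fintype C := Fintype.ofFinite C
  refine ⟨mcls (1 : Matrix (C × Fin n) (C × Fin n) (MonoidAlgebra k H)) (one_mul 1), ?_, ?_⟩
  · refine ⟨mcls (1 : Matrix (C × Fin n) (C × Fin n) k) (one_mul 1), ?_⟩
    rw [mcls_map]
    exact mcls_congr _ (Matrix.map_one _ (map_zero _) (map_one _))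
  refine HasCl.of_img (one_mul 1) ?_
  let a : Row k Γ n →ₗ[MonoidAlgebra k H] (C × Fin n → MonoidAlgebra k H) :=
    LinearMap.pi fun q => cutRow H q.1.1.out q.2
  let b : (C × Fin n → MonoidAlgebra k H) →ₗ[MonoidAlgebra k H] Row k Γ n :=
    Fintype.linearCombination (MonoidAlgebra k H) (fun q => (del q.1.1.out q.2 1 : Row k Γ n))
  have hb : ∀ q c, b (Pi.single q c) = c • (del q.1.1.out q.2 1 : Row k Γ n) := by
    intro q c
    show Fintype.linearCombination (MonoidAlgebra k H) _ _ = _
    rw [Fintype.linearCombination_apply_single]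
  have hbs : ∀ (q : C × Fin n) (h : H) (c : k), b (Pi.single q (MonoidAlgebra.single h c)) =
      (del (h * q.1.1.out) q.2 c : Row k Γ n) := by
    intro q h c
    rw [hb, smul_eq, smul_del, mul_one]
  have ha1 : ∀ (q : C) (i : Fin n) (h : H) (c : k),
      a (del (h * q.1.out) i c) = Pi.single (q, i) (MonoidAlgebra.single h c) := by
    intro q i h c
    funext q'
    show cut H q'.1.1.out ((del (h * q.1.out) i c : Row k Γ n) q'.2) = _
    by_cases hi : q'.2 = i
    · rw [hi, del_apply_self]
      by_cases hq : q'.1 = q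
      · have : q' = (q, i) := Prod.ext hq hi
        rw [this, Pi.single_eq_same, cut_single]
      · have hne : q' ≠ (q, i) := fun e => hq (by rw [e])
        rw [Pi.single_eq_of_ne hne, cut_single_ne]
        intro h' hh' e
        refine hq (Subtype.ext ?_)
        have e1 : (Quotient.mk (QuotientGroup.rightRel H) (h * q.1.out) : Q) = q.1 := by
          rw [hmk h h.2]
          exact Quotient.out_eq _
        have e2 : (Quotient.mk (QuotientGroup.rightRel H) (h' * q'.1.1.out) : Q) = q'.1.1 := by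
          rw [hmk h' hh']
          exact Quotient.out_eq _
        rw [← e2, ← e, e1]
    · have hne : q' ≠ (q, i) := fun e => hi (by rw [e])
      rw [Pi.single_eq_of_ne hne, del_apply_ne _ _ _ _ hi, map_zero]
  have ha2 : ∀ (g : Γ) (i : Fin n) (c : k), g ∉ Y → a (del g i c) = 0 := by
    intro g i c hg
    funext q'
    show cut H q'.1.1.out ((del g i c : Row k Γ n) q'.2) = 0
    by_cases hi : q'.2 = i
    · rw [hi, del_apply_self, cut_single_ne]
      rintro h hh rfl
      exact hg (hY h hh _ q'.1.2)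
    · rw [del_apply_ne _ _ _ _ hi, map_zero]
  have hrep : ∀ g ∈ Y, ∃ (q : C) (h : H), g = h * q.1.out := by
    intro g hg
    obtain ⟨h, hh, e⟩ := hout g
    refine ⟨⟨Quotient.mk (QuotientGroup.rightRel H) g, ?_⟩, ⟨h, hh⟩, e⟩
    have := hY _ (H.inv_mem hh) _ hg
    rwa [show h⁻¹ * g = (Quotient.mk (QuotientGroup.rightRel H) g : Q).out from by
      rw [inv_mul_eq_iff_eq_mul]; exact e] at this
  have hba : ∀ x, b (a x) = res Y x := by
    intro x
    have : (b.toAddMonoidHom.comp a.toAddMonoidHom) = res Y := by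
      refine row_hom_ext fun g i c => ?_
      show b (a (del g i c)) = _
      by_cases hg : g ∈ Y
      · rw [res_del_mem _ _ _ _ hg]
        obtain ⟨q, h, rfl⟩ := hrep g hg
        rw [ha1, hbs]
      · rw [res_del_notMem _ _ _ _ hg, ha2 g i c hg, map_zero]
    exact DFunLike.congr_fun this x
  have hab : ∀ q : C × Fin n, a (b (Pi.single q 1)) = Pi.single q 1 := by
    intro q
    rw [hb, one_smul]
    have := ha1 q.1 q.2 1 1
    rw [OneMemClass.coe_one, one_mul] at this
    exact this
  have hrr : ∀ x : Row k Γ n, res Y (res Y x) = res Y x := by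
    intro x
    rw [res_res, Set.inter_self]
  have hidem : a ∘ₗ b = LinearMap.id := by
    refine LinearMap.pi_ext' fun q => LinearMap.ext_ring ?_
    exact hab q
  refine ⟨a, b, LinearMap.ext hba, ?_, ?_, ?_⟩
  · rw [hidem]
    refine LinearMap.ext fun x => ?_
    exact (Matrix.vecMul_one x).symm
  · refine LinearMap.ext fun x => ?_
    show a (res Y x) = a x
    rw [← hba]
    exact LinearMap.congr_fun hidem (a x)
  · refine LinearMap.ext fun x => ?_
    show res Y (b x) = b x
    rw [← hba]
    exact congrArg b (LinearMap.congr_fun hidem x)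

/-- An operator which vanishes outside of finitely many cosets is supported on finitely many
cosets. -/
theorem exists_supp {n : ℕ} (A : Subgroup Γ) (D : Row k Γ n →+ Row k Γ n)
    (hD : ∀ a ∈ A, ∀ (c : k) (x : Row k Γ n),
      D ((MonoidAlgebra.single a c : MonoidAlgebra k Γ) • x) =
        (MonoidAlgebra.single a c : MonoidAlgebra k Γ) • D x)
    (F : Finset Γ) (h0 : ∀ g, (¬ ∃ a ∈ A, ∃ f ∈ F, g = a * f) → ∀ i c, D (del g i c) = 0) :
    ∃ F' : Finset Γ, ∀ Y : Set Γ, (∀ a ∈ A, ∀ f ∈ F', a * f ∈ Y) →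
      ∀ x, D (res Y x) = D x ∧ res Y (D x) = D x := by
  classical
  let F' : Finset Γ := F ∪ F.biUnion fun f => Finset.univ.biUnion fun i : Fin n =>
    Finset.univ.biUnion fun l : Fin n => ((D (del f i 1) : Row k Γ n) l).coeff.support
  refine ⟨F', fun Y hY x => ⟨?_, ?_⟩⟩
  · have : D.comp (res Y) = D := by
      refine row_hom_ext fun g i c => ?_
      show D (res Y (del g i c)) = _
      by_cases hg : g ∈ Y
      · rw [res_del_mem _ _ _ _ hg]
      · rw [res_del_notMem _ _ _ _ hg, map_zero, h0]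
        rintro ⟨a, ha, f, hf, rfl⟩
        exact hg (hY a ha f (Finset.mem_union_left _ hf))
    exact DFunLike.congr_fun this x
  · have : (res Y).comp D = D := by
      refine row_hom_ext fun g i c => ?_
      show res Y (D (del g i c)) = D (del g i c)
      by_cases hg : ∃ a ∈ A, ∃ f ∈ F, g = a * f
      · obtain ⟨a, ha, f, hf, rfl⟩ := hg
        have e1 : (del (a * f) i c : Row k Γ n) =
            (MonoidAlgebra.single a c : MonoidAlgebra k Γ) • del f i 1 := by
          rw [smul_del, mul_one]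
        rw [e1, hD a ha, res_smul]
        congr 1
        funext l
        rw [res_apply]
        ext h
        by_cases hh : h ∈ pre a Y
        · rw [resA_coeff_mem _ _ _ hh]
        · rw [resA_coeff_notMem _ _ _ hh]
          by_contra hc
          refine hh (hY a ha h (Finset.mem_union_right _ ?_))
          refine Finset.mem_biUnion.2 ⟨f, hf, Finset.mem_biUnion.2 ⟨i, Finset.mem_univ i,
            Finset.mem_biUnion.2 ⟨l, Finset.mem_univ l, ?_⟩⟩⟩
          rw [Finsupp.mem_support_iff]
          exact fun e => hc e.symm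
      · rw [h0 g hg, map_zero]
    exact DFunLike.congr_fun this x

end

end Pool.Agent.NegK.H91
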