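import Pool.Agent.Lib.MP_28303a_al.NK.H91.Kar

/-! # Induced idempotent operators -/

set_option autoImplicit false

namespace Pool.Agent.NegK.H91

universe u v w

open Matrix

section

variable {k : Type u} [Ring k]

/-- An additive map commuting with monomials is linear over the group ring. -/
def mkLin {H : Type} [Group H] {X : Type v} {Z : Type w} [AddCommGroup X]
    [Module (MonoidAlgebra k H) X] [AddCommGroup Z] [Module (MonoidAlgebra k H) Z] (f : X →+ Z)
    (hf : ∀ (h : H) (c : k) (x : X), f (MonoidAlgebra.single h c • x) =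
      MonoidAlgebra.single h c • f x) : X →ₗ[MonoidAlgebra k H] Z where
  toFun := f
  map_add' := f.map_add
  map_smul' c x := by
    induction c using MonoidAlgebra.induction_linear with
    | zero => simp
    | add c d hc hd => rw [add_smul, map_add, hc, hd]; simp only [RingHom.id_apply, add_smul]
    | single h c => exact hf h c x

@[simp] theorem mkLin_apply {H : Type} [Group H] {X : Type v} {Z : Type w} [AddCommGroup X]
    [Module (MonoidAlgebra k H) X] [AddCommGroup Z] [Module (MonoidAlgebra k H) Z] (f : X →+ Z)
    (hf : ∀ (h : H) (c : k) (x : X), f (MonoidAlgebra.single h c • x) =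
      MonoidAlgebra.single h c • f x) (x : X) : mkLin f hf x = f x := rfl

variable {A G : Type} [Group A] [Group G] (ι : A →* G)
  {X : Type w} [AddCommGroup X] [Module (MonoidAlgebra k G) X] [Module (MonoidAlgebra k A) X]

/-- The inclusion of group rings. -/
noncomputable abbrev inc (k : Type u) [Ring k] {A G : Type} [Group A] [Group G] (ι : A →* G) :
    MonoidAlgebra k A →+* MonoidAlgebra k G := MonoidAlgebra.mapDomainRingHom k ι

theorem inc_single (a : A) (c : k) :
    inc k ι (MonoidAlgebra.single a c) = MonoidAlgebra.single (ι a) c :=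
  MonoidAlgebra.mapDomain_single

variable (f : X →ₗ[MonoidAlgebra k A] MonoidAlgebra k A)

/-- The coefficient function of the induced functional. -/
noncomputable def indCoeff (x : X) (g : G) : k :=
  (f (MonoidAlgebra.single g⁻¹ (1 : k) • x)).coeff 1

omit [Module (MonoidAlgebra k A) X] in
theorem single_smul_single (g h : G) (c : k) (x : X) :
    MonoidAlgebra.single g (1 : k) • MonoidAlgebra.single h c • x =
      MonoidAlgebra.single (1 : G) c • MonoidAlgebra.single (g * h) (1 : k) • x := by
  rw [smul_smul, smul_smul, MonoidAlgebra.single_mul_single, MonoidAlgebra.single_mul_single]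
  simp

variable (compat : ∀ (c : MonoidAlgebra k A) (x : X), c • x = (inc k ι c) • x)

include compat in
theorem indCoeff_smul (h : G) (c : k) (x : X) (g : G) :
    indCoeff f (MonoidAlgebra.single h c • x) g = c * indCoeff f x (h⁻¹ * g) := by
  unfold indCoeff
  rw [single_smul_single]
  have h1 : MonoidAlgebra.single (1 : G) c • MonoidAlgebra.single (g⁻¹ * h) (1 : k) • x =
      MonoidAlgebra.single (1 : A) c • MonoidAlgebra.single (g⁻¹ * h) (1 : k) • x := by
    rw [compat, inc_single, map_one]
  rw [h1, map_smul, smul_eq_mul, MonoidAlgebra.coeff_single_mul_apply]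
  simp [_root_.mul_inv_rev]

theorem indCoeff_add (x y : X) (g : G) :
    indCoeff f (x + y) g = indCoeff f x g + indCoeff f y g := by
  unfold indCoeff
  rw [smul_add, map_add]; rfl

theorem indCoeff_zero (g : G) : indCoeff f (0 : X) g = 0 := by
  unfold indCoeff
  rw [smul_zero, map_zero]; rfl

theorem indCoeff_neg (x : X) (g : G) : indCoeff f (-x) g = -indCoeff f x g := by
  unfold indCoeff
  rw [smul_neg, map_neg]; rfl

variable (hfin : ∀ x : X, {g : G | indCoeff f x g ≠ 0}.Finite)

/-- The induced functional. -/
noncomputable def indFun (compat : ∀ (c : MonoidAlgebra k A) (x : X), c • x = (inc k ι c) • x)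
    (hfin : ∀ x : X, {g : G | indCoeff f x g ≠ 0}.Finite) :
    X →ₗ[MonoidAlgebra k G] MonoidAlgebra k G :=
  mkLin
    { toFun := fun x => MonoidAlgebra.ofCoeff (Finsupp.ofSupportFinite (indCoeff f x) (hfin x))
      map_zero' := by
        ext g
        exact indCoeff_zero f g
      map_add' := fun x y => by
        ext g
        exact indCoeff_add f x y g }
    (fun h c x => by
      ext g
      rw [smul_eq_mul, MonoidAlgebra.coeff_single_mul_apply]
      exact indCoeff_smul ι f compat h c x g)

theorem indFun_coeff (x : X) (g : G) :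
    (indFun ι f compat hfin x).coeff g = indCoeff f x g := rfl

include compat in
theorem indCoeff_range (x : X) (a : A) : indCoeff f x (ι a) = (f x).coeff a := by
  unfold indCoeff
  have h1 : MonoidAlgebra.single (ι a)⁻¹ (1 : k) • x =
      MonoidAlgebra.single a⁻¹ (1 : k) • x := by
    rw [compat, inc_single, map_inv]
  rw [h1, map_smul, smul_eq_mul, MonoidAlgebra.coeff_single_mul_apply]
  simp

include compat in
theorem indFun_eq (hι : Function.Injective ι) (x : X)
    (h : ∀ g ∉ Set.range ι, indCoeff f x g = 0) :
    indFun ι f compat hfin x = inc k ι (f x) := by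
  ext g
  rw [indFun_coeff]
  show _ = (Finsupp.mapDomain ι (f x).coeff) g
  by_cases hg : g ∈ Set.range ι
  · obtain ⟨a, rfl⟩ := hg
    rw [Finsupp.mapDomain_apply hι, indCoeff_range ι f compat]
  · rw [h g hg, Finsupp.mapDomain_of_notMem_range _ _ hg]

/-- INDUCED. -/
theorem induced (compat : ∀ (c : MonoidAlgebra k A) (x : X), c • x = (inc k ι c) • x)
    (hι : Function.Injective ι) {n : ℕ} (q : Matrix (Fin n) (Fin n) (MonoidAlgebra k A))
    (σ : X →ₗ[MonoidAlgebra k A] X) (σG : X →ₗ[MonoidAlgebra k G] X) (h : Img q σ)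
    (h1 : ∀ x, σ (σG x) = σ x) (h2 : ∀ x, σG (σ x) = σ x)
    (h3 : ∀ g ∉ Set.range ι, ∀ x, σ (MonoidAlgebra.single g (1 : k) • σ x) = 0)
    (h4 : ∀ x, σG x ∈ AddSubgroup.closure
      {y | ∃ (g : G) (z : X), y = MonoidAlgebra.single g (1 : k) • σ z}) :
    Img (q.map (inc k ι)) σG := by
  obtain ⟨a, b, k1, k2, k3, k4⟩ := h
  let f : Fin n → X →ₗ[MonoidAlgebra k A] MonoidAlgebra k A := fun i => LinearMap.proj i ∘ₗ a
  have hfσ : ∀ i x, f i (σ x) = f i x := fun i x => congrFun (LinearMap.congr_fun k3 x) i
  -- vanishing on `x - σG x`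
  have hv : ∀ i (x : X) (g : G), indCoeff (f i) (x - σG x) g = 0 := by
    intro i x g
    unfold indCoeff
    rw [← hfσ, smul_sub, ← map_smul, map_sub, h1, sub_self, map_zero]; rfl
  have hv2 : ∀ i (x : X) (g : G), g ∉ Set.range ι → indCoeff (f i) (σ x) g = 0 := by
    intro i x g hg
    unfold indCoeff
    have hg' : g⁻¹ ∉ Set.range ι := by
      rintro ⟨a, ha⟩
      exact hg ⟨a⁻¹, by rw [map_inv, ha, inv_inv]⟩
    rw [← hfσ, h3 _ hg', map_zero]; rfl
  have hfin : ∀ i (x : X), {g : G | indCoeff (f i) x g ≠ 0}.Finite := by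
    intro i x
    let S : AddSubgroup X :=
      { carrier := {x | {g : G | indCoeff (f i) x g ≠ 0}.Finite}
        zero_mem' := by
          show {g : G | indCoeff (f i) (0 : X) g ≠ 0}.Finite
          simp [indCoeff_zero]
        add_mem' := by
          intro x y hx hy
          refine (hx.union hy).subset fun g hg => ?_
          by_contra hc
          rw [Set.mem_union, not_or] at hc
          have e1 : indCoeff (f i) x g = 0 := by
            by_contra h
            exact hc.1 h
          have e2 : indCoeff (f i) y g = 0 := by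
            by_contra h
            exact hc.2 h
          exact hg (by rw [indCoeff_add, e1, e2, add_zero])
        neg_mem' := by
          intro x hx
          refine hx.subset fun g hg => ?_
          intro hc
          exact hg (by rw [indCoeff_neg, hc, neg_zero]) }
    have m1 : ∀ x, x - σG x ∈ S := by
      intro x
      show {g : G | indCoeff (f i) (x - σG x) g ≠ 0}.Finite
      simp [hv]
    have m2 : ∀ (g : G) (z : X), MonoidAlgebra.single g (1 : k) • σ z ∈ S := by
      intro r z
      show {g : G | indCoeff (f i) (MonoidAlgebra.single r (1 : k) • σ z) g ≠ 0}.Finite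
      have hz : {g : G | indCoeff (f i) (σ z) g ≠ 0}.Finite := by
        refine (((f i (σ z)).coeff.support.finite_toSet).image ι).subset fun g hg => ?_
        by_cases hr : g ∈ Set.range ι
        · obtain ⟨a, rfl⟩ := hr
          refine ⟨a, ?_, rfl⟩
          rw [Finset.mem_coe, Finsupp.mem_support_iff]
          intro hc
          exact hg (by rw [indCoeff_range ι (f i) compat, hc])
        · exact absurd (hv2 i z g hr) hg
      refine (hz.image (fun g => r * g)).subset fun g hg => ?_
      refine ⟨r⁻¹ * g, ?_, mul_inv_cancel_left r g⟩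
      intro hc
      exact hg (by rw [indCoeff_smul ι (f i) compat, hc, mul_zero])
    have m3 : ∀ x, σG x ∈ S := by
      intro x
      refine (AddSubgroup.closure_le S).2 ?_ (h4 x)
      rintro y ⟨g, z, rfl⟩
      exact m2 g z
    have m4 : x ∈ S := by
      have := S.add_mem (m1 x) (m3 x)
      rwa [sub_add_cancel] at this
    exact m4
  let a' : X →ₗ[MonoidAlgebra k G] (Fin n → MonoidAlgebra k G) :=
    LinearMap.pi fun i => indFun ι (f i) compat (hfin i)
  let b' : (Fin n → MonoidAlgebra k G) →ₗ[MonoidAlgebra k G] X :=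
    Fintype.linearCombination (MonoidAlgebra k G) (fun i => b (Pi.single i 1))
  have ha1 : ∀ x, a' (x - σG x) = 0 := by
    intro x
    funext i
    ext g
    exact hv i x g
  have ha2 : ∀ x i, a' (σ x) i = inc k ι (a (σ x) i) := by
    intro x i
    exact indFun_eq ι (f i) compat (hfin i) hι (σ x) (hv2 i x)
  have hb : ∀ w : Fin n → MonoidAlgebra k A, b w = b' (fun i => inc k ι (w i)) := by
    intro w
    show _ = Fintype.linearCombination (MonoidAlgebra k G) _ _
    rw [Fintype.linearCombination_apply]
    have hw : w = ∑ i, w i • (Pi.single i (1 : MonoidAlgebra k A) :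
        Fin n → MonoidAlgebra k A) := by
      funext j
      rw [Finset.sum_apply]
      simp [Pi.single_apply]
    conv_lhs => rw [hw]
    rw [_root_.map_sum]
    refine Finset.sum_congr rfl fun i _ => ?_
    rw [map_smul, compat]
  have hba : ∀ x, b' (a' (σ x)) = σ x := by
    intro x
    have e1 : a' (σ x) = fun i => inc k ι (a (σ x) i) := funext (ha2 x)
    rw [e1, ← hb]
    have e2 : a (σ x) = a x := LinearMap.congr_fun k3 x
    rw [e2]
    exact LinearMap.congr_fun k1 x
  have hcl : ∀ y ∈ AddSubgroup.closure
      {y | ∃ (g : G) (z : X), y = MonoidAlgebra.single g (1 : k) • σ z}, b' (a' y) = y := by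
    intro y hy
    induction hy using AddSubgroup.closure_induction with
    | mem y h =>
      obtain ⟨g, z, rfl⟩ := h
      rw [map_smul, map_smul, hba]
    | zero => rw [map_zero, map_zero]
    | add y z _ _ hy hz => rw [map_add, map_add, hy, hz]
    | neg y _ hy => rw [map_neg, map_neg, hy]
  have ha3 : ∀ x, a' x = a' (σG x) := by
    intro x
    have := ha1 x
    rwa [map_sub, sub_eq_zero] at this
  refine ⟨a', b', ?_, ?_, ?_, ?_⟩
  · refine LinearMap.ext fun x => ?_
    show b' (a' x) = σG x
    rw [ha3, hcl _ (h4 x)]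
  · refine LinearMap.pi_ext' fun i => LinearMap.ext_ring ?_
    show a' (b' (Pi.single i 1)) = (Pi.single i 1 : Fin n → MonoidAlgebra k G) ᵥ* _
    have e1 : b' (Pi.single i 1) = b (Pi.single i 1) := by
      show Fintype.linearCombination (MonoidAlgebra k G) _ _ = _
      rw [Fintype.linearCombination_apply_single, one_smul]
    have e2 : b (Pi.single i 1) = σ (b (Pi.single i 1)) := (LinearMap.congr_fun k4 _).symm
    funext j
    rw [e1, e2, ha2, ← e2, Matrix.single_one_vecMul]
    have e3 : a (b (Pi.single i 1)) = (Pi.single i 1 : Fin n → MonoidAlgebra k A) ᵥ* q :=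
      LinearMap.congr_fun k2 _
    rw [e3, Matrix.single_one_vecMul]
    rfl
  · refine LinearMap.ext fun x => ?_
    exact (ha3 x).symm
  · refine LinearMap.pi_ext' fun i => LinearMap.ext_ring ?_
    show σG (b' (Pi.single i 1)) = b' (Pi.single i 1)
    have e1 : b' (Pi.single i 1) = b (Pi.single i 1) := by
      show Fintype.linearCombination (MonoidAlgebra k G) _ _ = _
      rw [Fintype.linearCombination_apply_single, one_smul]
    have e2 : b (Pi.single i 1) = σ (b (Pi.single i 1)) := (LinearMap.congr_fun k4 _).symm
    rw [e1, e2, h2]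

/-- The class of an induced operator. -/
theorem HasCl.induced (compat : ∀ (c : MonoidAlgebra k A) (x : X), c • x = (inc k ι c) • x)
    (hι : Function.Injective ι) {c : K0 (MonoidAlgebra k A)}
    (σ : X →ₗ[MonoidAlgebra k A] X) (σG : X →ₗ[MonoidAlgebra k G] X) (h : HasCl σ c)
    (h1 : ∀ x, σ (σG x) = σ x) (h2 : ∀ x, σG (σ x) = σ x)
    (h3 : ∀ g ∉ Set.range ι, ∀ x, σ (MonoidAlgebra.single g (1 : k) • σ x) = 0)
    (h4 : ∀ x, σG x ∈ AddSubgroup.closure
      {y | ∃ (g : G) (z : X), y = MonoidAlgebra.single g (1 : k) • σ z}) :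
    HasCl σG (K0.map (inc k ι) c) := by
  obtain ⟨n, e, he, hI, rfl⟩ := h
  rw [mcls_map]
  exact HasCl.of_img _ (H91.induced ι compat hι e σ σG hI h1 h2 h3 h4)

end

end Pool.Agent.NegK.H91
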