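import Pool.Agent.Lib.MP_28303a_al.NK.H91.KTr

/-! # Finitely generated submodules of free modules over the group ring of a free group -/

set_option autoImplicit false
set_option linter.unusedSectionVars false

namespace Pool.Agent.NegK.H91

open MonoidAlgebra (single)

universe u

section

variable {E F : Type} [Group E] [Group F] (D : Split E F) (S : Type u) [Ring S]

/-- A module over the group ring, as a module over the group ring of the kernel. -/
def Res {E F : Type} [Group E] [Group F] (_D : Split E F) (_S : Type u) (P : Type u) : Type u := P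

noncomputable instance (P : Type u) [AddCommGroup P] : AddCommGroup (Res D S P) :=
  inferInstanceAs (AddCommGroup P)

noncomputable instance (P : Type u) [AddCommGroup P] [Module (MonoidAlgebra S E) P] :
    Module (MonoidAlgebra S E) (Res D S P) :=
  inferInstanceAs (Module (MonoidAlgebra S E) P)

noncomputable instance (P : Type u) [AddCommGroup P] [Module (MonoidAlgebra S E) P] :
    Module (MonoidAlgebra S D.Y) (Res D S P) :=
  Module.compHom P (kinc D S)

instance (P : Type u) [AddCommGroup P] [Module (MonoidAlgebra S E) P] :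
    ResMod D S (Res D S P) := ⟨fun _ _ => rfl⟩

end

section

variable {E F : Type} [Group E] [Group F] {D : Split E F} {S : Type u} [Ring S]
  {P : Type u} [AddCommGroup P] [Module (MonoidAlgebra S E) P] [Module (MonoidAlgebra S D.Y) P]
  [ResMod D S P]

theorem supp_eq {M : Type u} [AddCommGroup M] [Module (MonoidAlgebra S D.Y) M]
    (z : KInd D S M) : z = ∑ g ∈ Finsupp.support (z : F →₀ M),
      KInd.sg S (D.s g) (KInd.coef g z) := by
  have h1 : ∀ g ∈ Finsupp.support (z : F →₀ M), (KInd.sg S (D.s g) (KInd.coef g z) : KInd D S M) =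
      (Finsupp.single g (Finsupp.applyAddHom g (z : F →₀ M)) : F →₀ M) := fun g _ => KInd.sg_s g _
  rw [Finset.sum_congr rfl h1]
  exact (Finsupp.sum_single (z : F →₀ M)).symm

/-- Elements with coefficients in the range come from the range. -/
theorem exists_map_eq {M N : Type u} [AddCommGroup M] [Module (MonoidAlgebra S D.Y) M]
    [AddCommGroup N] [Module (MonoidAlgebra S D.Y) N] (f : M →ₗ[MonoidAlgebra S D.Y] N)
    (z : KInd D S N) (h : ∀ g, ∃ m, f m = KInd.coef g z) : ∃ y, KInd.map f y = z := by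
  choose m hm using h
  refine ⟨∑ g ∈ Finsupp.support (z : F →₀ N), KInd.sg S (D.s g) (m g), ?_⟩
  rw [map_sum]
  conv_rhs => rw [supp_eq z]
  refine Finset.sum_congr rfl fun g _ => ?_
  rw [KInd.map_sg, hm]

/-- A submodule over the big ring as a submodule over the small ring. -/
def rs (D : Split E F) [Module (MonoidAlgebra S D.Y) P] [ResMod D S P]
    (W : Submodule (MonoidAlgebra S E) P) : Submodule (MonoidAlgebra S D.Y) P where
  carrier := W
  add_mem' := W.add_mem
  zero_mem' := W.zero_mem
  smul_mem' := by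
    intro a p hp
    rw [ResMod.compat (D := D) (S := S)]
    exact W.smul_mem _ hp

theorem mem_rs (W : Submodule (MonoidAlgebra S E) P) (p : P) : p ∈ rs D W ↔ p ∈ W := Iff.rfl

theorem ga_mem (W : Submodule (MonoidAlgebra S E) P) (g : E) {p : P} (h : p ∈ W) :
    ga S P g p ∈ W := W.smul_mem _ h

theorem ga_mem_iff (W : Submodule (MonoidAlgebra S E) P) (g : E) {p : P} :
    ga S P g p ∈ W ↔ p ∈ W :=
  ⟨fun h => by
    have h1 := ga_mem W g⁻¹ h
    rwa [ga_inv_mul] at h1, ga_mem W g⟩

theorem eps_map {V V' : Submodule (MonoidAlgebra S D.Y) P} (h : V ≤ V') (z : KInd D S V) :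
    eps V' (KInd.map (Submodule.inclusion h) z) = eps V z := by
  have h1 : (eps V') ∘ₗ (KInd.map (Submodule.inclusion h)) = eps V := by
    refine KInd.hom_ext fun v => ?_
    rw [LinearMap.comp_apply, KInd.map_sg, eps_sg, eps_sg]
    rfl
  exact LinearMap.congr_fun h1 z

variable {k : ℕ} (ξ : FreeGroup (Fin k) →* E)

theorem QQ_mono {V V' : Submodule (MonoidAlgebra S D.Y) P} (h : V ≤ V') : QQ ξ V ≤ QQ ξ V' := by
  intro p hp
  rw [mem_QQ] at hp ⊢
  exact fun j => ⟨h (hp j).1, h (hp j).2⟩

theorem theta_map {V V' : Submodule (MonoidAlgebra S D.Y) P} (h : V ≤ V')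
    (z : KInd D S (QQ ξ V)) :
    theta ξ V' (KInd.map (Submodule.inclusion (QQ_mono ξ h)) z) =
      KInd.map (Submodule.inclusion h) (theta ξ V z) := by
  have h1 : (theta ξ V') ∘ₗ (KInd.map (Submodule.inclusion (QQ_mono ξ h))) =
      (KInd.map (Submodule.inclusion h)) ∘ₗ (theta ξ V) := by
    refine KInd.hom_ext fun v => ?_
    rw [LinearMap.comp_apply, LinearMap.comp_apply, KInd.map_sg, theta_sg, theta_sg, map_sum]
    refine Finset.sum_congr rfl fun j _ => ?_
    rw [map_sub, KInd.map_sg, KInd.map_sg]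
    rfl
  exact LinearMap.congr_fun h1 z

/-- Exactness for the intersection with a submodule over the big ring. -/
theorem ker_eps_inf (hC : Count D ξ) (L : Submodule (MonoidAlgebra S D.Y) P)
    (hL : LinearMap.ker (eps L) ≤ LinearMap.range (theta ξ L))
    (W : Submodule (MonoidAlgebra S E) P) :
    LinearMap.ker (eps (rs D W ⊓ L)) ≤ LinearMap.range (theta ξ (rs D W ⊓ L)) := by
  intro z hz
  have hz' : eps (rs D W ⊓ L) z = 0 := hz
  have hle : rs D W ⊓ L ≤ L := inf_le_right
  have h1 : KInd.map (Submodule.inclusion hle) z ∈ LinearMap.ker (eps L) := by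
    rw [LinearMap.mem_ker, eps_map, hz']
  obtain ⟨y, hy⟩ := hL h1
  have h2 : ∀ (h : F) (j : Fin k), (((KInd.coef h y : QQ ξ L) : Fin k → P) j) ∈ W := by
    intro h j
    obtain ⟨c, hc⟩ := hC h j
    have h3 := TT_theta ξ hc y
    have h4 : ∀ x : KInd D S ↥(rs D W ⊓ L),
        TT L c (KInd.map (Submodule.inclusion hle) x) ∈ W := by
      intro x
      induction x using KInd.induction with
      | h0 => rw [map_zero, map_zero]; exact W.zero_mem
      | hadd a b ha hb => rw [map_add, map_add]; exact W.add_mem ha hb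
      | hs g v =>
        rw [KInd.map_sg, TT_sg]
        have h5 : ((Submodule.inclusion hle v : L) : P) ∈ W := v.2.1
        exact zsmul_mem (ga_mem W _ h5) _
    rw [hy] at h3
    have h6 := h4 z
    rw [h3] at h6
    exact (ga_mem_iff W _).1 (by simpa using W.neg_mem h6)
  have h7 : ∀ g, ∃ m, (Submodule.inclusion (QQ_mono ξ hle)) m = KInd.coef g y := by
    intro g
    refine ⟨⟨((KInd.coef g y : QQ ξ L) : Fin k → P), ?_⟩, rfl⟩
    rw [mem_QQ]
    intro j
    have h8 := ((mem_QQ ξ L _).1 (KInd.coef g y).2 j)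
    exact ⟨⟨h2 g j, h8.1⟩, ⟨ga_mem W _ (h2 g j), h8.2⟩⟩
  obtain ⟨y', hy'⟩ := exists_map_eq _ y h7
  refine ⟨y', ?_⟩
  have h9 : KInd.map (Submodule.inclusion hle) (theta ξ (rs D W ⊓ L) y') =
      KInd.map (Submodule.inclusion hle) z := by
    rw [← theta_map ξ hle, hy', hy]
  exact KInd.map_injective (Submodule.inclusion_injective hle) h9

theorem QQ_finite [IsNoetherianRing (MonoidAlgebra S D.Y)]
    {V : Submodule (MonoidAlgebra S D.Y) P} (h : V.FG) :
    Module.Finite (MonoidAlgebra S D.Y) (QQ ξ V) := by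
  have hVfin : Module.Finite (MonoidAlgebra S D.Y) V := Module.Finite.iff_fg.2 h
  have hVno : IsNoetherian (MonoidAlgebra S D.Y) V :=
    isNoetherian_of_isNoetherianRing_of_finite _ V
  have h2 : Function.Injective (LinearMap.pi (fun j => qa ξ V j)) := by
    intro a b hab
    refine Subtype.ext (funext fun j => ?_)
    exact congrArg Subtype.val (congrFun hab j)
  have h3 : IsNoetherian (MonoidAlgebra S D.Y) (QQ ξ V) := isNoetherian_of_injective _ h2
  infer_instance

/-- Resolutions from an exact star. -/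
theorem res_of_exact (hS : RegularRing (MonoidAlgebra S D.Y)) (hC : Count D ξ)
    (V : Submodule (MonoidAlgebra S D.Y) P) (hV : V.FG)
    (hker : LinearMap.ker (eps V) ≤ LinearMap.range (theta ξ V))
    (W : Submodule (MonoidAlgebra S E) P) (hW : LinearMap.range (eps V) = W) :
    ∃ m, HasFPRes (MonoidAlgebra S E) m W := by
  have : IsNoetherianRing (MonoidAlgebra S D.Y) := hS.1
  obtain ⟨a, ha⟩ := hS.2 V (Module.Finite.iff_fg.2 hV)
  obtain ⟨b, hb⟩ := hS.2 (QQ ξ V) (QQ_finite ξ hV)
  let f : KInd D S V →ₗ[MonoidAlgebra S E] W :=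
    LinearMap.codRestrict W (eps V) (fun z => hW ▸ LinearMap.mem_range_self _ z)
  refine H50.ext (MonoidAlgebra S E) (KInd D S (QQ ξ V)) (KInd D S V) W (theta ξ V) f
    (theta_injective ξ hC V) ?_ ?_ ⟨b, hasFPRes_kind hb⟩ ⟨a, hasFPRes_kind ha⟩
  · rintro ⟨w, hw⟩
    rw [← hW] at hw
    obtain ⟨z, hz⟩ := hw
    exact ⟨z, Subtype.ext hz⟩
  · have h1 : LinearMap.ker f = LinearMap.ker (eps V) := LinearMap.ker_codRestrict _ _ _
    rw [h1]
    exact le_antisymm (range_theta_le ξ V) hker

end

section

variable {E F : Type} [Group E] [Group F] {D : Split E F} {S : Type u} [Ring S]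

/-- The free module. -/
abbrev FM (D : Split E F) (S : Type u) [Ring S] (n : ℕ) : Type u :=
  Res D S (Fin n → MonoidAlgebra S E)

/-- The standard basis. -/
noncomputable def bas (D : Split E F) (S : Type u) [Ring S] (n : ℕ) (i : Fin n) : FM D S n :=
  (Pi.single i (1 : MonoidAlgebra S E) : Fin n → MonoidAlgebra S E)

/-- The span of the standard basis over the small ring. -/
noncomputable def L0 (D : Split E F) (S : Type u) [Ring S] (n : ℕ) :
    Submodule (MonoidAlgebra S D.Y) (FM D S n) :=
  Submodule.span _ (Set.range (bas D S n))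

theorem L0_fg (n : ℕ) : (L0 D S n).FG := Submodule.fg_span (Set.finite_range _)

theorem kinc_coeff (a : MonoidAlgebra S D.Y) (e : E) (he : D.π e ≠ 1) :
    (kinc D S a).coeff e = 0 := by
  induction a using MonoidAlgebra.induction_linear with
  | zero => rw [map_zero]; rfl
  | add x y hx hy =>
    rw [map_add, MonoidAlgebra.coeff_add, Finsupp.add_apply, hx, hy, add_zero]
  | single y c =>
    rw [kinc_single]
    have h1 : D.π (y : E) = 1 := y.2
    have h2 : (y : E) ≠ e := fun h3 => he (h3 ▸ h1)
    exact Finsupp.single_eq_of_ne' h2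

theorem L0_coeff (n : ℕ) {v : FM D S n} (hv : v ∈ L0 D S n) (i : Fin n) (e : E)
    (he : D.π e ≠ 1) : ((v : Fin n → MonoidAlgebra S E) i).coeff e = 0 := by
  have h1 : ∀ v ∈ L0 D S n, ∃ a : Fin n → MonoidAlgebra S D.Y,
      ∀ i, (v : Fin n → MonoidAlgebra S E) i = kinc D S (a i) := by
    intro v hv
    refine Submodule.span_induction ?_ ?_ ?_ ?_ hv
    · rintro _ ⟨j, rfl⟩
      refine ⟨Pi.single j 1, fun i => ?_⟩
      show (Pi.single j (1 : MonoidAlgebra S E) : Fin n → MonoidAlgebra S E) i = _
      by_cases h : i = j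
      · subst h
        rw [Pi.single_eq_same, Pi.single_eq_same, map_one]
      · rw [Pi.single_eq_of_ne h, Pi.single_eq_of_ne h, map_zero]
    · exact ⟨0, fun i => by rw [Pi.zero_apply, map_zero]; rfl⟩
    · rintro x y _ _ ⟨a, ha⟩ ⟨b, hb⟩
      exact ⟨a + b, fun i => by rw [Pi.add_apply, map_add, ← ha, ← hb]; rfl⟩
    · rintro c x _ ⟨a, ha⟩
      exact ⟨fun i => c * a i, fun i => by rw [map_mul, ← ha]; rfl⟩
  obtain ⟨a, ha⟩ := h1 v hv
  rw [ha]
  exact kinc_coeff _ _ he

/-- The coordinates of a vector. -/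
def co {n : ℕ} (v : FM D S n) (i : Fin n) (e : E) : S :=
  ((v : Fin n → MonoidAlgebra S E) i).coeff e

theorem co_add {n : ℕ} (v w : FM D S n) (i : Fin n) (e : E) :
    co (v + w) i e = co v i e + co w i e := rfl

theorem co_zero {n : ℕ} (i : Fin n) (e : E) : co (0 : FM D S n) i e = 0 := rfl

theorem co_ga {n : ℕ} (v : FM D S n) (i : Fin n) (g e : E) :
    co (ga S (FM D S n) g v) i e = co v i (g⁻¹ * e) := by
  have h1 : ((ga S (FM D S n) g v : Fin n → MonoidAlgebra S E) i) =
      single g 1 * (v : Fin n → MonoidAlgebra S E) i := rfl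
  unfold co
  rw [h1, MonoidAlgebra.coeff_single_mul_apply, one_mul]

theorem co_ext {n : ℕ} {v w : FM D S n} (h : ∀ i e, co v i e = co w i e) : v = w :=
  funext fun i => MonoidAlgebra.ext (Finsupp.ext fun e => h i e)

theorem eps_coeff (n : ℕ) (z : KInd D S (L0 D S n)) (w : F) (i : Fin n) (y : E)
    (hy : D.π y = 1) :
    co (eps (L0 D S n) z) i (D.s w * y) = co ((KInd.coef w z : L0 D S n) : FM D S n) i y := by
  classical
  induction z using KInd.induction with
  | h0 =>
    rw [map_zero, map_zero]; rfl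
  | hadd a b ha hb =>
    rw [map_add, map_add, Submodule.coe_add, co_add, co_add, ha, hb]
  | hs g v =>
    rw [eps_sg, KInd.coef_sg, co_ga, ← mul_assoc]
    by_cases h : g = w
    · subst h
      rw [if_pos rfl, inv_mul_cancel, one_mul]
    · rw [if_neg h, Submodule.coe_zero, co_zero]
      refine L0_coeff n v.2 i _ ?_
      rw [map_mul, map_mul, map_inv, D.hs, D.hs, hy, mul_one]
      intro h3
      exact h (inv_mul_eq_one.1 h3)

theorem eps_L0_injective (n : ℕ) (z : KInd D S (L0 D S n)) (hz : eps (L0 D S n) z = 0) :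
    z = 0 := by
  refine KInd.ext_coef fun w => ?_
  rw [map_zero]
  refine Subtype.ext (co_ext fun i y => ?_)
  rw [Submodule.coe_zero, co_zero]
  by_cases hy : D.π y = 1
  · rw [← eps_coeff n z w i y hy, hz, co_zero]
  · exact L0_coeff n (KInd.coef w z).2 i y hy

/-- Exactness for the submodules of the filtration of a free module. -/
theorem ker_eps_VV {k : ℕ} (ξ : FreeGroup (Fin k) →* E) (n N : ℕ) :
    LinearMap.ker (eps (VV ξ (L0 D S n) N)) ≤ LinearMap.range (theta ξ (VV ξ (L0 D S n) N)) := by
  refine ker_eps_le ξ (L0 D S n) N fun z hz => ?_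
  rw [eps_L0_injective n z hz, map_zero]
  exact Submodule.zero_mem _

/-- Vectors supported on the image of `ξ` lie in the filtration. -/
theorem mem_VV_single {k : ℕ} (ξ : FreeGroup (Fin k) →* E) (n : ℕ) (i : Fin n)
    (f : MonoidAlgebra S (FreeGroup (Fin k))) :
    ∃ N, (Pi.single i (MonoidAlgebra.mapDomainRingHom S ξ f) : Fin n → MonoidAlgebra S E) ∈
      (VV ξ (L0 D S n) N : Set (FM D S n)) := by
  induction f using MonoidAlgebra.induction_linear with
  | zero =>
    refine ⟨0, ?_⟩
    rw [map_zero, Pi.single_zero]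
    exact Submodule.zero_mem (VV ξ (L0 D S n) 0)
  | add x y hx hy =>
    obtain ⟨a, ha⟩ := hx
    obtain ⟨b, hb⟩ := hy
    refine ⟨max a b, ?_⟩
    rw [map_add, Pi.single_add]
    exact Submodule.add_mem (VV ξ (L0 D S n) (max a b)) (VV_mono ξ _ (le_max_left a b) ha)
      (VV_mono ξ _ (le_max_right a b) hb)
  | single w c =>
    obtain ⟨m, _, h⟩ := telescope ξ (L0 D S n) w 0
    refine ⟨m, ?_⟩
    have h1 : ((single (1 : D.Y) c : MonoidAlgebra S D.Y) • bas D S n i : FM D S n) ∈
        VV ξ (L0 D S n) 0 :=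
      (L0 D S n).smul_mem _ (Submodule.subset_span ⟨i, rfl⟩)
    have h2 := (h _ h1).1
    have h3 : (Pi.single i (MonoidAlgebra.mapDomainRingHom S ξ (single w c)) :
        Fin n → MonoidAlgebra S E) = (ga S (FM D S n) (ξ w)
          ((single (1 : D.Y) c : MonoidAlgebra S D.Y) • bas D S n i : FM D S n) :
            Fin n → MonoidAlgebra S E) := by
      funext j
      have h4 : (ga S (FM D S n) (ξ w)
          ((single (1 : D.Y) c : MonoidAlgebra S D.Y) • bas D S n i : FM D S n) :
            Fin n → MonoidAlgebra S E) j =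
          single (ξ w) 1 * (kinc D S (single 1 c) *
            (Pi.single i (1 : MonoidAlgebra S E) : Fin n → MonoidAlgebra S E) j) := rfl
      have h5 : MonoidAlgebra.mapDomainRingHom S ξ (single w c) = single (ξ w) c :=
        MonoidAlgebra.mapDomain_single
      rw [h4, h5, kinc_single]
      by_cases hj : j = i
      · subst hj
        rw [Pi.single_eq_same, Pi.single_eq_same, mul_one, MonoidAlgebra.single_mul_single]
        simp
      · rw [Pi.single_eq_of_ne hj, Pi.single_eq_of_ne hj, mul_zero, mul_zero]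
    rw [h3]
    exact h2

theorem mem_VV {k : ℕ} (ξ : FreeGroup (Fin k) →* E) (n : ℕ) (v : Fin n → MonoidAlgebra S E)
    (hv : ∀ i, v i ∈ (MonoidAlgebra.mapDomainRingHom S ξ).range) :
    ∃ N, v ∈ (VV ξ (L0 D S n) N : Set (FM D S n)) := by
  choose f hf using hv
  have h1 := fun i => mem_VV_single (D := D) (S := S) ξ n i (f i)
  choose N hN using h1
  refine ⟨Finset.univ.sup N, ?_⟩
  have h2 : v = ∑ i, (Pi.single i (v i) : Fin n → MonoidAlgebra S E) :=
    (Finset.univ_sum_single v).symm
  have h3 : ∀ s : Finset (Fin n), (∑ i ∈ s, (Pi.single i (v i) : Fin n → MonoidAlgebra S E)) ∈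
      (VV ξ (L0 D S n) (Finset.univ.sup N) : Set (FM D S n)) := by
    classical
    intro s
    induction s using Finset.induction_on with
    | empty => exact Submodule.zero_mem (VV ξ (L0 D S n) (Finset.univ.sup N))
    | insert a s ha ih =>
      rw [Finset.sum_insert ha]
      refine Submodule.add_mem (VV ξ (L0 D S n) (Finset.univ.sup N)) ?_ ih
      have h4 := VV_mono ξ (L0 D S n) (Finset.le_sup (f := N) (Finset.mem_univ a)) (hN a)
      rw [hf] at h4
      exact h4
  rw [h2]
  exact h3 _

end

theorem mdr_comp (S : Type u) [Ring S] {G H K : Type} [Group G] [Group H] [Group K] (f : G →* H)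
    (g : H →* K) (a : MonoidAlgebra S G) :
    MonoidAlgebra.mapDomainRingHom S g (MonoidAlgebra.mapDomainRingHom S f a) =
      MonoidAlgebra.mapDomainRingHom S (g.comp f) a := by
  induction a using MonoidAlgebra.induction_linear with
  | zero => rw [map_zero, map_zero, map_zero]
  | add x y hx hy => rw [map_add, map_add, map_add, hx, hy]
  | single e c =>
    have h1 : ∀ {G H : Type} [Group G] [Group H] (f : G →* H) (e : G),
        MonoidAlgebra.mapDomainRingHom S f (single e c) = single (f e) c :=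
      fun f e => MonoidAlgebra.mapDomain_single
    rw [h1, h1, h1]
    rfl

theorem mdr_id (S : Type u) [Ring S] {G : Type} [Group G] (f : G →* G) (hf : ∀ g, f g = g)
    (a : MonoidAlgebra S G) : MonoidAlgebra.mapDomainRingHom S f a = a := by
  induction a using MonoidAlgebra.induction_linear with
  | zero => rw [map_zero]
  | add x y hx hy => rw [map_add, hx, hy]
  | single e c =>
    have h1 : MonoidAlgebra.mapDomainRingHom S f (single e c) = single (f e) c :=
      MonoidAlgebra.mapDomain_single
    rw [h1, hf]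

/-- T2: coherence and finite resolutions for the group ring of a free group over a regular
ring. -/
theorem rc_free {E X : Type} [Group E] (D : Split E (FreeGroup X))
    (hD : ∀ e, D.π e = 1 → e = 1) {S : Type u} [Ring S] (hS : RegularRing S) :
    RC (MonoidAlgebra S E) := by
  classical
  -- the small ring
  have hY : ∀ y : D.Y, y = 1 := fun y => Subtype.ext (hD _ y.2)
  let τ : S ≃+* MonoidAlgebra S D.Y :=
    RingEquiv.ofBijective (MonoidAlgebra.singleOneRingHom : S →+* MonoidAlgebra S D.Y) ⟨by
      intro a b hab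
      have h1 : (single (1 : D.Y) a).coeff 1 = (single (1 : D.Y) b).coeff 1 := by
        exact congrArg (fun z : MonoidAlgebra S D.Y => z.coeff 1) hab
      simpa using h1, by
      intro f
      refine ⟨f.coeff 1, MonoidAlgebra.ext (Finsupp.ext fun y => ?_)⟩
      rw [hY y]
      show (single (1 : D.Y) (f.coeff 1)).coeff 1 = f.coeff 1
      simp⟩
  have hR : RegularRing (MonoidAlgebra S D.Y) := regularRing_transfer τ hS
  have hse : ∀ e, D.s (D.π e) = e := by
    intro e
    have h1 := hD ((D.s (D.π e))⁻¹ * e) (by rw [map_mul, map_inv, D.hs, inv_mul_cancel])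
    exact inv_mul_eq_one.1 h1
  intro n W hW
  obtain ⟨T, hT⟩ := hW
  -- the letters
  have h2 : ∀ f : MonoidAlgebra S E, ∃ Λ : Finset X, ∀ Λ', Λ ⊆ Λ' →
      f ∈ (MonoidAlgebra.mapDomainRingHom S (D.s.comp (inclL Λ'))).range := by
    intro f
    obtain ⟨Λ, hΛ⟩ := lettersA (MonoidAlgebra.mapDomainRingHom S D.π f)
    refine ⟨Λ, fun Λ' h => ?_⟩
    obtain ⟨g, hg⟩ := hΛ Λ' h
    refine ⟨g, ?_⟩
    rw [← mdr_comp, hg, mdr_comp]
    exact mdr_id S _ hse f
  choose lt hlt using h2
  let Λ : Finset X := T.biUnion fun t => Finset.univ.biUnion fun i => lt (t i)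
  have hΛ : ∀ t ∈ T, ∀ i, lt (t i) ⊆ Λ := by
    intro t ht i
    refine Finset.Subset.trans ?_ (Finset.subset_biUnion_of_mem
      (fun t : Fin n → MonoidAlgebra S E => Finset.univ.biUnion fun i => lt (t i)) ht)
    exact Finset.subset_biUnion_of_mem (fun i => lt (t i)) (Finset.mem_univ i)
  let en : Fin Λ.card ≃ Λ := Λ.equivFin.symm
  let ι : Fin Λ.card → X := fun i => (en i : X)
  let ξ : FreeGroup (Fin Λ.card) →* E := (D.s.comp (inclL Λ)).comp (FreeGroup.map en)
  have hC : Count D ξ := by
    refine count_of D ξ ι (Subtype.val_injective.comp en.injective) fun i => ?_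
    show D.π (D.s (inclL Λ (FreeGroup.map en (FreeGroup.of i)))) = _
    rw [D.hs, FreeGroup.map.of]
    exact FreeGroup.map.of
  have h3 : ∀ t ∈ T, ∃ N, t ∈ (VV ξ (L0 D S n) N : Set (FM D S n)) := by
    intro t ht
    refine mem_VV ξ n t fun i => ?_
    obtain ⟨g, hg⟩ := hlt (t i) Λ (hΛ t ht i)
    refine ⟨MonoidAlgebra.mapDomainRingHom S (FreeGroup.map en.symm) g, ?_⟩
    rw [mdr_comp, ← hg]
    congr 2
    ext x
    show (D.s.comp (inclL Λ)) (FreeGroup.map en (FreeGroup.map en.symm (FreeGroup.of x))) = _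
    rw [FreeGroup.map.of, FreeGroup.map.of, Equiv.apply_symm_apply]
  choose! N hN using h3
  let L : Submodule (MonoidAlgebra S D.Y) (FM D S n) := VV ξ (L0 D S n) (T.sup N)
  let W' : Submodule (MonoidAlgebra S E) (FM D S n) := W
  have hWe : LinearMap.range (eps (rs D W' ⊓ L)) = W' := by
    refine le_antisymm ?_ ?_
    · rintro _ ⟨z, rfl⟩
      induction z using KInd.induction with
      | h0 => rw [map_zero]; exact W'.zero_mem
      | hadd a b ha hb => rw [map_add]; exact W'.add_mem ha hb
      | hs g v =>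
        rw [eps_sg]
        exact ga_mem W' _ v.2.1
    · let R' : Submodule (MonoidAlgebra S E) (Fin n → MonoidAlgebra S E) :=
        (LinearMap.range (eps (rs D W' ⊓ L)) : Submodule (MonoidAlgebra S E) (FM D S n))
      have h4 : Submodule.span (MonoidAlgebra S E) (T : Set (Fin n → MonoidAlgebra S E)) ≤
          R' := by
        refine Submodule.span_le.2 fun t ht => ?_
        have h5 : (t : FM D S n) ∈ rs D W' ⊓ L := by
          refine ⟨?_, ?_⟩
          · show t ∈ W
            rw [← hT]
            exact Submodule.subset_span ht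
          · exact VV_mono ξ (L0 D S n) (Finset.le_sup (f := N) ht) (hN t ht)
        exact ⟨KInd.sg S 1 ⟨t, h5⟩, by rw [eps_sg, ga_one]⟩
      intro w hw
      refine h4 ?_
      have h6 : w ∈ W := hw
      rw [← hT] at h6
      exact h6
  have : IsNoetherianRing (MonoidAlgebra S D.Y) := hR.1
  have hLfg : L.FG := VV_fg ξ (L0_fg n) _
  have hLno : IsNoetherian (MonoidAlgebra S D.Y) L := by
    have : Module.Finite (MonoidAlgebra S D.Y) L := Module.Finite.iff_fg.2 hLfg
    exact isNoetherian_of_isNoetherianRing_of_finite _ L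
  have hfg : (rs D W' ⊓ L).FG := by
    have h7 : IsNoetherian (MonoidAlgebra S D.Y) ↥(rs D W' ⊓ L) :=
      isNoetherian_of_injective (Submodule.inclusion (inf_le_right : rs D W' ⊓ L ≤ L))
        (Submodule.inclusion_injective _)
    exact Module.Finite.iff_fg.1 inferInstance
  exact res_of_exact ξ hR hC (rs D W' ⊓ L) hfg
    (ker_eps_inf ξ hC L (ker_eps_VV ξ n _) W') W' hWe

end Pool.Agent.NegK.H91
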