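import Pool.Agent.Lib.MP_28303a_al.NK.H91.KRep
import Pool.Agent.Lib.MP_28303a_al.NK.H91.Ind

/-! # The tree argument for induced modules -/

set_option autoImplicit false
set_option linter.unusedSectionVars false

namespace Pool.Agent.NegK.H91

open MonoidAlgebra (single)

universe u

section

variable {E F : Type} [Group E] [Group F] {D : Split E F} {S : Type u} [Ring S]
  {P : Type u} [AddCommGroup P] [Module (MonoidAlgebra S E) P] [Module (MonoidAlgebra S D.Y) P]
  [ResMod D S P]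

/-- The action of a group element on `P`. -/
noncomputable def ga (S : Type u) [Ring S] {E : Type} [Group E] (P : Type u) [AddCommGroup P]
    [Module (MonoidAlgebra S E) P] (e : E) : P →+ P :=
  Module.toAddMonoidEnd (MonoidAlgebra S E) P (single e (1 : S))

theorem ga_apply (e : E) (p : P) : ga S P e p = (single e (1 : S) : MonoidAlgebra S E) • p := rfl

theorem ga_mul (g h : E) (p : P) : ga S P g (ga S P h p) = ga S P (g * h) p := by
  rw [ga_apply, ga_apply, ga_apply, smul_smul, MonoidAlgebra.single_mul_single, mul_one]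

theorem ga_one (p : P) : ga S P (1 : E) p = p := by
  rw [ga_apply, ← MonoidAlgebra.one_def, one_smul]

theorem ga_inj (g : E) {p : P} (h : ga S P g p = 0) : p = 0 := by
  have h1 := ga_mul (S := S) g⁻¹ g p
  rw [h, map_zero, inv_mul_cancel, ga_one] at h1
  exact h1.symm

theorem ga_inv_mul (g : E) (p : P) : ga S P g⁻¹ (ga S P g p) = p := by
  rw [ga_mul, inv_mul_cancel, ga_one]

theorem ga_mul_inv (g : E) (p : P) : ga S P g (ga S P g⁻¹ p) = p := by
  rw [ga_mul, mul_inv_cancel, ga_one]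

/-- Conjugation. -/
def Split.conj (D : Split E F) (e : E) (y : D.Y) : D.Y := ⟨e⁻¹ * y * e, by
  have h : D.π (y : E) = 1 := y.2
  rw [MonoidHom.mem_ker, map_mul, map_mul, map_inv, h]
  group⟩

theorem ga_inv_smul (e : E) (y : D.Y) (c : S) (p : P) :
    ga S P e⁻¹ ((single y c : MonoidAlgebra S D.Y) • p) =
      (single (D.conj e y) c : MonoidAlgebra S D.Y) • ga S P e⁻¹ p := by
  rw [ga_apply, ga_apply, KInd.single_smul_eq, KInd.single_smul_eq, smul_smul, smul_smul,
    MonoidAlgebra.single_mul_single, MonoidAlgebra.single_mul_single, one_mul, mul_one]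
  congr 2
  show e⁻¹ * y = e⁻¹ * y * e * e⁻¹
  group

/-- The translate of a submodule. -/
def tr (e : E) (V : Submodule (MonoidAlgebra S D.Y) P) : Submodule (MonoidAlgebra S D.Y) P where
  carrier := {p | ga S P e⁻¹ p ∈ V}
  add_mem' := by
    intro a b ha hb
    show ga S P e⁻¹ (a + b) ∈ V
    rw [map_add]
    exact V.add_mem ha hb
  zero_mem' := by
    show ga S P e⁻¹ 0 ∈ V
    rw [map_zero]
    exact V.zero_mem
  smul_mem' := by
    intro a p hp
    show ga S P e⁻¹ (a • p) ∈ V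
    induction a using MonoidAlgebra.induction_linear with
    | zero => rw [zero_smul, map_zero]; exact V.zero_mem
    | add x y hx hy => rw [add_smul, map_add]; exact V.add_mem hx hy
    | single y c => rw [ga_inv_smul]; exact V.smul_mem _ hp

theorem mem_tr (e : E) (V : Submodule (MonoidAlgebra S D.Y) P) (p : P) :
    p ∈ tr e V ↔ ga S P e⁻¹ p ∈ V := Iff.rfl

theorem ga_mem_tr (e : E) {V : Submodule (MonoidAlgebra S D.Y) P} {p : P} (h : p ∈ V) :
    ga S P e p ∈ tr e V := by
  rw [mem_tr, ga_inv_mul]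
  exact h

theorem tr_fg (e : E) {V : Submodule (MonoidAlgebra S D.Y) P} (h : V.FG) : (tr e V).FG := by
  classical
  obtain ⟨T, rfl⟩ := h
  refine ⟨T.image (ga S P e), le_antisymm ?_ ?_⟩
  · rw [Submodule.span_le]
    intro q hq
    obtain ⟨t, ht, rfl⟩ := Finset.mem_image.1 (Finset.mem_coe.1 hq)
    exact ga_mem_tr e (Submodule.subset_span ht)
  · -- the set of all `q` with `e q` in the span
    have h1 : Submodule.span (MonoidAlgebra S D.Y) (T : Set P) ≤
        tr e⁻¹ (Submodule.span (MonoidAlgebra S D.Y) ((T.image (ga S P e) : Finset P) :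
          Set P)) := by
      rw [Submodule.span_le]
      intro t ht
      show ga S P e⁻¹⁻¹ t ∈ Submodule.span (MonoidAlgebra S D.Y)
        ((T.image (ga S P e) : Finset P) : Set P)
      rw [inv_inv]
      exact Submodule.subset_span (Finset.mem_coe.2 (Finset.mem_image_of_mem _ ht))
    intro p hp
    have h2 := h1 hp
    rw [mem_tr, inv_inv, ga_mul_inv] at h2
    exact h2

variable {k : ℕ} (ξ : FreeGroup (Fin k) →* E)

/-- The generators. -/
def xg (ξ : FreeGroup (Fin k) →* E) (j : Fin k) : E := ξ (FreeGroup.of j)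

/-- The relations of a submodule. -/
noncomputable def relS (V : Submodule (MonoidAlgebra S D.Y) P) :
    Submodule (MonoidAlgebra S E) (KInd D S P) :=
  Submodule.span _ {z | ∃ (j : Fin k) (q : P), q ∈ V ∧ ga S P (xg ξ j) q ∈ V ∧
    z = KInd.sg S 1 (ga S P (xg ξ j) q) - KInd.sg S (xg ξ j) q}

/-- The submodule generated by a submodule of `P`. -/
noncomputable def indS (V : Submodule (MonoidAlgebra S D.Y) P) :
    Submodule (MonoidAlgebra S E) (KInd D S P) :=
  Submodule.span _ {z | ∃ q : P, q ∈ V ∧ z = KInd.sg S 1 q}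

theorem relS_mono {V W : Submodule (MonoidAlgebra S D.Y) P} (h : V ≤ W) :
    relS ξ V ≤ relS ξ W := by
  refine Submodule.span_mono ?_
  rintro z ⟨j, q, h1, h2, rfl⟩
  exact ⟨j, q, h h1, h h2, rfl⟩

theorem relS_gen {V : Submodule (MonoidAlgebra S D.Y) P} (j : Fin k) {q : P} (h1 : q ∈ V)
    (h2 : ga S P (xg ξ j) q ∈ V) (g : E) :
    KInd.sg S g (ga S P (xg ξ j) q) - KInd.sg S (g * xg ξ j) q ∈ relS ξ V := by
  have h3 := (relS ξ V).smul_mem (single g (1 : S)) (Submodule.subset_span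
    ⟨j, q, h1, h2, rfl⟩ : KInd.sg S 1 (ga S P (xg ξ j) q) - KInd.sg S (xg ξ j) q ∈ relS ξ V)
  rw [smul_sub, KInd.single_one_smul_sg, KInd.single_one_smul_sg, mul_one] at h3
  exact h3

theorem relS_gen_inv {V : Submodule (MonoidAlgebra S D.Y) P} (j : Fin k) {q : P} (h1 : q ∈ V)
    (h2 : ga S P (xg ξ j)⁻¹ q ∈ V) (g : E) :
    KInd.sg S g (ga S P (xg ξ j)⁻¹ q) - KInd.sg S (g * (xg ξ j)⁻¹) q ∈ relS ξ V := by
  have h4 := relS_gen ξ j h2 (by rw [ga_mul_inv]; exact h1) (g * (xg ξ j)⁻¹)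
  rw [ga_mul_inv, inv_mul_cancel_right] at h4
  have h5 := (relS ξ V).neg_mem h4
  rwa [neg_sub] at h5

/-- The increasing sequence of submodules. -/
noncomputable def VV (ξ : FreeGroup (Fin k) →* E) (V : Submodule (MonoidAlgebra S D.Y) P) :
    ℕ → Submodule (MonoidAlgebra S D.Y) P
  | 0 => V
  | n + 1 => VV ξ V n ⊔ ⨆ j : Fin k, (tr (xg ξ j) (VV ξ V n) ⊔ tr (xg ξ j)⁻¹ (VV ξ V n))

theorem VV_succ_le (V : Submodule (MonoidAlgebra S D.Y) P) (n : ℕ) :
    VV ξ V n ≤ VV ξ V (n + 1) := le_sup_left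

theorem VV_mono (V : Submodule (MonoidAlgebra S D.Y) P) {n m : ℕ} (h : n ≤ m) :
    VV ξ V n ≤ VV ξ V m :=
  monotone_nat_of_le_succ (VV_succ_le ξ V) h

theorem VV_gen {V : Submodule (MonoidAlgebra S D.Y) P} {n : ℕ} {p : P} (h : p ∈ VV ξ V n)
    (j : Fin k) : ga S P (xg ξ j) p ∈ VV ξ V (n + 1) := by
  refine Submodule.mem_sup_right (Submodule.mem_iSup_of_mem j ?_)
  exact Submodule.mem_sup_left (ga_mem_tr _ h)

theorem VV_gen_inv {V : Submodule (MonoidAlgebra S D.Y) P} {n : ℕ} {p : P} (h : p ∈ VV ξ V n)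
    (j : Fin k) : ga S P (xg ξ j)⁻¹ p ∈ VV ξ V (n + 1) := by
  refine Submodule.mem_sup_right (Submodule.mem_iSup_of_mem j ?_)
  exact Submodule.mem_sup_right (ga_mem_tr _ h)

theorem VV_fg {V : Submodule (MonoidAlgebra S D.Y) P} (h : V.FG) (n : ℕ) : (VV ξ V n).FG := by
  induction n with
  | zero => exact h
  | succ n ih => exact ih.sup (Submodule.fg_iSup _ (fun j => (tr_fg _ ih).sup (tr_fg _ ih)))

/-- Telescoping for a group element. -/
theorem telescope (V : Submodule (MonoidAlgebra S D.Y) P) (w : FreeGroup (Fin k)) :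
    ∀ n, ∃ m, n ≤ m ∧ ∀ p ∈ VV ξ V n, ga S P (ξ w) p ∈ VV ξ V m ∧
      KInd.sg S 1 (ga S P (ξ w) p) - KInd.sg S (ξ w) p ∈ relS ξ (VV ξ V m) := by
  induction w using FreeGroup.induction_on with
  | C1 =>
    intro n
    refine ⟨n, le_rfl, fun p hp => ?_⟩
    rw [map_one, ga_one, sub_self]
    exact ⟨hp, Submodule.zero_mem _⟩
  | of j =>
    intro n
    refine ⟨n + 1, Nat.le_succ n, fun p hp => ⟨VV_gen ξ hp j, ?_⟩⟩
    have h1 := relS_gen ξ j (VV_succ_le ξ V n hp) (VV_gen ξ hp j) 1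
    rwa [one_mul] at h1
  | inv_of j _ =>
    intro n
    rw [map_inv]
    refine ⟨n + 1, Nat.le_succ n, fun p hp => ⟨VV_gen_inv ξ hp j, ?_⟩⟩
    have h1 := relS_gen_inv ξ j (VV_succ_le ξ V n hp) (VV_gen_inv ξ hp j) 1
    rwa [one_mul] at h1
  | mul a b ha hb =>
    intro n
    obtain ⟨m, hm, h1⟩ := hb n
    obtain ⟨l, hl, h2⟩ := ha m
    refine ⟨l, hm.trans hl, fun p hp => ?_⟩
    obtain ⟨h3, h4⟩ := h1 p hp
    obtain ⟨h5, h6⟩ := h2 _ h3
    rw [ga_mul, ← map_mul] at h5 h6
    refine ⟨h5, ?_⟩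
    have h7 := (relS ξ (VV ξ V l)).smul_mem (single (ξ a) (1 : S))
      (relS_mono ξ (VV_mono ξ V hl) h4)
    rw [smul_sub, KInd.single_one_smul_sg, KInd.single_one_smul_sg, mul_one, ← map_mul] at h7
    have h8 := (relS ξ (VV ξ V l)).add_mem h6 h7
    rwa [sub_add_sub_cancel] at h8

/-- Elements of the larger submodules can be moved to the first one. -/
theorem descend (V : Submodule (MonoidAlgebra S D.Y) P) (n : ℕ) : ∀ v ∈ VV ξ V n,
    KInd.sg S 1 v ∈ relS ξ (VV ξ V n) ⊔ indS V := by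
  induction n with
  | zero =>
    intro v hv
    exact Submodule.mem_sup_right (Submodule.subset_span ⟨v, hv, rfl⟩)
  | succ n ih =>
    have hle : relS ξ (VV ξ V n) ⊔ indS V ≤ relS ξ (VV ξ V (n + 1)) ⊔ indS V :=
      sup_le_sup_right (relS_mono ξ (VV_succ_le ξ V n)) _
    let W : Submodule (MonoidAlgebra S D.Y) P :=
      { carrier := {v | KInd.sg S 1 v ∈ relS ξ (VV ξ V (n + 1)) ⊔ indS V}
        add_mem' := by
          intro a b ha hb
          show (KInd.sg S 1 (a + b) : KInd D S P) ∈ relS ξ (VV ξ V (n + 1)) ⊔ indS V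
          rw [KInd.sg_add]
          exact Submodule.add_mem _ ha hb
        zero_mem' := by
          show (KInd.sg S 1 0 : KInd D S P) ∈ relS ξ (VV ξ V (n + 1)) ⊔ indS V
          rw [KInd.sg_zero]
          exact Submodule.zero_mem _
        smul_mem' := by
          intro a p hp
          show KInd.lsg D S P (a • p) ∈ relS ξ (VV ξ V (n + 1)) ⊔ indS V
          rw [map_smul, ResMod.compat (D := D) (S := S)]
          exact Submodule.smul_mem _ _ hp }
    have hW : ∀ v, v ∈ W ↔ KInd.sg S 1 v ∈ relS ξ (VV ξ V (n + 1)) ⊔ indS V := fun v => Iff.rfl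
    have h1 : VV ξ V (n + 1) ≤ W := by
      refine sup_le ?_ (iSup_le fun j => sup_le ?_ ?_)
      · intro v hv
        exact hle (ih v hv)
      · intro p hv
        obtain ⟨v, rfl⟩ : ∃ v, ga S P (xg ξ j) v = p := ⟨_, ga_mul_inv _ _⟩
        rw [mem_tr, ga_inv_mul] at hv
        rw [hW]
        have h2 := relS_gen ξ j (VV_succ_le ξ V n hv) (VV_gen ξ hv j) 1
        rw [one_mul] at h2
        have h3 := (relS ξ (VV ξ V (n + 1)) ⊔ indS V).smul_mem (single (xg ξ j) (1 : S))
          (hle (ih v hv))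
        rw [KInd.single_one_smul_sg, mul_one] at h3
        have h4 := (relS ξ (VV ξ V (n + 1)) ⊔ indS V).add_mem (Submodule.mem_sup_left h2) h3
        rwa [sub_add_cancel] at h4
      · intro p hv
        obtain ⟨v, rfl⟩ : ∃ v, ga S P (xg ξ j)⁻¹ v = p :=
          ⟨ga S P (xg ξ j) p, ga_inv_mul _ _⟩
        rw [mem_tr, inv_inv, ga_mul_inv] at hv
        rw [hW]
        have h2 := relS_gen_inv ξ j (VV_succ_le ξ V n hv) (VV_gen_inv ξ hv j) 1
        rw [one_mul] at h2
        have h3 := (relS ξ (VV ξ V (n + 1)) ⊔ indS V).smul_mem (single (xg ξ j)⁻¹ (1 : S))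
          (hle (ih v hv))
        rw [KInd.single_one_smul_sg, mul_one] at h3
        have h4 := (relS ξ (VV ξ V (n + 1)) ⊔ indS V).add_mem (Submodule.mem_sup_left h2) h3
        rwa [sub_add_cancel] at h4
    intro v hv
    exact h1 hv

/-- The multiplication map. -/
noncomputable def eps (V : Submodule (MonoidAlgebra S D.Y) P) :
    KInd D S V →ₗ[MonoidAlgebra S E] P :=
  KInd.lift V.subtype

theorem eps_sg (V : Submodule (MonoidAlgebra S D.Y) P) (g : E) (v : V) :
    eps V (KInd.sg S g v) = ga S P g v := KInd.lift_sg _ _ _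

/-- The multiplication map on everything. -/
noncomputable def epsP (D : Split E F) (S : Type u) [Ring S] (P : Type u) [AddCommGroup P]
    [Module (MonoidAlgebra S E) P] [Module (MonoidAlgebra S D.Y) P] [ResMod D S P] :
    KInd D S P →ₗ[MonoidAlgebra S E] P :=
  KInd.lift LinearMap.id

theorem epsP_sg (g : E) (v : P) : epsP D S P (KInd.sg S g v) = ga S P g v :=
  KInd.lift_sg _ _ _

theorem epsP_map (V : Submodule (MonoidAlgebra S D.Y) P) (z : KInd D S V) :
    epsP D S P (KInd.map V.subtype z) = eps V z := by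
  have h : (epsP D S P) ∘ₗ (KInd.map V.subtype) = eps V := by
    refine KInd.hom_ext fun v => ?_
    rw [LinearMap.comp_apply, KInd.map_sg, epsP_sg, eps_sg]
    rfl
  exact LinearMap.congr_fun h z

theorem epsP_relS (V : Submodule (MonoidAlgebra S D.Y) P) :
    relS ξ V ≤ LinearMap.ker (epsP D S P) := by
  refine Submodule.span_le.2 ?_
  rintro z ⟨j, q, h1, h2, rfl⟩
  show _ ∈ LinearMap.ker (epsP D S P)
  rw [LinearMap.mem_ker, map_sub, epsP_sg, epsP_sg, ga_one, sub_self]

theorem indS_eq (V : Submodule (MonoidAlgebra S D.Y) P) :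
    indS V ≤ LinearMap.range (KInd.map V.subtype) := by
  refine Submodule.span_le.2 ?_
  rintro z ⟨q, hq, rfl⟩
  exact ⟨KInd.sg S 1 ⟨q, hq⟩, KInd.map_sg _ _ _⟩

/-- Elements of the kernel become relations. -/
theorem ker_step (hgen : ∀ e : E, ∃ (w : FreeGroup (Fin k)) (y : D.Y), e = ξ w * y)
    (V : Submodule (MonoidAlgebra S D.Y) P) (z : KInd D S V) :
    ∃ n, KInd.sg S 1 (eps V z) - KInd.map V.subtype z ∈ relS ξ (VV ξ V n) := by
  induction z using KInd.induction with
  | h0 =>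
    refine ⟨0, ?_⟩
    rw [map_zero, map_zero, KInd.sg_zero, sub_zero]
    exact Submodule.zero_mem _
  | hadd x y hx hy =>
    obtain ⟨n, hn⟩ := hx
    obtain ⟨m, hm⟩ := hy
    refine ⟨max n m, ?_⟩
    have h1 := Submodule.add_mem _ (relS_mono ξ (VV_mono ξ V (le_max_left n m)) hn)
      (relS_mono ξ (VV_mono ξ V (le_max_right n m)) hm)
    rw [map_add, map_add, KInd.sg_add]
    rwa [sub_add_sub_comm] at h1
  | hs g v =>
    obtain ⟨w, y, hwy⟩ := hgen (D.s g)
    obtain ⟨m, _, h⟩ := telescope ξ V w 0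
    refine ⟨m, ?_⟩
    rw [eps_sg, KInd.map_sg, hwy, KInd.sg_mul, ← ga_mul]
    have h1 : ga S P (y : E) (v : P) = (single y (1 : S) : MonoidAlgebra S D.Y) • (v : P) := by
      rw [KInd.single_smul_eq]; rfl
    have h2 : (V.subtype v : P) = (v : P) := rfl
    rw [h2, h1]
    exact (h _ (V.smul_mem _ v.2)).2

/-- The edge module. -/
noncomputable def QQ (V : Submodule (MonoidAlgebra S D.Y) P) : Submodule (MonoidAlgebra S D.Y) (Fin k → P) :=
  Submodule.pi Set.univ (fun j => V ⊓ tr (xg ξ j) V)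

theorem mem_QQ (V : Submodule (MonoidAlgebra S D.Y) P) (p : Fin k → P) :
    p ∈ QQ ξ V ↔ ∀ j, p j ∈ V ∧ ga S P (xg ξ j)⁻¹ (p j) ∈ V := by
  unfold QQ
  rw [Submodule.mem_pi]
  exact ⟨fun h j => h j (Set.mem_univ j), fun h j _ => h j⟩

/-- `p ↦ p_j`. -/
noncomputable def qa (V : Submodule (MonoidAlgebra S D.Y) P) (j : Fin k) :
    QQ ξ V →ₗ[MonoidAlgebra S D.Y] V :=
  LinearMap.codRestrict V (LinearMap.proj j ∘ₗ (QQ ξ V).subtype)
    (fun q => ((mem_QQ ξ V _).1 q.2 j).1)

/-- `p ↦ x_j⁻¹ p_j`. -/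
noncomputable def qb (V : Submodule (MonoidAlgebra S D.Y) P) (j : Fin k) (p : QQ ξ V) : V :=
  ⟨ga S P (xg ξ j)⁻¹ ((p : Fin k → P) j), ((mem_QQ ξ V _).1 p.2 j).2⟩

/-- The map of one edge. -/
noncomputable def edge (V : Submodule (MonoidAlgebra S D.Y) P) (j : Fin k) :
    QQ ξ V →ₗ[MonoidAlgebra S D.Y] KInd D S V :=
  KInd.lsg D S V ∘ₗ qa ξ V j - mkLin
    { toFun := fun p => KInd.sg S (xg ξ j) (qb ξ V j p)
      map_zero' := by
        have h : qb ξ V j 0 = 0 := Subtype.ext (map_zero _)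
        rw [h, KInd.sg_zero]
      map_add' := fun p q => by
        have h : qb ξ V j (p + q) = qb ξ V j p + qb ξ V j q := Subtype.ext (map_add _ _ _)
        rw [h, KInd.sg_add] }
    (fun y c p => by
      show KInd.sg S (xg ξ j) (qb ξ V j (single y c • p)) =
        (single y c : MonoidAlgebra S D.Y) • KInd.sg S (xg ξ j) (qb ξ V j p)
      have h : qb ξ V j (single y c • p) = single (D.conj (xg ξ j) y) c • qb ξ V j p :=
        Subtype.ext (ga_inv_smul (xg ξ j) y c _)
      have h2 : (single (D.conj (xg ξ j) y) c : MonoidAlgebra S D.Y) • qb ξ V j p =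
          (single (D.conj (xg ξ j) y) (1 : S) : MonoidAlgebra S D.Y) •
            (single (1 : D.Y) c : MonoidAlgebra S D.Y) • qb ξ V j p := by
        rw [smul_smul, MonoidAlgebra.single_mul_single, mul_one, one_mul]
      rw [h, h2, ← KInd.sg_mul, KInd.single_smul_eq, KInd.single_smul_sg]
      congr 1
      show xg ξ j * ((xg ξ j)⁻¹ * y * xg ξ j) = y * xg ξ j
      group)

theorem edge_apply (V : Submodule (MonoidAlgebra S D.Y) P) (j : Fin k) (p : QQ ξ V) :
    edge ξ V j p = KInd.sg S 1 (qa ξ V j p) - KInd.sg S (xg ξ j) (qb ξ V j p) := rfl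

/-- The boundary map. -/
noncomputable def theta (V : Submodule (MonoidAlgebra S D.Y) P) :
    KInd D S (QQ ξ V) →ₗ[MonoidAlgebra S E] KInd D S V :=
  KInd.lift (∑ j, edge ξ V j)

theorem theta_sg (V : Submodule (MonoidAlgebra S D.Y) P) (g : E) (p : QQ ξ V) :
    theta ξ V (KInd.sg S g p) =
      ∑ j, (KInd.sg S g (qa ξ V j p) - KInd.sg S (g * xg ξ j) (qb ξ V j p)) := by
  unfold theta
  rw [KInd.lift_sg, LinearMap.sum_apply, Finset.smul_sum]
  refine Finset.sum_congr rfl fun j _ => ?_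
  rw [edge_apply, smul_sub, KInd.single_one_smul_sg, KInd.single_one_smul_sg, mul_one]

/-- Counting functions: they change exactly along one edge. -/
def Count (D : Split E F) (ξ : FreeGroup (Fin k) →* E) : Prop :=
  ∀ (h : F) (j : Fin k), ∃ c : F → ℤ, ∀ (g : F) (i : Fin k),
    c (g * D.π (xg ξ i)) = c g + (open Classical in if g = h ∧ i = j then 1 else 0)

/-- The counting map. -/
noncomputable def TT (V : Submodule (MonoidAlgebra S D.Y) P) (c : F → ℤ) : KInd D S V →+ P :=
  (Finsupp.liftAddHom (fun w => c w • (ga S P (D.s w)).comp V.subtype.toAddMonoidHom) :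
    (F →₀ V) →+ P)

theorem TT_sg (V : Submodule (MonoidAlgebra S D.Y) P) (c : F → ℤ) (g : E) (v : V) :
    TT V c (KInd.sg S g v) = c (D.π g) • ga S P g v := by
  have h0 : ∀ w (m : V), TT V c (Finsupp.single w m : F →₀ V) =
      c w • ga S P (D.s w) (m : P) := fun w m => Finsupp.liftAddHom_apply_single _ w m
  unfold KInd.sg
  rw [h0]
  congr 1
  show ga S P (D.s (D.π g)) ((single (D.y g) (1 : S) : MonoidAlgebra S D.Y) • (v : P)) = _
  rw [KInd.single_smul_eq, ← ga_apply, ga_mul, D.s_y]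

theorem TT_theta {V : Submodule (MonoidAlgebra S D.Y) P} {h : F} {j : Fin k} {c : F → ℤ}
    (hc : ∀ (g : F) (i : Fin k),
      c (g * D.π (xg ξ i)) = c g + (open Classical in if g = h ∧ i = j then 1 else 0))
    (y : KInd D S (QQ ξ V)) :
    TT V c (theta ξ V y) =
      -ga S P (D.s h) (((KInd.coef h y : QQ ξ V) : Fin k → P) j) := by
  classical
  induction y using KInd.induction with
  | h0 => simp only [map_zero, Submodule.coe_zero, Pi.zero_apply, neg_zero]
  | hadd x y hx hy =>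
    rw [map_add, map_add, hx, hy, map_add, Submodule.coe_add, Pi.add_apply, map_add, neg_add]
  | hs w p =>
    rw [theta_sg, map_sum, KInd.coef_sg]
    have h1 : ∀ i, TT V c (KInd.sg S (D.s w) (qa ξ V i p) -
        KInd.sg S (D.s w * xg ξ i) (qb ξ V i p)) =
        -((if w = h ∧ i = j then (1 : ℤ) else 0) •
          ga S P (D.s w) ((p : Fin k → P) i)) := by
      intro i
      rw [map_sub, TT_sg, TT_sg, map_mul, D.hs, hc]
      have h2 : (qa ξ V i p : P) = (p : Fin k → P) i := rfl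
      have h3 : (qb ξ V i p : P) = ga S P (xg ξ i)⁻¹ ((p : Fin k → P) i) := rfl
      rw [h2, h3, ga_mul, mul_inv_cancel_right, ← sub_smul, ← neg_smul]
      congr 1
      ring
    rw [Finset.sum_congr rfl (fun i _ => h1 i), Finset.sum_eq_single j]
    · by_cases hg : w = h
      · subst hg
        simp
      · simp [hg]
    · intro i _ hi
      simp [hi]
    · intro hj
      exact absurd (Finset.mem_univ j) hj

theorem theta_injective (hC : Count D ξ) (V : Submodule (MonoidAlgebra S D.Y) P) :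
    Function.Injective (theta ξ V) := by
  rw [injective_iff_map_eq_zero]
  intro z hz
  refine KInd.ext_coef fun h => ?_
  refine Subtype.ext (funext fun j => ?_)
  rw [map_zero]
  obtain ⟨c, hc⟩ := hC h j
  have h4 := TT_theta ξ hc z
  rw [hz, map_zero] at h4
  exact ga_inj (S := S) (D.s h) (neg_eq_zero.1 h4.symm)

theorem range_theta_le (V : Submodule (MonoidAlgebra S D.Y) P) :
    LinearMap.range (theta ξ V) ≤ LinearMap.ker (eps V) := by
  rw [LinearMap.range_le_ker_iff]
  refine KInd.hom_ext fun q => ?_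
  rw [LinearMap.comp_apply, theta_sg, map_sum, LinearMap.zero_apply]
  refine Finset.sum_eq_zero fun j _ => ?_
  rw [map_sub, eps_sg, eps_sg, one_mul]
  have h3 : (qb ξ V j q : P) = ga S P (xg ξ j)⁻¹ ((q : Fin k → P) j) := rfl
  rw [h3, ga_mul_inv, ga_one]
  exact sub_self _

theorem relS_le (V : Submodule (MonoidAlgebra S D.Y) P) :
    relS ξ V ≤ (LinearMap.range (theta ξ V)).map (KInd.map V.subtype) := by
  classical
  refine Submodule.span_le.2 ?_
  rintro z ⟨j, q, h1, h2, rfl⟩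
  let q' : QQ ξ V := ⟨Pi.single j (ga S P (xg ξ j) q), (mem_QQ ξ V _).2 fun i => by
    by_cases hi : i = j
    · subst hi
      rw [Pi.single_eq_same, ga_inv_mul]
      exact ⟨h2, h1⟩
    · rw [Pi.single_eq_of_ne hi, map_zero]
      exact ⟨V.zero_mem, V.zero_mem⟩⟩
  refine ⟨theta ξ V (KInd.sg S 1 q'), ⟨_, rfl⟩, ?_⟩
  have hqa : ∀ i, (V.subtype (qa ξ V i q')) = (q' : Fin k → P) i := fun i => rfl
  have hqb : ∀ i, (V.subtype (qb ξ V i q')) = ga S P (xg ξ i)⁻¹ ((q' : Fin k → P) i) :=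
    fun i => rfl
  rw [theta_sg, map_sum, Finset.sum_eq_single j]
  · rw [map_sub, KInd.map_sg, KInd.map_sg, one_mul, hqa, hqb]
    have h3 : (q' : Fin k → P) j = ga S P (xg ξ j) q := by
      show (Pi.single j (ga S P (xg ξ j) q) : Fin k → P) j = _
      exact Pi.single_eq_same _ _
    rw [h3, ga_inv_mul]
  · intro i _ hi
    rw [map_sub, KInd.map_sg, KInd.map_sg, one_mul, hqa, hqb]
    have h3 : (q' : Fin k → P) i = 0 := by
      show (Pi.single j (ga S P (xg ξ j) q) : Fin k → P) i = 0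
      exact Pi.single_eq_of_ne hi _
    rw [h3, map_zero, KInd.sg_zero, KInd.sg_zero, sub_zero]
  · intro hj
    exact absurd (Finset.mem_univ j) hj

/-- Exactness for the submodule `VV ξ V0 n` once `V0` has no more relations. -/
theorem ker_eps_le (V0 : Submodule (MonoidAlgebra S D.Y) P) (n : ℕ)
    (hker : ∀ z, eps V0 z = 0 → KInd.map V0.subtype z ∈ relS ξ (VV ξ V0 n)) :
    LinearMap.ker (eps (VV ξ V0 n)) ≤ LinearMap.range (theta ξ (VV ξ V0 n)) := by
  intro z hz
  have hz' : eps (VV ξ V0 n) z = 0 := hz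
  have h2 : KInd.map (VV ξ V0 n).subtype z ∈ relS ξ (VV ξ V0 n) ⊔ indS V0 := by
    have h3 : ∀ y : KInd D S (VV ξ V0 n),
        KInd.map (VV ξ V0 n).subtype y ∈ relS ξ (VV ξ V0 n) ⊔ indS V0 := by
      intro y
      induction y using KInd.induction with
      | h0 => rw [map_zero]; exact Submodule.zero_mem _
      | hadd a b ha hb => rw [map_add]; exact Submodule.add_mem _ ha hb
      | hs g v =>
        have h4 := (relS ξ (VV ξ V0 n) ⊔ indS V0).smul_mem (single (D.s g) (1 : S))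
          (descend ξ V0 n v v.2)
        rw [KInd.single_one_smul_sg, mul_one] at h4
        rw [KInd.map_sg]
        exact h4
    exact h3 z
  obtain ⟨r, hr, y, hy, hry⟩ := Submodule.mem_sup.1 h2
  obtain ⟨y0, rfl⟩ := indS_eq V0 hy
  have h5 : eps V0 y0 = 0 := by
    have h6 : epsP D S P (r + KInd.map V0.subtype y0) = 0 := by
      rw [hry, epsP_map, hz']
    have h7 : epsP D S P r = 0 := epsP_relS ξ _ hr
    rw [map_add, h7, zero_add, epsP_map] at h6
    exact h6
  have h8 : KInd.map (VV ξ V0 n).subtype z ∈ relS ξ (VV ξ V0 n) := by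
    rw [← hry]
    exact Submodule.add_mem _ hr (hker y0 h5)
  obtain ⟨w, hw, hwz⟩ := relS_le ξ _ h8
  have h9 := KInd.map_injective (VV ξ V0 n).injective_subtype hwz
  rw [← h9]
  exact hw

end

end Pool.Agent.NegK.H91
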