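import Pool.Agent.Lib.MP_28303a_al.NK.H50.Rep

/-! # Modules induced from the kernel of a split surjection of groups

`π : E → F` is a surjection of groups with a section `s`, `Y = ker π`.  For a module `M` over
`S[Y]` the induced module `S[E] ⊗ M` is modelled by finitely supported functions `F → M`. -/

set_option autoImplicit false
set_option linter.unusedSectionVars false

namespace Pool.Agent.NegK.H91

open MonoidAlgebra (single)

universe u

/-- A split surjection of groups. -/
structure Split (E F : Type) [Group E] [Group F] where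
  π : E →* F
  s : F →* E
  hs : ∀ w, π (s w) = w

section

variable {E F : Type} [Group E] [Group F] (D : Split E F)

/-- The kernel. -/
abbrev Split.Y : Subgroup E := D.π.ker

/-- The kernel component of an element. -/
def Split.y (e : E) : D.Y := ⟨(D.s (D.π e))⁻¹ * e, by
  rw [MonoidHom.mem_ker, map_mul, map_inv, D.hs, inv_mul_cancel]⟩

/-- The cocycle. -/
def Split.φ (e : E) (w : F) : D.Y := ⟨(D.s w)⁻¹ * ((D.s (D.π e))⁻¹ * e) * D.s w, by
  rw [MonoidHom.mem_ker, map_mul, map_mul, map_mul, map_inv, map_inv, D.hs, D.hs]
  group⟩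

theorem Split.φ_mul (e e' : E) (w : F) :
    D.φ (e * e') w = D.φ e (D.π e' * w) * D.φ e' w := by
  refine Subtype.ext ?_
  show (D.s w)⁻¹ * ((D.s (D.π (e * e')))⁻¹ * (e * e')) * D.s w =
    ((D.s (D.π e' * w))⁻¹ * ((D.s (D.π e))⁻¹ * e) * D.s (D.π e' * w)) *
      ((D.s w)⁻¹ * ((D.s (D.π e'))⁻¹ * e') * D.s w)
  simp only [map_mul]
  group

theorem Split.φ_one (w : F) : D.φ 1 w = 1 := by
  refine Subtype.ext ?_
  show (D.s w)⁻¹ * ((D.s (D.π 1))⁻¹ * 1) * D.s w = 1
  simp

theorem Split.φ_y (e e' : E) : D.φ e (D.π e') * D.y e' = D.y (e * e') := by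
  refine Subtype.ext ?_
  show (D.s (D.π e'))⁻¹ * ((D.s (D.π e))⁻¹ * e) * D.s (D.π e') * ((D.s (D.π e'))⁻¹ * e') =
    (D.s (D.π (e * e')))⁻¹ * (e * e')
  simp only [map_mul]
  group

theorem Split.y_s (w : F) : D.y (D.s w) = 1 := by
  refine Subtype.ext ?_
  show (D.s (D.π (D.s w)))⁻¹ * D.s w = 1
  rw [D.hs, inv_mul_cancel]

theorem Split.y_mul (e : E) (y : D.Y) : D.y (e * y) = D.y e * y := by
  refine Subtype.ext ?_
  show (D.s (D.π (e * y)))⁻¹ * (e * y) = (D.s (D.π e))⁻¹ * e * y
  have h : D.π (y : E) = 1 := y.2
  rw [map_mul, h, mul_one, mul_assoc]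

theorem Split.π_mul (e : E) (y : D.Y) : D.π (e * y) = D.π e := by
  have h : D.π (y : E) = 1 := y.2
  rw [map_mul, h, mul_one]

theorem Split.s_y (e : E) : D.s (D.π e) * D.y e = e := mul_inv_cancel_left _ _

end

/-- `S[E] ⊗ M`, as finitely supported functions. -/
def KInd {E F : Type} [Group E] [Group F] (_D : Split E F) (_S : Type u) (M : Type u)
    [AddCommGroup M] : Type u := F →₀ M

/-- The inclusion of group rings. -/
noncomputable abbrev kinc {E F : Type} [Group E] [Group F] (D : Split E F) (S : Type u) [Ring S] :
    MonoidAlgebra S D.Y →+* MonoidAlgebra S E := MonoidAlgebra.mapDomainRingHom S D.Y.subtype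

theorem kinc_single {E F : Type} [Group E] [Group F] (D : Split E F) (S : Type u) [Ring S]
    (y : D.Y) (c : S) : kinc D S (single y c) = single (y : E) c :=
  MonoidAlgebra.mapDomain_single

/-- Compatibility of module structures. -/
class ResMod {E F : Type} [Group E] [Group F] (D : Split E F) (S : Type u) [Ring S] (P : Type u)
    [AddCommGroup P] [Module (MonoidAlgebra S E) P] [Module (MonoidAlgebra S D.Y) P] : Prop where
  compat : ∀ (a : MonoidAlgebra S D.Y) (p : P), a • p = kinc D S a • p

namespace KInd

variable {E F : Type} [Group E] [Group F] (D : Split E F)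

section

variable (S : Type u) [Ring S] (M : Type u) [AddCommGroup M] [Module (MonoidAlgebra S D.Y) M]

noncomputable instance : AddCommGroup (KInd D S M) := inferInstanceAs (AddCommGroup (F →₀ M))

/-- The elementary additive maps. -/
noncomputable def mvec (f : F → F) (g : F → AddMonoid.End M) : AddMonoid.End (KInd D S M) :=
  (Finsupp.liftAddHom (fun w => (Finsupp.singleAddHom (f w)).comp (g w)) :
    (F →₀ M) →+ (F →₀ M))

theorem mvec_single (f : F → F) (g : F → AddMonoid.End M) (w : F) (m : M) :
    mvec D S M f g (Finsupp.single w m : F →₀ M) = (Finsupp.single (f w) (g w m) : F →₀ M) :=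
  Finsupp.liftAddHom_apply_single _ w m

/-- The action of a monomial. -/
noncomputable def act1 (e : E) (c : S) : AddMonoid.End (KInd D S M) :=
  mvec D S M (fun w => D.π e * w)
    (fun w => Module.toAddMonoidEnd (MonoidAlgebra S D.Y) M (single (D.φ e w) c))

theorem act1_single (e : E) (c : S) (w : F) (m : M) :
    act1 D S M e c (Finsupp.single w m : F →₀ M) =
      (Finsupp.single (D.π e * w) ((single (D.φ e w) c : MonoidAlgebra S D.Y) • m) : F →₀ M) :=
  mvec_single D S M _ _ w m

theorem act1_mul (e e' : E) (c c' : S) :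
    act1 D S M (e * e') (c * c') = act1 D S M e c * act1 D S M e' c' := by
  refine Finsupp.addHom_ext (fun w m => ?_)
  show act1 D S M (e * e') (c * c') (Finsupp.single w m : F →₀ M) =
    act1 D S M e c (act1 D S M e' c' (Finsupp.single w m : F →₀ M))
  rw [act1_single, act1_single, act1_single, smul_smul, MonoidAlgebra.single_mul_single,
    ← D.φ_mul, map_mul, mul_assoc]

theorem act1_one : act1 D S M 1 1 = 1 := by
  refine Finsupp.addHom_ext (fun w m => ?_)
  show act1 D S M 1 1 (Finsupp.single w m : F →₀ M) = Finsupp.single w m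
  rw [act1_single, D.φ_one, ← MonoidAlgebra.one_def, one_smul, map_one, one_mul]

theorem act1_add (e : E) (c c' : S) :
    act1 D S M e (c + c') = act1 D S M e c + act1 D S M e c' := by
  refine Finsupp.addHom_ext (fun w m => ?_)
  show act1 D S M e (c + c') (Finsupp.single w m : F →₀ M) =
    act1 D S M e c (Finsupp.single w m : F →₀ M) + act1 D S M e c' (Finsupp.single w m : F →₀ M)
  rw [act1_single, act1_single, act1_single, MonoidAlgebra.single_add, add_smul,
    Finsupp.single_add]
  rfl

theorem act1_zero (e : E) : act1 D S M e 0 = 0 := by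
  refine Finsupp.addHom_ext (fun w m => ?_)
  show act1 D S M e 0 (Finsupp.single w m : F →₀ M) = 0
  rw [act1_single, MonoidAlgebra.single_zero, zero_smul, Finsupp.single_zero]
  rfl

/-- The scalars. -/
noncomputable def scal : S →+* AddMonoid.End (KInd D S M) where
  toFun c := act1 D S M 1 c
  map_one' := act1_one D S M
  map_zero' := act1_zero D S M 1
  map_add' := act1_add D S M 1
  map_mul' c c' := by
    have h := act1_mul D S M 1 1 c c'
    rwa [one_mul] at h

/-- Translations. -/
noncomputable def transl : E →* AddMonoid.End (KInd D S M) where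
  toFun e := act1 D S M e 1
  map_one' := act1_one D S M
  map_mul' e e' := by
    have h := act1_mul D S M e e' 1 1
    rwa [one_mul] at h

/-- The action of the group ring. -/
noncomputable def act : MonoidAlgebra S E →+* AddMonoid.End (KInd D S M) :=
  MonoidAlgebra.liftNCRingHom (scal D S M) (transl D S M) (by
    intro c e
    show act1 D S M 1 c * act1 D S M e 1 = act1 D S M e 1 * act1 D S M 1 c
    rw [← act1_mul, ← act1_mul, one_mul, mul_one, one_mul, mul_one])

theorem act_single (e : E) (c : S) : act D S M (single e c) = act1 D S M e c := by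
  unfold act
  rw [MonoidAlgebra.liftNCRingHom_single]
  show act1 D S M 1 c * act1 D S M e 1 = act1 D S M e c
  rw [← act1_mul, one_mul, mul_one]

noncomputable instance : Module (MonoidAlgebra S E) (KInd D S M) :=
  Module.compHom (KInd D S M) (act D S M)

noncomputable instance : Module (MonoidAlgebra S D.Y) (KInd D S M) :=
  Module.compHom (KInd D S M) ((act D S M).comp (kinc D S))

instance : ResMod D S (KInd D S M) := ⟨fun _ _ => rfl⟩

end

section

variable {D} {S : Type u} [Ring S] {M : Type u} [AddCommGroup M]
  [Module (MonoidAlgebra S D.Y) M]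

/-- `e ⊗ m`. -/
noncomputable def sg (S : Type u) [Ring S] {M : Type u} [AddCommGroup M]
    [Module (MonoidAlgebra S D.Y) M] (e : E) (m : M) : KInd D S M :=
  (Finsupp.single (D.π e) ((single (D.y e) (1 : S) : MonoidAlgebra S D.Y) • m) : F →₀ M)

theorem sg_s (w : F) (m : M) :
    (sg S (D.s w) m : KInd D S M) = (Finsupp.single w m : F →₀ M) := by
  unfold sg
  rw [D.y_s, D.hs, ← MonoidAlgebra.one_def, one_smul]

theorem sg_add (g : E) (m m' : M) :
    (sg S g (m + m') : KInd D S M) = sg S g m + sg S g m' := by
  unfold sg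
  rw [smul_add]
  exact Finsupp.single_add _ _ _

theorem sg_zero (g : E) : (sg S g (0 : M) : KInd D S M) = 0 := by
  unfold sg
  rw [smul_zero]
  exact Finsupp.single_zero _

theorem sg_neg (g : E) (m : M) : (sg S g (-m) : KInd D S M) = -sg S g m := by
  rw [eq_neg_iff_add_eq_zero, ← sg_add, neg_add_cancel, sg_zero]

theorem sg_sub (g : E) (m m' : M) :
    (sg S g (m - m') : KInd D S M) = sg S g m - sg S g m' := by
  rw [sub_eq_add_neg, sub_eq_add_neg, sg_add, sg_neg]

theorem sg_mul (g : E) (y : D.Y) (m : M) :
    (sg S (g * y) m : KInd D S M) = sg S g ((single y (1 : S) : MonoidAlgebra S D.Y) • m) := by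
  unfold sg
  rw [D.π_mul, D.y_mul, smul_smul, MonoidAlgebra.single_mul_single, mul_one]

@[simp] theorem single_smul_sg (g : E) (c : S) (h : E) (m : M) :
    (single g c : MonoidAlgebra S E) • (sg S h m : KInd D S M) =
      sg S (g * h) ((single (1 : D.Y) c : MonoidAlgebra S D.Y) • m) := by
  show act D S M (single g c) (sg S h m) = _
  unfold sg
  rw [act_single, act1_single, smul_smul, smul_smul, MonoidAlgebra.single_mul_single,
    MonoidAlgebra.single_mul_single, D.φ_y, mul_one, mul_one, one_mul, map_mul]

theorem single_one_smul_sg (g h : E) (m : M) :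
    (single g (1 : S) : MonoidAlgebra S E) • (sg S h m : KInd D S M) = sg S (g * h) m := by
  rw [single_smul_sg, ← MonoidAlgebra.one_def, one_smul]

theorem induction {p : KInd D S M → Prop} (z : KInd D S M) (h0 : p 0)
    (hadd : ∀ x y, p x → p y → p (x + y)) (hs : ∀ w m, p (sg S (D.s w) m)) : p z :=
  Finsupp.induction_linear z h0 hadd (fun w m => by
    have := hs w m
    rwa [sg_s] at this)

/-- Value of a finitely supported function. -/
def coef (w : F) : KInd D S M →+ M := Finsupp.applyAddHom w

theorem coef_sg [DecidableEq F] (g h : F) (m : M) :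
    coef g (sg S (D.s h) m : KInd D S M) = if h = g then m else 0 := by
  rw [sg_s]
  exact Finsupp.single_apply

theorem ext_coef {x y : KInd D S M} (h : ∀ g, coef g x = coef g y) : x = y :=
  Finsupp.ext h

end

section

variable {D} {S : Type u} [Ring S] {M : Type u} [AddCommGroup M]
  [Module (MonoidAlgebra S D.Y) M]
  {N : Type u} [AddCommGroup N] [Module (MonoidAlgebra S E) N] [Module (MonoidAlgebra S D.Y) N]
  [ResMod D S N]

theorem single_smul_eq (y : D.Y) (c : S) (n : N) :
    (single y c : MonoidAlgebra S D.Y) • n = (single (y : E) c : MonoidAlgebra S E) • n := by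
  rw [ResMod.compat (D := D) (S := S), kinc_single]

/-- The universal property of the induced module. -/
noncomputable def lift (f : M →ₗ[MonoidAlgebra S D.Y] N) :
    KInd D S M →ₗ[MonoidAlgebra S E] N where
  toFun z := Finsupp.liftAddHom (fun w => (Module.toAddMonoidEnd (MonoidAlgebra S E) N
    (single (D.s w) (1 : S))).comp f.toAddMonoidHom) z
  map_add' x y := map_add _ x y
  map_smul' a z := by
    let L : KInd D S M →+ N := Finsupp.liftAddHom (fun w => (Module.toAddMonoidEnd
      (MonoidAlgebra S E) N (single (D.s w) (1 : S))).comp f.toAddMonoidHom)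
    have hL0 : ∀ w m, L (Finsupp.single w m : F →₀ M) =
        (single (D.s w) (1 : S) : MonoidAlgebra S E) • f m :=
      fun w m => Finsupp.liftAddHom_apply_single _ w m
    have hL : ∀ g m, L (sg S g m) = (single g (1 : S) : MonoidAlgebra S E) • f m := by
      intro g m
      unfold sg
      rw [hL0, map_smul, single_smul_eq, smul_smul, MonoidAlgebra.single_mul_single, D.s_y,
        mul_one]
    show L (a • z) = a • L z
    induction a using MonoidAlgebra.induction_linear with
    | zero => rw [zero_smul, zero_smul, map_zero]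
    | add x y hx hy => rw [add_smul, add_smul, map_add, hx, hy]
    | single g c =>
      induction z using KInd.induction with
      | h0 => rw [smul_zero, map_zero, smul_zero]
      | hadd x y hx hy => rw [smul_add, map_add, hx, hy, map_add, smul_add]
      | hs h m =>
        rw [single_smul_sg, hL, hL, map_smul, single_smul_eq, smul_smul, smul_smul,
          MonoidAlgebra.single_mul_single, MonoidAlgebra.single_mul_single]
        simp

theorem lift_sg (f : M →ₗ[MonoidAlgebra S D.Y] N) (g : E) (m : M) :
    lift f (sg S g m) = (single g (1 : S) : MonoidAlgebra S E) • f m := by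
  have hL0 : ∀ w m, lift f (Finsupp.single w m : F →₀ M) =
      (single (D.s w) (1 : S) : MonoidAlgebra S E) • f m :=
    fun w m => Finsupp.liftAddHom_apply_single _ w m
  unfold sg
  rw [hL0, map_smul, single_smul_eq, smul_smul, MonoidAlgebra.single_mul_single, D.s_y,
    mul_one]

omit [Module (MonoidAlgebra S D.Y) N] [ResMod D S N] in
theorem hom_ext {f f' : KInd D S M →ₗ[MonoidAlgebra S E] N}
    (h : ∀ m, f (sg S 1 m) = f' (sg S 1 m)) : f = f' := by
  refine LinearMap.ext (fun z => ?_)
  induction z using KInd.induction with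
  | h0 => rw [map_zero, map_zero]
  | hadd x y hx hy => rw [map_add, map_add, hx, hy]
  | hs g m =>
    have h1 : (sg S (D.s g) m : KInd D S M) =
        (single (D.s g) (1 : S) : MonoidAlgebra S E) • sg S 1 m := by
      rw [single_one_smul_sg, mul_one]
    rw [h1, map_smul, map_smul, h]

end

section

variable {D} {S : Type u} [Ring S] {X : Type u} [AddCommGroup X]
  [Module (MonoidAlgebra S D.Y) X] {Z : Type u} [AddCommGroup Z] [Module (MonoidAlgebra S D.Y) Z]

theorem single_smul_sg_one (y : D.Y) (c : S) (m : X) :
    (single y c : MonoidAlgebra S D.Y) • (sg S 1 m : KInd D S X) =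
      sg S 1 ((single y c : MonoidAlgebra S D.Y) • m) := by
  rw [single_smul_eq, single_smul_sg, mul_one]
  have h1 := sg_mul (S := S) (1 : E) y ((single (1 : D.Y) c : MonoidAlgebra S D.Y) • m)
  rw [one_mul] at h1
  rw [h1, smul_smul, MonoidAlgebra.single_mul_single, mul_one, one_mul]

/-- The map `y ↦ 1 ⊗ y`. -/
noncomputable def lsg (D : Split E F) (S : Type u) [Ring S] (Z : Type u) [AddCommGroup Z]
    [Module (MonoidAlgebra S D.Y) Z] : Z →ₗ[MonoidAlgebra S D.Y] KInd D S Z where
  toFun y := sg S 1 y
  map_add' := sg_add 1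
  map_smul' a z := by
    induction a using MonoidAlgebra.induction_linear with
    | zero => rw [zero_smul, sg_zero, RingHom.id_apply, zero_smul]
    | add x y hx hy =>
      rw [RingHom.id_apply] at hx hy ⊢
      rw [add_smul, sg_add, hx, hy, add_smul]
    | single g c => exact (single_smul_sg_one g c z).symm

theorem lsg_apply (y : Z) : lsg D S Z y = sg S 1 y := rfl

/-- Functoriality. -/
noncomputable def map (f : X →ₗ[MonoidAlgebra S D.Y] Z) :
    KInd D S X →ₗ[MonoidAlgebra S E] KInd D S Z :=
  lift ((lsg D S Z).comp f)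

@[simp] theorem map_sg (f : X →ₗ[MonoidAlgebra S D.Y] Z) (g : E) (x : X) :
    map f (sg S g x) = sg S g (f x) := by
  unfold map
  rw [lift_sg, LinearMap.comp_apply, lsg_apply, single_one_smul_sg, mul_one]

theorem coef_map (f : X →ₗ[MonoidAlgebra S D.Y] Z) (g : F) (z : KInd D S X) :
    coef g (map f z) = f (coef g z) := by
  classical
  induction z using KInd.induction with
  | h0 => rw [map_zero, map_zero, map_zero, map_zero]
  | hadd x y hx hy => rw [map_add, map_add, hx, hy, map_add, map_add]
  | hs h m =>
    rw [map_sg, coef_sg, coef_sg]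
    split_ifs
    · rfl
    · rw [map_zero]

theorem map_injective {f : X →ₗ[MonoidAlgebra S D.Y] Z} (hf : Function.Injective f) :
    Function.Injective (map f) := by
  intro x y h
  refine ext_coef (fun g => hf ?_)
  rw [← coef_map, ← coef_map, h]

theorem map_surjective {f : X →ₗ[MonoidAlgebra S D.Y] Z} (hf : Function.Surjective f) :
    Function.Surjective (map f) := by
  intro z
  induction z using KInd.induction with
  | h0 => exact ⟨0, map_zero _⟩
  | hadd x y hx hy =>
    obtain ⟨a, rfl⟩ := hx
    obtain ⟨b, rfl⟩ := hy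
    exact ⟨a + b, map_add _ _ _⟩
  | hs h m =>
    obtain ⟨x, rfl⟩ := hf m
    exact ⟨sg S (D.s h) x, map_sg _ _ _⟩

/-- `S[E] ⊗ ker f` is the kernel of `S[E] ⊗ f`. -/
theorem ker_map (f : X →ₗ[MonoidAlgebra S D.Y] Z) :
    Nonempty (KInd D S (LinearMap.ker f) ≃ₗ[MonoidAlgebra S E] LinearMap.ker (map f)) := by
  have h1 : LinearMap.range (map (LinearMap.ker f).subtype) = LinearMap.ker (map f) := by
    ext z
    rw [LinearMap.mem_range, LinearMap.mem_ker]
    constructor
    · rintro ⟨y, rfl⟩
      refine ext_coef (fun g => ?_)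
      rw [coef_map, coef_map, map_zero]
      exact (coef g y).2
    · intro hz
      have h2 : ∀ g, coef g z ∈ LinearMap.ker f := by
        intro g
        rw [LinearMap.mem_ker, ← coef_map, hz, map_zero]
      let y : KInd D S (LinearMap.ker f) :=
        (Finsupp.onFinset (Finsupp.support (z : F →₀ X)) (fun g => ⟨coef g z, h2 g⟩) (by
          intro g hg
          exact Finsupp.mem_support_iff.2 (fun h3 => hg (Subtype.ext h3))) :
          F →₀ LinearMap.ker f)
      refine ⟨y, ext_coef (fun g => ?_)⟩
      exact coef_map _ _ y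
  exact ⟨(LinearEquiv.ofInjective _ (map_injective (LinearMap.ker f).injective_subtype)).trans
    (LinearEquiv.ofEq _ _ h1)⟩

/-- Compatibility with products. -/
noncomputable def prodEquiv :
    KInd D S (X × Z) ≃ₗ[MonoidAlgebra S E] KInd D S X × KInd D S Z :=
  LinearEquiv.ofLinearMap
    (LinearMap.prod (map (LinearMap.fst _ X Z)) (map (LinearMap.snd _ X Z)))
    (LinearMap.coprod (map (LinearMap.inl _ X Z)) (map (LinearMap.inr _ X Z)))
    (by
      refine LinearMap.prod_ext (hom_ext fun x => ?_) (hom_ext fun y => ?_)
      · simp only [LinearMap.comp_apply, LinearMap.inl_apply, LinearMap.coprod_apply, map_sg,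
          map_zero, add_zero, LinearMap.prod_apply, Function.prod_apply, LinearMap.fst_apply,
          LinearMap.snd_apply, LinearMap.id_apply, sg_zero]
      · simp only [LinearMap.comp_apply, LinearMap.inr_apply, LinearMap.coprod_apply, map_sg,
          map_zero, zero_add, LinearMap.prod_apply, Function.prod_apply, LinearMap.fst_apply,
          LinearMap.snd_apply, LinearMap.id_apply, sg_zero])
    (by
      refine hom_ext fun z => ?_
      obtain ⟨x, y⟩ := z
      simp only [LinearMap.comp_apply, LinearMap.coprod_apply, map_sg,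
          LinearMap.prod_apply, Function.prod_apply, LinearMap.fst_apply,
          LinearMap.snd_apply, LinearMap.id_apply, LinearMap.inl_apply, LinearMap.inr_apply]
      rw [← sg_add, Prod.mk_add_mk, add_zero, zero_add])

end

end KInd

end Pool.Agent.NegK.H91
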