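import Pool.Agent.Lib.MP_28303a_al.NK.H91.KInd

/-! # Induced modules and resolutions; the Schanuel induction -/

set_option autoImplicit false
set_option linter.unusedSectionVars false

namespace Pool.Agent.NegK.H91

open MonoidAlgebra (single)
open Pool.Agent.NegK.H50 (Rep exists_rep cls_sum)

universe u

section

variable {E F : Type} [Group E] [Group F] {D : Split E F} {S : Type u} [Ring S]

theorem rep_kind {X : Type u} [AddCommGroup X] [Module (MonoidAlgebra S D.Y) X]
    {x : Idem (MonoidAlgebra S D.Y)} (h : Rep X x) : Rep (KInd D S X) (x.map (kinc D S)) := by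
  obtain ⟨α, β, h1, h2⟩ := h
  let L : KInd D S X →ₗ[MonoidAlgebra S E] (Fin x.n → MonoidAlgebra S E) :=
    letI : Module (MonoidAlgebra S D.Y) (Fin x.n → MonoidAlgebra S E) :=
      Module.compHom _ (kinc D S)
    haveI : ResMod D S (Fin x.n → MonoidAlgebra S E) := ⟨fun _ _ => rfl⟩
    KInd.lift
      { toFun := fun y i => kinc D S (α y i)
        map_add' := by
          intro y z
          funext i
          rw [map_add, Pi.add_apply, map_add]; rfl
        map_smul' := by
          intro s y
          funext i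
          rw [map_smul, Pi.smul_apply, smul_eq_mul, map_mul]; rfl }
  have hL : ∀ y, L (KInd.sg S 1 y) = fun i => kinc D S (α y i) := by
    let _ : Module (MonoidAlgebra S D.Y) (Fin x.n → MonoidAlgebra S E) :=
      Module.compHom _ (kinc D S)
    have _ : ResMod D S (Fin x.n → MonoidAlgebra S E) := ⟨fun _ _ => rfl⟩
    intro y
    show KInd.lift _ (KInd.sg S 1 y) = _
    rw [KInd.lift_sg, ← MonoidAlgebra.one_def, one_smul]
    rfl
  let b : (Fin x.n → MonoidAlgebra S E) →ₗ[MonoidAlgebra S E] KInd D S X :=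
    Fintype.linearCombination (MonoidAlgebra S E)
      (fun i => KInd.sg S (1 : E) (β (Pi.single i 1)))
  have hb : ∀ v, b v = ∑ i, v i • KInd.sg S (1 : E) (β (Pi.single i 1)) := fun v =>
    Fintype.linearCombination_apply _ _ v
  have hba : b ∘ₗ L = LinearMap.id := by
    refine KInd.hom_ext fun y => ?_
    rw [LinearMap.comp_apply, hL, hb, LinearMap.id_apply]
    have h3 : ∀ i, (kinc D S (α y i) : MonoidAlgebra S E) •
        (KInd.sg S (1 : E) (β (Pi.single i 1)) : KInd D S X) =
          KInd.lsg D S X (β (α y i • Pi.single i 1)) := by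
      intro i
      rw [map_smul, map_smul, ResMod.compat (D := D) (S := S)]
      rfl
    rw [Finset.sum_congr rfl (fun i _ => h3 i), ← map_sum, ← map_sum]
    have h4 : ∑ i, α y i • (Pi.single i (1 : MonoidAlgebra S D.Y) :
        Fin x.n → MonoidAlgebra S D.Y) = α y := by
      funext j
      simp [Finset.sum_apply, Pi.single_apply]
    rw [h4]
    have h5 : β (α y) = y := LinearMap.congr_fun h1 y
    rw [h5]
    rfl
  have hab : L ∘ₗ b = Matrix.toLinearMapRight' (x.e.map (kinc D S)) := by
    refine LinearMap.pi_ext' fun i => LinearMap.ext_ring ?_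
    rw [LinearMap.comp_apply, LinearMap.comp_apply, LinearMap.comp_apply,
      LinearMap.single_apply, hb]
    have h3 : ∑ j, (Pi.single i (1 : MonoidAlgebra S E) : Fin x.n → MonoidAlgebra S E) j •
        (KInd.sg S (1 : E) (β (Pi.single j 1)) : KInd D S X) =
          KInd.sg S (1 : E) (β (Pi.single i 1)) := by
      rw [Finset.sum_eq_single i]
      · rw [Pi.single_eq_same, one_smul]
      · intro j _ hj
        rw [Pi.single_eq_of_ne hj, zero_smul]
      · intro hi
        exact absurd (Finset.mem_univ i) hi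
    rw [h3, hL, Matrix.toLinearMapRight'_apply]
    funext j
    have h4 : α (β (Pi.single i 1)) = Matrix.vecMul (Pi.single i 1) x.e :=
      LinearMap.congr_fun h2 _
    rw [h4, Matrix.single_one_vecMul, Matrix.single_one_vecMul]
    rfl
  exact ⟨L, b, hba, hab⟩

theorem finite_kind {X : Type u} [AddCommGroup X] [Module (MonoidAlgebra S D.Y) X]
    (hX : Module.Finite (MonoidAlgebra S D.Y) X) :
    Module.Finite (MonoidAlgebra S E) (KInd D S X) := by
  obtain ⟨n, f, hf⟩ := Module.Finite.exists_fin' (MonoidAlgebra S D.Y) X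
  obtain ⟨p, hp⟩ := exists_rep (A := MonoidAlgebra S D.Y) (M := Fin n → MonoidAlgebra S D.Y)
    inferInstance inferInstance
  have h3 := (rep_kind hp).finite
  exact Module.Finite.of_surjective (KInd.map f) (KInd.map_surjective hf)

/-- Induction of resolutions. -/
theorem hasFPRes_kind {n : ℕ} : ∀ {X : Type u} [AddCommGroup X] [Module (MonoidAlgebra S D.Y) X],
    HasFPRes (MonoidAlgebra S D.Y) n X → HasFPRes (MonoidAlgebra S E) n (KInd D S X) := by
  induction n with
  | zero =>
    intro X _ _ h
    obtain ⟨h1, h2⟩ := h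
    obtain ⟨p, hp⟩ := exists_rep h1 h2
    exact ⟨(rep_kind hp).finite, (rep_kind hp).projective⟩
  | succ n ih =>
    intro X _ _ h
    obtain ⟨P, _, _, f, h1, h2, h3, h4⟩ := h
    obtain ⟨p, hp⟩ := exists_rep h1 h2
    obtain ⟨e⟩ := KInd.ker_map f
    exact ⟨KInd D S P, _, _, KInd.map f, (rep_kind hp).finite, (rep_kind hp).projective,
      KInd.map_surjective h3, (ih h4).congr e⟩

/-- The Schanuel induction. -/
theorem schanuel_kind (n : ℕ) : ∀ (X Y : Type u) [AddCommGroup X]
    [Module (MonoidAlgebra S D.Y) X] [AddCommGroup Y] [Module (MonoidAlgebra S D.Y) Y],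
    HasFPRes (MonoidAlgebra S D.Y) n X → HasFPRes (MonoidAlgebra S D.Y) n Y →
    ∀ (P : Type u) [AddCommGroup P] [Module (MonoidAlgebra S E) P] (p : Idem (MonoidAlgebra S E)),
      Rep P p → Nonempty (KInd D S Y ≃ₗ[MonoidAlgebra S E] KInd D S X × P) →
      K0.cls p ∈ (K0.map (kinc D S)).range := by
  induction n with
  | zero =>
    intro X Y _ _ _ _ hX hY P _ _ p hp he
    obtain ⟨hX1, hX2⟩ := hX
    obtain ⟨hY1, hY2⟩ := hY
    obtain ⟨e⟩ := he
    obtain ⟨x, hx⟩ := exists_rep hX1 hX2
    obtain ⟨y, hy⟩ := exists_rep hY1 hY2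
    have h1 := (rep_kind hy).cls_eq ((rep_kind hx).prod hp) e
    rw [cls_sum] at h1
    refine ⟨K0.cls y - K0.cls x, ?_⟩
    rw [map_sub, K0.map_cls, K0.map_cls, h1, add_sub_cancel_left]
  | succ n ih =>
    intro X Y _ _ _ _ hX hY P _ _ p hp he
    obtain ⟨e⟩ := he
    obtain ⟨FX, _, _, f, hf1, hf2, hf3, hf4⟩ := hX
    obtain ⟨FY, _, _, g, hg1, hg2, hg3, hg4⟩ := hY
    obtain ⟨x, hx⟩ := exists_rep hf1 hf2
    obtain ⟨y, hy⟩ := exists_rep hg1 hg2
    have hPX : Module.Projective (MonoidAlgebra S E) (KInd D S FX × P) :=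
      ((rep_kind hx).prod hp).projective
    have hPY : Module.Projective (MonoidAlgebra S E) (KInd D S FY) :=
      (rep_kind hy).projective
    let F' : KInd D S FX × P →ₗ[MonoidAlgebra S E] KInd D S X × P :=
      (KInd.map f).prodMap LinearMap.id
    let K : KInd D S FY →ₗ[MonoidAlgebra S E] KInd D S X × P := e.toLinearMap ∘ₗ (KInd.map g)
    have hF : Function.Surjective F' := by
      rintro ⟨a, b⟩
      obtain ⟨c, rfl⟩ := KInd.map_surjective hf3 a
      exact ⟨(c, b), rfl⟩
    have hK : Function.Surjective K := e.surjective.comp (KInd.map_surjective hg3)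
    obtain ⟨e1⟩ := schanuel hPX hPY F' K hF hK
    have eK : LinearMap.ker K = LinearMap.ker (KInd.map g) := LinearEquiv.ker_comp _ _
    obtain ⟨eY⟩ := KInd.ker_map g
    obtain ⟨eX⟩ := KInd.ker_map f
    have eF : LinearMap.ker (KInd.map f) ≃ₗ[MonoidAlgebra S E] LinearMap.ker F' :=
      { toFun := fun z => ⟨((z : KInd D S FX), 0), by
          have := z.2
          rw [LinearMap.mem_ker] at this ⊢
          exact Prod.ext this rfl⟩
        invFun := fun z => ⟨(z : KInd D S FX × P).1, by
          have := z.2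
          rw [LinearMap.mem_ker] at this ⊢
          exact congrArg Prod.fst this⟩
        map_add' := fun x y => Subtype.ext (Prod.ext rfl (add_zero (0 : P)).symm)
        map_smul' := fun r x => Subtype.ext (Prod.ext rfl (smul_zero (A := P) r).symm)
        left_inv := fun x => rfl
        right_inv := fun x => by
          refine Subtype.ext (Prod.ext rfl ?_)
          have := x.2
          rw [LinearMap.mem_ker] at this
          exact (congrArg Prod.snd this).symm }
    refine ih (LinearMap.ker g × FX) (LinearMap.ker f × FY) (hg4.prod hf1 hf2)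
      (hf4.prod hg1 hg2) P p hp ⟨?_⟩
    have e2 : KInd D S (LinearMap.ker f × FY) ≃ₗ[MonoidAlgebra S E]
        LinearMap.ker F' × KInd D S FY :=
      KInd.prodEquiv.trans (LinearEquiv.prodCongr (eX.trans eF) (LinearEquiv.refl _ _))
    have e3 : KInd D S (LinearMap.ker g × FX) ≃ₗ[MonoidAlgebra S E]
        LinearMap.ker K × KInd D S FX :=
      KInd.prodEquiv.trans (LinearEquiv.prodCongr (eY.trans (LinearEquiv.ofEq _ _ eK.symm))
        (LinearEquiv.refl _ _))
    exact (e2.trans e1.symm).trans ((LinearEquiv.prodAssoc (MonoidAlgebra S E) _ _ _).symm.trans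
      (LinearEquiv.prodCongr e3.symm (LinearEquiv.refl _ _)))

end

end Pool.Agent.NegK.H91
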