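import Pool.Agent.Lib.MP_28303a_al.NK.H91.KCoh

/-! # The geometric step over a coherent ring: `K₀` of the kernel ring maps onto `K₀` -/

set_option autoImplicit false
set_option linter.unusedSectionVars false

namespace Pool.Agent.NegK.H91

open MonoidAlgebra (single)

universe u

section Loc

variable {A : Type u} [Ring A]

/-- Finitely generated submodules have finite resolutions. -/
def Loc (A : Type u) [Ring A] (M : Type u) [AddCommGroup M] [Module A M] : Prop :=
  ∀ V : Submodule A M, V.FG → ∃ m, HasFPRes A m V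

theorem Loc.of_injective {M M' : Type u} [AddCommGroup M] [Module A M] [AddCommGroup M']
    [Module A M'] (f : M →ₗ[A] M') (hf : Function.Injective f) (h : Loc A M') : Loc A M := by
  intro V hV
  obtain ⟨m, hm⟩ := h (V.map f) (hV.map f)
  exact ⟨m, hm.congr (Submodule.equivMapOfInjective f hf V).symm⟩

theorem HasFPRes.fin {n : ℕ} {M : Type u} [AddCommGroup M] [Module A M] (h : HasFPRes A n M) :
    Module.Finite A M := by
  cases n with
  | zero => exact h.1
  | succ n =>
    obtain ⟨P, _, _, f, h1, _, h3, _⟩ := h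
    exact Module.Finite.of_surjective f h3

/-- Coherence. -/
theorem Loc.inf {M : Type u} [AddCommGroup M] [Module A M] (h : Loc A M) {V V' : Submodule A M}
    (hV : V.FG) (hV' : V'.FG) : (V ⊓ V').FG := by
  have i1 : Module.Finite A V := Module.Finite.iff_fg.2 hV
  have i2 : Module.Finite A V' := Module.Finite.iff_fg.2 hV'
  obtain ⟨a, f, hf⟩ := Module.Finite.exists_fin' A V
  obtain ⟨b, g, hg⟩ := Module.Finite.exists_fin' A V'
  obtain ⟨m, hm⟩ := h (V ⊔ V') (hV.sup hV')
  let F : (Fin a → A) × (Fin b → A) →ₗ[A] ↥(V ⊔ V') :=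
    LinearMap.coprod ((Submodule.inclusion le_sup_left) ∘ₗ f)
      ((Submodule.inclusion le_sup_right) ∘ₗ g)
  have hF : ∀ x y, ((F (x, y) : ↥(V ⊔ V')) : M) = (f x : M) + (g y : M) := fun _ _ => rfl
  have hFs : Function.Surjective F := by
    rintro ⟨z, hz⟩
    obtain ⟨v, hv, v', hv', rfl⟩ := Submodule.mem_sup.1 hz
    obtain ⟨x, hx⟩ := hf ⟨v, hv⟩
    obtain ⟨y, hy⟩ := hg ⟨v', hv'⟩
    exact ⟨(x, y), Subtype.ext (by rw [hF, hx, hy])⟩
  have h1 := HasFPRes.syz (P := (Fin a → A) × (Fin b → A)) inferInstance inferInstance F hFs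
    (H50.HasFPRes.succ hm)
  have h2 : Module.Finite A (LinearMap.ker F) := HasFPRes.fin h1
  let φ : LinearMap.ker F →ₗ[A] M :=
    V.subtype ∘ₗ f ∘ₗ (LinearMap.fst A (Fin a → A) (Fin b → A)) ∘ₗ (LinearMap.ker F).subtype
  have h3 : LinearMap.range φ = V ⊓ V' := by
    refine le_antisymm ?_ ?_
    · rintro _ ⟨⟨⟨x, y⟩, hxy⟩, rfl⟩
      have h4 : (f x : M) + (g y : M) = 0 := by
        rw [← hF, LinearMap.mem_ker.1 hxy]; rfl
      refine ⟨(f x).2, ?_⟩
      show (f x : M) ∈ V'
      rw [eq_neg_of_add_eq_zero_left h4]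
      exact V'.neg_mem (g y).2
    · rintro v ⟨hv, hv'⟩
      obtain ⟨x, hx⟩ := hf ⟨v, hv⟩
      obtain ⟨y, hy⟩ := hg ⟨-v, V'.neg_mem hv'⟩
      refine ⟨⟨(x, y), ?_⟩, ?_⟩
      · rw [LinearMap.mem_ker]
        exact Subtype.ext (by rw [hF, hx, hy]; exact add_neg_cancel v)
      · show (f x : M) = v
        rw [hx]
  rw [← h3]
  exact Module.Finite.iff_fg.1 (Module.Finite.range φ)

theorem RC.of_injective (hA : RC A) {M : Type u} [AddCommGroup M] [Module A M]
    (hM : Module.Finite A M) {ι : Type} [Finite ι] (f : M →ₗ[A] (ι → A))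
    (hf : Function.Injective f) : ∃ m, HasFPRes A m M := by
  obtain ⟨n, ⟨e⟩⟩ := Finite.exists_equiv_fin ι
  let g : M →ₗ[A] (Fin n → A) := (LinearEquiv.funCongrLeft A A e.symm).toLinearMap ∘ₗ f
  have hg : Function.Injective g :=
    (LinearEquiv.funCongrLeft A A e.symm).injective.comp hf
  obtain ⟨m, hm⟩ := hA n (LinearMap.range g) (Module.Finite.iff_fg.1 (Module.Finite.range g))
  exact ⟨m, hm.congr (LinearEquiv.ofInjective g hg).symm⟩

end Loc

section Cut

variable {E F : Type} [Group E] [Group F] {D : Split E F} {S : Type u} [Ring S]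

/-- The underlying element of the group ring. -/
def toMA (f : Res D S (MonoidAlgebra S E)) : MonoidAlgebra S E := f

theorem single_smul_res (y : D.Y) (c : S) (f : Res D S (MonoidAlgebra S E)) :
    toMA ((single y c : MonoidAlgebra S D.Y) • f) = single (y : E) c * toMA f := by
  rw [KInd.single_smul_eq]; rfl

/-- The part of an element of the group ring on one coset. -/
noncomputable def kap (D : Split E F) (S : Type u) [Ring S] (w : F) :
    Res D S (MonoidAlgebra S E) →ₗ[MonoidAlgebra S D.Y] MonoidAlgebra S D.Y where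
  toFun f := MonoidAlgebra.ofCoeff (Finsupp.comapDomain (fun y : D.Y => (y : E) * D.s w)
    (MonoidAlgebra.coeff f) (fun y _ y' _ h => Subtype.ext (mul_right_cancel h)))
  map_add' f g := by
    refine MonoidAlgebra.ext (Finsupp.ext fun y => ?_)
    rfl
  map_smul' a f := by
    induction a using MonoidAlgebra.induction_linear with
    | zero =>
      rw [zero_smul, RingHom.id_apply, zero_smul]
      refine MonoidAlgebra.ext (Finsupp.ext fun y => ?_)
      rfl
    | add x y hx hy =>
      rw [RingHom.id_apply] at hx hy ⊢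
      rw [add_smul, add_smul, ← hx, ← hy]
      refine MonoidAlgebra.ext (Finsupp.ext fun y => ?_)
      rfl
    | single y0 c =>
      refine MonoidAlgebra.ext (Finsupp.ext fun y => ?_)
      rw [RingHom.id_apply]
      show (toMA ((single y0 c : MonoidAlgebra S D.Y) • f)).coeff
        (y * D.s w) = ((single y0 c : MonoidAlgebra S D.Y) * _).coeff y
      rw [MonoidAlgebra.coeff_single_mul_apply, single_smul_res,
        MonoidAlgebra.coeff_single_mul_apply]
      show c * (MonoidAlgebra.coeff (toMA f)) ((y0 : E)⁻¹ * (y * D.s w)) =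
        c * (MonoidAlgebra.coeff (toMA f)) (((y0⁻¹ * y : D.Y) : E) * D.s w)
      rw [← mul_assoc]
      rfl

theorem kap_coeff (w : F) (f : Res D S (MonoidAlgebra S E)) (y : D.Y) :
    (kap D S w f).coeff y = (MonoidAlgebra.coeff f) ((y : E) * D.s w) := rfl

/-- Finitely generated submodules of free modules over the big ring. -/
theorem loc_emb (hA : RC (MonoidAlgebra S D.Y)) {M : Type u} [AddCommGroup M]
    [Module (MonoidAlgebra S D.Y) M] {ι : Type} [Finite ι]
    (f : ι → M →ₗ[MonoidAlgebra S D.Y] Res D S (MonoidAlgebra S E))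
    (hf : ∀ m, (∀ i, f i m = 0) → m = 0) : Loc (MonoidAlgebra S D.Y) M := by
  classical
  have : Fintype ι := Fintype.ofFinite ι
  intro V hV
  obtain ⟨T, hT⟩ := hV
  let Φ : Finset F := T.biUnion fun t => Finset.univ.biUnion fun i =>
    (MonoidAlgebra.coeff (f i t : MonoidAlgebra S E)).support.image D.π
  have hΦ : ∀ v ∈ V, ∀ (i : ι) (e : E), D.π e ∉ Φ →
      (MonoidAlgebra.coeff (f i v : MonoidAlgebra S E)) e = 0 := by
    intro v hv
    rw [← hT] at hv
    refine Submodule.span_induction ?_ ?_ ?_ ?_ hv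
    · intro t ht i e he
      by_contra hne
      refine he (Finset.mem_biUnion.2 ⟨t, ht, Finset.mem_biUnion.2 ⟨i, Finset.mem_univ i, ?_⟩⟩)
      exact Finset.mem_image.2 ⟨e, Finsupp.mem_support_iff.2 hne, rfl⟩
    · intro i e _
      rw [map_zero]; rfl
    · intro x y _ _ hx hy i e he
      rw [map_add]
      show (MonoidAlgebra.coeff (f i x : MonoidAlgebra S E)) e +
        (MonoidAlgebra.coeff (f i y : MonoidAlgebra S E)) e = 0
      rw [hx i e he, hy i e he, add_zero]
    · intro a x _ hx i e he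
      rw [map_smul]
      have h1 : ∀ a : MonoidAlgebra S D.Y, (MonoidAlgebra.coeff
          (toMA (a • f i x))) e = 0 := by
        intro a
        induction a using MonoidAlgebra.induction_linear with
        | zero => rw [zero_smul]; rfl
        | add b c hb hc =>
          rw [add_smul]
          show (MonoidAlgebra.coeff (toMA (b • f i x))) e +
            (MonoidAlgebra.coeff (toMA (c • f i x))) e = 0
          rw [hb, hc, add_zero]
        | single y c =>
          rw [single_smul_res, MonoidAlgebra.coeff_single_mul_apply]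
          have h3 : D.π ((y : E)⁻¹ * e) ∉ Φ := by
            have h4 : D.π (y : E) = 1 := y.2
            rw [map_mul, map_inv, h4, inv_one, one_mul]
            exact he
          have h5 : (MonoidAlgebra.coeff (toMA (f i x))) ((y : E)⁻¹ * e) = 0 := hx i _ h3
          rw [h5, mul_zero]
      exact h1 a
  let g : V →ₗ[MonoidAlgebra S D.Y] (ι × Φ → MonoidAlgebra S D.Y) :=
    LinearMap.pi fun q => (kap D S (q.2 : F)) ∘ₗ (f q.1) ∘ₗ V.subtype
  have hg : Function.Injective g := by
    rw [injective_iff_map_eq_zero]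
    intro v hv
    refine Subtype.ext (hf _ fun i => ?_)
    refine MonoidAlgebra.ext (Finsupp.ext fun e => ?_)
    show (MonoidAlgebra.coeff (f i v : MonoidAlgebra S E)) e = 0
    by_cases he : D.π e ∈ Φ
    · have h1 := congrFun hv (i, ⟨D.π e, he⟩)
      have h2 : kap D S (D.π e) (f i v) = 0 := h1
      have h3 : D.π (e * (D.s (D.π e))⁻¹) = 1 := by
        rw [map_mul, map_inv, D.hs, mul_inv_cancel]
      have h4 := kap_coeff (D.π e) (f i v) ⟨e * (D.s (D.π e))⁻¹, h3⟩
      rw [h2] at h4
      have h5 : ((⟨e * (D.s (D.π e))⁻¹, h3⟩ : D.Y) : E) * D.s (D.π e) = e :=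
        inv_mul_cancel_right _ _
      rw [h5] at h4
      exact h4.symm
    · exact hΦ v v.2 i e he
  exact RC.of_injective hA (Module.Finite.iff_fg.2 ⟨T, hT⟩) g hg

end Cut

section Geo

variable {E : Type} [Group E] {k : ℕ} {D : Split E (FreeGroup (Fin k))} {S : Type u} [Ring S]
  {P : Type u} [AddCommGroup P] [Module (MonoidAlgebra S E) P] [Module (MonoidAlgebra S D.Y) P]
  [ResMod D S P]

/-- The geometric step. -/
theorem geometric (hL : Loc (MonoidAlgebra S D.Y) P)
    (hP1 : Module.Finite (MonoidAlgebra S E) P) (hP2 : Module.Projective (MonoidAlgebra S E) P) :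
    ∃ V : Submodule (MonoidAlgebra S D.Y) P, V.FG ∧ (QQ D.s V).FG ∧
      Nonempty (KInd D S V ≃ₗ[MonoidAlgebra S E] KInd D S (QQ D.s V) × P) := by
  have hgen : ∀ e : E, ∃ (w : FreeGroup (Fin k)) (y : D.Y), e = D.s w * y :=
    fun e => ⟨D.π e, D.y e, (D.s_y e).symm⟩
  have hC : Count D D.s := count_of D D.s id Function.injective_id
    (fun i => D.hs (FreeGroup.of i))
  obtain ⟨T, hT⟩ := hP1.fg_top
  let V0 : Submodule (MonoidAlgebra S D.Y) P := Submodule.span _ (T : Set P)
  have hV0 : V0.FG := ⟨T, rfl⟩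
  have hsurj0 : ∀ V : Submodule (MonoidAlgebra S D.Y) P, V0 ≤ V →
      Function.Surjective (eps V) := by
    intro V hV
    rw [← LinearMap.range_eq_top, ← top_le_iff, ← hT, Submodule.span_le]
    intro t ht
    refine ⟨KInd.sg S 1 ⟨t, hV (Submodule.subset_span ht)⟩, ?_⟩
    rw [eps_sg, ga_one]
  have hfin : Module.Finite (MonoidAlgebra S E) (KInd D S V0) :=
    finite_kind (Module.Finite.iff_fg.2 hV0)
  obtain ⟨e0⟩ := exists_splitEquiv hP2 (eps V0) (hsurj0 V0 le_rfl)
  have hK : Module.Finite (MonoidAlgebra S E) (LinearMap.ker (eps V0)) :=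
    Module.Finite.of_surjective
      (LinearMap.fst (MonoidAlgebra S E) (LinearMap.ker (eps V0)) P ∘ₗ e0.toLinearMap)
      (fun y => by
        obtain ⟨x, hx⟩ := e0.surjective (y, 0)
        exact ⟨x, congrArg Prod.fst hx⟩)
  obtain ⟨U, hU⟩ := Module.Finite.iff_fg.1 hK
  have h1 : ∃ n, ∀ z ∈ U, KInd.map V0.subtype z ∈ relS D.s (VV D.s V0 n) := by
    have h2 : ∀ z ∈ U, ∃ n, KInd.map V0.subtype z ∈ relS D.s (VV D.s V0 n) := by
      intro z hz
      obtain ⟨n, hn⟩ := ker_step D.s hgen V0 z
      have hz' : eps V0 z = 0 := by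
        have h3 : z ∈ LinearMap.ker (eps V0) := hU ▸ Submodule.subset_span hz
        exact h3
      rw [hz', KInd.sg_zero, zero_sub] at hn
      exact ⟨n, by simpa using (relS D.s (VV D.s V0 n)).neg_mem hn⟩
    choose! n hn using h2
    refine ⟨U.sup n, fun z hz => ?_⟩
    exact relS_mono D.s (VV_mono D.s V0 (Finset.le_sup hz)) (hn z hz)
  obtain ⟨n, hn⟩ := h1
  have hker : ∀ z, eps V0 z = 0 → KInd.map V0.subtype z ∈ relS D.s (VV D.s V0 n) := by
    intro z hz
    have h2 : z ∈ Submodule.span (MonoidAlgebra S E) (U : Set (KInd D S V0)) := by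
      rw [hU]; exact hz
    have h3 : Submodule.span (MonoidAlgebra S E) (U : Set (KInd D S V0)) ≤
        (relS D.s (VV D.s V0 n)).comap (KInd.map V0.subtype) :=
      Submodule.span_le.2 (fun z hz => hn z hz)
    exact h3 h2
  let V : Submodule (MonoidAlgebra S D.Y) P := VV D.s V0 n
  have hVfg : V.FG := VV_fg D.s hV0 n
  have hle : V0 ≤ V := VV_mono D.s V0 (Nat.zero_le n)
  refine ⟨V, hVfg, ?_, ?_⟩
  · exact Submodule.fg_pi fun j => hL.inf hVfg (tr_fg _ hVfg)
  · obtain ⟨e⟩ := exists_splitEquiv hP2 (eps V) (hsurj0 V hle)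
    have hrange : LinearMap.range (theta D.s V) = LinearMap.ker (eps V) :=
      le_antisymm (range_theta_le D.s V) (ker_eps_le D.s V0 n hker)
    exact ⟨e.trans (LinearEquiv.prodCongr ((LinearEquiv.ofInjective _
      (theta_injective D.s hC V)).trans (LinearEquiv.ofEq _ _ hrange)).symm
        (LinearEquiv.refl _ _))⟩

end Geo

/-- T1: `K₀` of the ring of the kernel maps onto `K₀`. -/
theorem surj_ker {E : Type} [Group E] {k : ℕ} (D : Split E (FreeGroup (Fin k))) {S : Type u}
    [Ring S] (hA : RC (MonoidAlgebra S D.Y)) :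
    Function.Surjective (K0.map (kinc D S)) := by
  intro z
  refine H50.K0_eq_top (H := (K0.map (kinc D S)).range) (fun p => ?_) z
  let P0 := LinearMap.range (Matrix.toLinearMapRight' p.e)
  have hp0 : H50.Rep P0 p := H50.rep_range p
  have hp : H50.Rep (Res D S P0) p := hp0
  -- the coordinates
  let f : Fin p.n → Res D S P0 →ₗ[MonoidAlgebra S D.Y] Res D S (MonoidAlgebra S E) := fun i =>
    { toFun := fun v => (v : P0).1 i
      map_add' := fun v w => rfl
      map_smul' := fun a v => rfl }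
  have hf : ∀ v : Res D S P0, (∀ i, f i v = 0) → v = 0 := by
    intro v hv
    have h1 : (v : P0) = 0 := Subtype.ext (funext fun i => hv i)
    exact h1
  have hL : Loc (MonoidAlgebra S D.Y) (Res D S P0) := loc_emb hA f hf
  have hLk : Loc (MonoidAlgebra S D.Y) (Fin k → Res D S P0) := by
    refine loc_emb hA (ι := Fin k × Fin p.n) (fun q => (f q.2) ∘ₗ (LinearMap.proj q.1)) ?_
    intro m hm
    exact funext fun j => hf _ fun i => hm (j, i)
  obtain ⟨V, hV, hQ, ⟨e⟩⟩ := geometric (D := D) (S := S) (P := Res D S P0) hL hp.finite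
    hp.projective
  obtain ⟨a, ha⟩ := hL V hV
  obtain ⟨b, hb⟩ := hLk (QQ D.s V) hQ
  exact schanuel_kind (max b a) (QQ D.s V) V (H50.HasFPRes.mono (le_max_left _ _) hb)
    (H50.HasFPRes.mono (le_max_right _ _) ha) (Res D S P0) p hp ⟨e⟩

end Pool.Agent.NegK.H91
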