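import Pool.Agent.Lib.MP_28303a_al.NK.H91.KGeo
import Pool.Agent.Lib.MP_28303a_al.NK.H64.Kfree
import Pool.Agent.Lib.MP_28303a_al.NK.H50.Free

/-! # Transfer along ring isomorphisms, counting functions, letters -/

set_option autoImplicit false
set_option linter.unusedSectionVars false

namespace Pool.Agent.NegK.H91

open MonoidAlgebra (single)

universe u

section Transfer

variable {A B : Type u} [Ring A] [Ring B] (σ : A ≃+* B)

theorem finite_transfer {M M' : Type u} [AddCommGroup M] [Module A M] [AddCommGroup M']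
    [Module B M'] (φ : M ≃+ M') (hφ : ∀ (a : A) (m : M), φ (a • m) = σ a • φ m)
    (h : Module.Finite A M) : Module.Finite B M' := by
  have i1 : RingHomSurjective (σ : A →+* B) := ⟨σ.surjective⟩
  let f : M →ₛₗ[(σ : A →+* B)] M' :=
    { toFun := φ
      map_add' := map_add φ
      map_smul' := hφ }
  exact Module.Finite.of_surjective f φ.surjective

theorem projective_transfer {M M' : Type u} [AddCommGroup M] [Module A M] [AddCommGroup M']
    [Module B M'] (φ : M ≃+ M') (hφ : ∀ (a : A) (m : M), φ (a • m) = σ a • φ m)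
    (h : Module.Projective A M) : Module.Projective B M' := by
  have i1 : RingHomInvPair (σ : A →+* B) (σ.symm : B →+* A) := RingHomInvPair.of_ringEquiv σ
  have i2 : RingHomInvPair (σ.symm : B →+* A) (σ : A →+* B) := RingHomInvPair.symm _ _
  let f : M ≃ₛₗ[(σ : A →+* B)] M' :=
    { φ with
      map_smul' := hφ }
  exact Module.Projective.of_equiv f

theorem hasFPRes_transfer (n : ℕ) : ∀ {M M' : Type u} [AddCommGroup M] [Module A M]
    [AddCommGroup M'] [Module B M'] (φ : M ≃+ M') (_ : ∀ (a : A) (m : M), φ (a • m) = σ a • φ m),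
    HasFPRes A n M → HasFPRes B n M' := by
  induction n with
  | zero =>
    intro M M' _ _ _ _ φ hφ h
    exact ⟨finite_transfer σ φ hφ h.1, projective_transfer σ φ hφ h.2⟩
  | succ n ih =>
    intro M M' _ _ _ _ φ hφ h
    obtain ⟨P, iP, jP, f, h1, h2, h3, h4⟩ := h
    let jB : Module B P := Module.compHom P (σ.symm : B →+* A)
    have hs : ∀ (b : B) (p : P), b • p = σ.symm b • p := fun _ _ => rfl
    have hid : ∀ (a : A) (p : P), AddEquiv.refl P (a • p) = σ a • AddEquiv.refl P p := by
      intro a p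
      rw [hs, RingEquiv.symm_apply_apply]
      rfl
    let f' : P →ₗ[B] M' :=
      { toFun := fun p => φ (f p)
        map_add' := fun p q => by rw [map_add, map_add]
        map_smul' := fun b p => by
          rw [hs, map_smul, hφ, RingEquiv.apply_symm_apply, RingHom.id_apply] }
    have hf' : ∀ p, f' p = φ (f p) := fun _ => rfl
    refine ⟨P, iP, jB, f', finite_transfer σ (AddEquiv.refl P) hid h1,
      projective_transfer σ (AddEquiv.refl P) hid h2, fun m => ?_, ?_⟩
    · obtain ⟨p, hp⟩ := h3 (φ.symm m)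
      exact ⟨p, by rw [hf', hp, AddEquiv.apply_symm_apply]⟩
    · let ψ : LinearMap.ker f ≃+ LinearMap.ker f' :=
        { toFun := fun x => ⟨x.1, by
            have := x.2
            rw [LinearMap.mem_ker] at this ⊢
            rw [hf', this, map_zero]⟩
          invFun := fun x => ⟨x.1, by
            have := x.2
            rw [LinearMap.mem_ker, hf'] at this
            rw [LinearMap.mem_ker]
            exact (map_eq_zero_iff φ φ.injective).1 this⟩
          left_inv := fun x => rfl
          right_inv := fun x => rfl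
          map_add' := fun x y => rfl }
      refine ih ψ (fun a m => Subtype.ext ?_) h4
      exact hid a m.1

include σ in
theorem regularRing_transfer (h : RegularRing A) : RegularRing B := by
  obtain ⟨h1, h2⟩ := h
  have h1' : IsNoetherianRing A := h1
  refine ⟨isNoetherianRing_of_ringEquiv A σ, fun M _ _ hM => ?_⟩
  let jA : Module A M := Module.compHom M (σ : A →+* B)
  have hs : ∀ (a : A) (m : M), a • m = σ a • m := fun _ _ => rfl
  have h3 : Module.Finite A M := by
    refine finite_transfer σ.symm (AddEquiv.refl M) (fun b m => ?_) hM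
    rw [hs, RingEquiv.apply_symm_apply]
    rfl
  obtain ⟨n, hn⟩ := h2 M h3
  exact ⟨n, hasFPRes_transfer σ n (AddEquiv.refl M) (fun a m => rfl) hn⟩

end Transfer

/-- Finitely generated submodules of free modules have finite resolutions. -/
def RC (A : Type u) [Ring A] : Prop :=
  ∀ (n : ℕ) (W : Submodule A (Fin n → A)), W.FG → ∃ m, HasFPRes A m W

/-- A counting function on a free group: it changes exactly along one edge of the Cayley tree. -/
theorem exists_count {X : Type} (h : FreeGroup X) (j : X) :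
    ∃ c : FreeGroup X → ℤ, ∀ (g : FreeGroup X) (i : X),
      c (g * FreeGroup.of i) = c g + (open Classical in if g = h ∧ i = j then 1 else 0) := by
  classical
  let δ : FreeGroup X → X → ℤ := fun g i => if g = h ∧ i = j then 1 else 0
  let π : X → Equiv.Perm (ℤ × FreeGroup X) := fun i =>
    { toFun := fun x => (x.1 + δ x.2 i, x.2 * FreeGroup.of i)
      invFun := fun x => (x.1 - δ (x.2 * (FreeGroup.of i)⁻¹) i, x.2 * (FreeGroup.of i)⁻¹)
      left_inv := by
        rintro ⟨m, g⟩
        simp only [mul_inv_cancel_right, add_sub_cancel_right]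
      right_inv := by
        rintro ⟨m, g⟩
        simp only [inv_mul_cancel_right, sub_add_cancel] }
  let Φ : FreeGroup X →* Equiv.Perm (ℤ × FreeGroup X) :=
    FreeGroup.lift (fun i => (π i)⁻¹)
  have hΦ : ∀ i, Φ (FreeGroup.of i) = (π i)⁻¹ := fun i => FreeGroup.lift_apply_of
  have h2 : ∀ g : FreeGroup X, ∀ y, ((Φ g)⁻¹ y).2 = y.2 * g := by
    intro g
    induction g using FreeGroup.induction_on with
    | C1 => intro y; rw [map_one, inv_one, Equiv.Perm.one_apply, mul_one]
    | of i =>
      intro y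
      rw [hΦ, inv_inv]; rfl
    | inv_of i _ =>
      intro y
      rw [map_inv, hΦ, inv_inv]; rfl
    | mul a b ha hb =>
      intro y
      rw [map_mul, mul_inv_rev, Equiv.Perm.mul_apply, hb, ha, mul_assoc]
  refine ⟨fun g => ((Φ g)⁻¹ (0, 1)).1, fun g i => ?_⟩
  show ((Φ (g * FreeGroup.of i))⁻¹ (0, 1)).1 = _
  rw [map_mul, mul_inv_rev, Equiv.Perm.mul_apply, hΦ, inv_inv]
  have h3 : ((Φ g)⁻¹ (0, 1)).2 = g := by rw [h2, one_mul]
  show ((Φ g)⁻¹ (0, 1)).1 + δ ((Φ g)⁻¹ (0, 1)).2 i = _
  rw [h3]

/-- Counting functions exist if the letters go to different letters. -/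
theorem count_of {E X : Type} [Group E] (D : Split E (FreeGroup X)) {k : ℕ}
    (ξ : FreeGroup (Fin k) →* E) (ι : Fin k → X) (hι : Function.Injective ι)
    (hξ : ∀ i, D.π (xg ξ i) = FreeGroup.of (ι i)) : Count D ξ := by
  classical
  intro h j
  obtain ⟨c, hc⟩ := exists_count h (ι j)
  refine ⟨c, fun g i => ?_⟩
  rw [hξ, hc]
  congr 1
  by_cases h1 : g = h
  · by_cases h2 : i = j
    · simp [h1, h2]
    · have h3 : ι i ≠ ι j := fun h4 => h2 (hι h4)
      simp [h2, h3]
  · simp [h1]

/-- The inclusion of the free group on some letters. -/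
def inclL {X : Type} (Λ : Finset X) : FreeGroup Λ →* FreeGroup X := FreeGroup.map Subtype.val

theorem letters {X : Type} (w : FreeGroup X) :
    ∃ Λ : Finset X, ∀ Λ', Λ ⊆ Λ' → w ∈ (inclL Λ').range := by
  classical
  have h1 : ∀ x : X, ∀ Λ' : Finset X, {x} ⊆ Λ' → FreeGroup.of x ∈ (inclL Λ').range := by
    intro x Λ' h
    exact ⟨FreeGroup.of ⟨x, h (Finset.mem_singleton_self x)⟩, FreeGroup.map.of⟩
  induction w using FreeGroup.induction_on with
  | C1 => exact ⟨∅, fun Λ' _ => Subgroup.one_mem _⟩
  | of x => exact ⟨{x}, h1 x⟩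
  | inv_of x _ => exact ⟨{x}, fun Λ' h => Subgroup.inv_mem _ (h1 x Λ' h)⟩
  | mul a b ha hb =>
    obtain ⟨Λ, hΛ⟩ := ha
    obtain ⟨Λ', hΛ'⟩ := hb
    exact ⟨Λ ∪ Λ', fun Λ'' h => Subgroup.mul_mem _ (hΛ _ (Finset.union_subset_left h))
      (hΛ' _ (Finset.union_subset_right h))⟩

theorem lettersA {X : Type} {S : Type u} [Ring S] (f : MonoidAlgebra S (FreeGroup X)) :
    ∃ Λ : Finset X, ∀ Λ', Λ ⊆ Λ' →
      f ∈ (MonoidAlgebra.mapDomainRingHom S (inclL Λ')).range := by
  classical
  induction f using MonoidAlgebra.induction_linear with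
  | zero => exact ⟨∅, fun Λ' _ => Subring.zero_mem _⟩
  | add x y hx hy =>
    obtain ⟨Λ, hΛ⟩ := hx
    obtain ⟨Λ', hΛ'⟩ := hy
    exact ⟨Λ ∪ Λ', fun Λ'' h => Subring.add_mem _ (hΛ _ (Finset.union_subset_left h))
      (hΛ' _ (Finset.union_subset_right h))⟩
  | single g c =>
    obtain ⟨Λ, hΛ⟩ := letters g
    refine ⟨Λ, fun Λ' h => ?_⟩
    obtain ⟨w, hw⟩ := hΛ Λ' h
    exact ⟨single w c, by rw [← hw]; exact MonoidAlgebra.mapDomain_single⟩

end Pool.Agent.NegK.H91
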