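import Pool.Agent.Lib.MP_28303a_al.NK.K0Api

/-! # Classes of finite idempotent operators in `K₀` -/

set_option autoImplicit false

namespace Pool.Agent.NegK.H91

universe u v w

open Matrix

section

variable {B : Type u} [Ring B] {X : Type w} [AddCommGroup X] [Module B X]

/-- The idempotent operator `θ` of the `B`-module `X` factors through the idempotent matrix `e`:
the image of `θ` is isomorphic to `B^n e`. -/
def Img {ι : Type} [Fintype ι] [DecidableEq ι] (e : Matrix ι ι B) (θ : X →ₗ[B] X) : Prop :=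
  ∃ (a : X →ₗ[B] (ι → B)) (b : (ι → B) →ₗ[B] X),
    b ∘ₗ a = θ ∧ a ∘ₗ b = e.vecMulLinear ∧ a ∘ₗ θ = a ∧ θ ∘ₗ b = b

/-- The operator `θ` has the class `c` in `K₀`. -/
def HasCl (θ : X →ₗ[B] X) (c : K0 B) : Prop :=
  ∃ (n : ℕ) (e : Matrix (Fin n) (Fin n) B) (he : e * e = e), Img e θ ∧ mcls e he = c

theorem vecMulLinear_inj {ι κ : Type} [Fintype ι] [DecidableEq ι] [Fintype κ]
    {e f : Matrix ι κ B} (h : e.vecMulLinear = f.vecMulLinear) : e = f := by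
  have h1 := Matrix.toLinearMapRight'.injective (a₁ := e) (a₂ := f)
  exact h1 h

theorem vecMulLinear_mul {ι κ μ : Type} [Fintype ι] [DecidableEq ι] [Fintype κ] [DecidableEq κ]
    [Fintype μ] (e : Matrix ι κ B) (f : Matrix κ μ B) :
    (e * f).vecMulLinear = f.vecMulLinear ∘ₗ e.vecMulLinear :=
  LinearMap.ext fun _ => (Matrix.vecMul_vecMul _ _ _).symm

theorem exists_mat {ι κ : Type} [Fintype ι] [DecidableEq ι] [Fintype κ]
    (f : (ι → B) →ₗ[B] (κ → B)) : ∃ m : Matrix ι κ B, m.vecMulLinear = f :=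
  ⟨LinearMap.toMatrixRight' f, Matrix.toLinearMapRight'.apply_symm_apply f⟩

/-- Any factorization of an idempotent operator gives an idempotent matrix. -/
theorem Img.of_factor {ι : Type} [Fintype ι] [DecidableEq ι] {θ : X →ₗ[B] X}
    (hθ : θ ∘ₗ θ = θ) (a : X →ₗ[B] (ι → B)) (b : (ι → B) →ₗ[B] X) (h : b ∘ₗ a = θ) :
    ∃ e : Matrix ι ι B, e * e = e ∧ Img e θ := by
  obtain ⟨e, he⟩ := exists_mat ((a ∘ₗ θ) ∘ₗ (θ ∘ₗ b))
  have h3 : θ ∘ₗ θ ∘ₗ θ = θ := by rw [hθ, hθ]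
  have hb : (θ ∘ₗ b) ∘ₗ (a ∘ₗ θ) = θ := by
    calc (θ ∘ₗ b) ∘ₗ (a ∘ₗ θ) = θ ∘ₗ (b ∘ₗ a) ∘ₗ θ := rfl
      _ = θ := by rw [h, h3]
  refine ⟨e, ?_, a ∘ₗ θ, θ ∘ₗ b, hb, he.symm, ?_, ?_⟩
  · refine vecMulLinear_inj ?_
    rw [vecMulLinear_mul, he]
    calc ((a ∘ₗ θ) ∘ₗ (θ ∘ₗ b)) ∘ₗ ((a ∘ₗ θ) ∘ₗ (θ ∘ₗ b))
        = (a ∘ₗ θ) ∘ₗ ((θ ∘ₗ b) ∘ₗ (a ∘ₗ θ)) ∘ₗ (θ ∘ₗ b) := rfl
      _ = (a ∘ₗ θ) ∘ₗ θ ∘ₗ (θ ∘ₗ b) := by rw [hb]
      _ = (a ∘ₗ (θ ∘ₗ θ)) ∘ₗ (θ ∘ₗ b) := rfl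
      _ = (a ∘ₗ θ) ∘ₗ (θ ∘ₗ b) := by rw [hθ]
  · rw [LinearMap.comp_assoc, hθ]
  · rw [← LinearMap.comp_assoc, hθ]

theorem Img.congr {ι : Type} [Fintype ι] [DecidableEq ι] {e : Matrix ι ι B} {θ θ' : X →ₗ[B] X}
    (h : Img e θ) (h' : θ = θ') : Img e θ' := h' ▸ h

theorem Img.idem {ι : Type} [Fintype ι] [DecidableEq ι] {e : Matrix ι ι B} {θ : X →ₗ[B] X}
    (h : Img e θ) : θ ∘ₗ θ = θ := by
  obtain ⟨a, b, h1, h2, h3, h4⟩ := h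
  calc θ ∘ₗ θ = (b ∘ₗ a) ∘ₗ θ := by rw [h1]
    _ = b ∘ₗ (a ∘ₗ θ) := rfl
    _ = θ := by rw [h3, h1]

/-- Two representations of the same operator have the same class. -/
theorem Img.mcls_eq {ι κ : Type} [Fintype ι] [DecidableEq ι] [Fintype κ] [DecidableEq κ]
    {e : Matrix ι ι B} {f : Matrix κ κ B} {θ : X →ₗ[B] X} (he : e * e = e) (hf : f * f = f)
    (h : Img e θ) (h' : Img f θ) : mcls e he = mcls f hf := by
  obtain ⟨a, b, h1, h2, h3, h4⟩ := h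
  obtain ⟨a', b', h1', h2', h3', h4'⟩ := h'
  obtain ⟨m, hm⟩ := exists_mat (a' ∘ₗ b)
  obtain ⟨m', hm'⟩ := exists_mat (a ∘ₗ b')
  refine NegK.mcls_eq he hf m m' ?_ ?_
  · refine vecMulLinear_inj ?_
    rw [vecMulLinear_mul, hm, hm', ← h2]
    calc (a ∘ₗ b') ∘ₗ (a' ∘ₗ b) = a ∘ₗ (b' ∘ₗ a') ∘ₗ b := rfl
      _ = a ∘ₗ b := by rw [h1', h4]
  · refine vecMulLinear_inj ?_
    rw [vecMulLinear_mul, hm, hm', ← h2']
    calc (a' ∘ₗ b) ∘ₗ (a ∘ₗ b') = a' ∘ₗ (b ∘ₗ a) ∘ₗ b' := rfl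
      _ = a' ∘ₗ b' := by rw [h1, h4']

theorem HasCl.of_img {ι : Type} [Fintype ι] [DecidableEq ι] {e : Matrix ι ι B}
    {θ : X →ₗ[B] X} (he : e * e = e) (h : Img e θ) : HasCl θ (mcls e he) := by
  obtain ⟨a, b, h1, h2, h3, h4⟩ := h
  let σ := Fintype.equivFin ι
  let L : (ι → B) ≃ₗ[B] (Fin (Fintype.card ι) → B) := LinearEquiv.funCongrLeft B B σ.symm
  have hi : θ ∘ₗ θ = θ := Img.idem ⟨a, b, h1, h2, h3, h4⟩
  obtain ⟨f, hf, hI⟩ := Img.of_factor hi (L.toLinearMap ∘ₗ a) (b ∘ₗ L.symm.toLinearMap) (by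
    rw [← h1]
    ext x
    simp)
  exact ⟨_, f, hf, hI, Img.mcls_eq hf he hI ⟨a, b, h1, h2, h3, h4⟩⟩

theorem HasCl.unique {θ : X →ₗ[B] X} {c c' : K0 B} (h : HasCl θ c) (h' : HasCl θ c') :
    c = c' := by
  obtain ⟨n, e, he, h1, rfl⟩ := h
  obtain ⟨n', e', he', h1', rfl⟩ := h'
  exact Img.mcls_eq he he' h1 h1'

theorem HasCl.idem {θ : X →ₗ[B] X} {c : K0 B} (h : HasCl θ c) : θ ∘ₗ θ = θ := by
  obtain ⟨n, e, he, h1, rfl⟩ := h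
  exact h1.idem

theorem HasCl.zero : HasCl (0 : X →ₗ[B] X) 0 := by
  refine ⟨0, 0, by simp, ⟨0, 0, by simp, ?_, by simp, by simp⟩, mcls_zero⟩
  ext i
  exact i.elim0

/-- Orthogonal idempotents. -/
theorem HasCl.add {θ θ' : X →ₗ[B] X} {c c' : K0 B} (h : HasCl θ c) (h' : HasCl θ' c')
    (h1 : θ ∘ₗ θ' = 0) (h2 : θ' ∘ₗ θ = 0) : HasCl (θ + θ') (c + c') := by
  have hi := h.idem
  have hi' := h'.idem
  obtain ⟨n, e, he, ⟨a, b, k1, k2, k3, k4⟩, rfl⟩ := h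
  obtain ⟨n', e', he', ⟨a', b', k1', k2', k3', k4'⟩, rfl⟩ := h'
  rw [← mcls_blocks he he']
  refine HasCl.of_img _ ?_
  have hab : a ∘ₗ b' = 0 := by
    calc a ∘ₗ b' = (a ∘ₗ θ) ∘ₗ (θ' ∘ₗ b') := by rw [k3, k4']
      _ = a ∘ₗ (θ ∘ₗ θ') ∘ₗ b' := rfl
      _ = 0 := by rw [h1]; simp
  have hab' : a' ∘ₗ b = 0 := by
    calc a' ∘ₗ b = (a' ∘ₗ θ') ∘ₗ (θ ∘ₗ b) := by rw [k3', k4]
      _ = a' ∘ₗ (θ' ∘ₗ θ) ∘ₗ b := rfl
      _ = 0 := by rw [h2]; simp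
  have haθ : a ∘ₗ θ' = 0 := by
    calc a ∘ₗ θ' = (a ∘ₗ θ) ∘ₗ θ' := by rw [k3]
      _ = a ∘ₗ (θ ∘ₗ θ') := rfl
      _ = 0 := by rw [h1]; simp
  have haθ' : a' ∘ₗ θ = 0 := by
    calc a' ∘ₗ θ = (a' ∘ₗ θ') ∘ₗ θ := by rw [k3']
      _ = a' ∘ₗ (θ' ∘ₗ θ) := rfl
      _ = 0 := by rw [h2]; simp
  have hbθ : θ' ∘ₗ b = 0 := by
    calc θ' ∘ₗ b = θ' ∘ₗ (θ ∘ₗ b) := by rw [k4]
      _ = (θ' ∘ₗ θ) ∘ₗ b := rfl
      _ = 0 := by rw [h2]; simp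
  have hbθ' : θ ∘ₗ b' = 0 := by
    calc θ ∘ₗ b' = θ ∘ₗ (θ' ∘ₗ b') := by rw [k4']
      _ = (θ ∘ₗ θ') ∘ₗ b' := rfl
      _ = 0 := by rw [h1]; simp
  let L : ((Fin n ⊕ Fin n') → B) ≃ₗ[B] (Fin n → B) × (Fin n' → B) :=
    LinearEquiv.sumArrowLequivProdArrow (Fin n) (Fin n') B B
  let a2 : X →ₗ[B] ((Fin n ⊕ Fin n') → B) := L.symm.toLinearMap ∘ₗ (LinearMap.prod a a')
  let b2 : ((Fin n ⊕ Fin n') → B) →ₗ[B] X := (LinearMap.coprod b b') ∘ₗ L.toLinearMap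
  have hL : ∀ x, L (L.symm x) = x := fun x => L.apply_symm_apply x
  refine ⟨a2, b2, ?_, ?_, ?_, ?_⟩
  · ext x
    show (LinearMap.coprod b b') (L (L.symm (a x, a' x))) = θ x + θ' x
    rw [hL, LinearMap.coprod_apply, ← k1, ← k1']
    rfl
  · refine LinearMap.ext fun x => ?_
    show L.symm (a ((LinearMap.coprod b b') (L x)), a' ((LinearMap.coprod b b') (L x))) = _
    rw [LinearMap.coprod_apply, map_add, map_add]
    have e1 : a (b (L x).1) = (L x).1 ᵥ* e := LinearMap.congr_fun k2 _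
    have e2 : a (b' (L x).2) = 0 := LinearMap.congr_fun hab _
    have e3 : a' (b (L x).1) = 0 := LinearMap.congr_fun hab' _
    have e4 : a' (b' (L x).2) = (L x).2 ᵥ* e' := LinearMap.congr_fun k2' _
    rw [e1, e2, e3, e4, add_zero, zero_add]
    funext i
    rcases i with i | i
    · show ((L x).1 ᵥ* e) i = (x ᵥ* fromBlocks e 0 0 e') (Sum.inl i)
      simp only [Matrix.vecMul, dotProduct, Fintype.sum_sum_type, fromBlocks_apply₁₁,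
        fromBlocks_apply₂₁, Matrix.zero_apply, mul_zero, Finset.sum_const_zero, add_zero]
      rfl
    · show ((L x).2 ᵥ* e') i = (x ᵥ* fromBlocks e 0 0 e') (Sum.inr i)
      simp only [Matrix.vecMul, dotProduct, Fintype.sum_sum_type, fromBlocks_apply₁₂,
        fromBlocks_apply₂₂, Matrix.zero_apply, mul_zero, Finset.sum_const_zero, zero_add]
      rfl
  · refine LinearMap.ext fun x => ?_
    show L.symm (a (θ x + θ' x), a' (θ x + θ' x)) = L.symm (a x, a' x)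
    have e1 : a (θ x) = a x := LinearMap.congr_fun k3 _
    have e2 : a (θ' x) = 0 := LinearMap.congr_fun haθ _
    have e3 : a' (θ x) = 0 := LinearMap.congr_fun haθ' _
    have e4 : a' (θ' x) = a' x := LinearMap.congr_fun k3' _
    rw [map_add, map_add, e1, e2, e3, e4, add_zero, zero_add]
  · refine LinearMap.ext fun x => ?_
    show θ (b (L x).1 + b' (L x).2) + θ' (b (L x).1 + b' (L x).2) = b (L x).1 + b' (L x).2
    have e1 : θ (b (L x).1) = b (L x).1 := LinearMap.congr_fun k4 _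
    have e2 : θ (b' (L x).2) = 0 := LinearMap.congr_fun hbθ' _
    have e3 : θ' (b (L x).1) = 0 := LinearMap.congr_fun hbθ _
    have e4 : θ' (b' (L x).2) = b' (L x).2 := LinearMap.congr_fun k4' _
    rw [map_add, map_add, e1, e2, e3, e4, add_zero, zero_add]

/-- Sub-idempotents of finite idempotents are finite. -/
theorem HasCl.exists_sub {θ θ' : X →ₗ[B] X} {c : K0 B} (h : HasCl θ c) (h' : θ' ∘ₗ θ' = θ')
    (h1 : θ ∘ₗ θ' = θ') :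
    ∃ (n : ℕ) (e : Matrix (Fin n) (Fin n) B), e * e = e ∧ Img e θ' := by
  obtain ⟨n, e, he, ⟨a, b, k1, k2, k3, k4⟩, rfl⟩ := h
  obtain ⟨f, hf, hI⟩ := Img.of_factor h' (a ∘ₗ θ') (θ' ∘ₗ b) (by
    calc (θ' ∘ₗ b) ∘ₗ (a ∘ₗ θ') = θ' ∘ₗ (b ∘ₗ a) ∘ₗ θ' := rfl
      _ = θ' := by rw [k1, h1, h'])
  exact ⟨n, f, hf, hI⟩

/-- Finite families of orthogonal idempotents. -/
theorem HasCl.sum {J : Type} [DecidableEq J] (s : Finset J) (θ : J → (X →ₗ[B] X)) (c : J → K0 B)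
    (h : ∀ j, HasCl (θ j) (c j)) (h1 : ∀ i j, i ≠ j → θ i ∘ₗ θ j = 0) :
    HasCl (∑ j ∈ s, θ j) (∑ j ∈ s, c j) := by
  induction s using Finset.induction_on with
  | empty => simpa using HasCl.zero (B := B) (X := X)
  | insert a s ha ih =>
    rw [Finset.sum_insert ha, Finset.sum_insert ha]
    refine (h a).add ih ?_ ?_
    · ext x
      rw [LinearMap.comp_apply, LinearMap.sum_apply, _root_.map_sum]
      refine Finset.sum_eq_zero fun i hi => ?_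
      exact LinearMap.congr_fun (h1 a i (fun hc => ha (hc ▸ hi))) x
    · ext x
      rw [LinearMap.comp_apply, LinearMap.sum_apply]
      refine Finset.sum_eq_zero fun i hi => ?_
      exact LinearMap.congr_fun (h1 i a (fun hc => ha (hc ▸ hi))) x

end

end Pool.Agent.NegK.H91
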