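import Pool.Agent.Lib.MP_28303a_al.NK.H91.Ind

/-! # Row vectors over a group ring, restriction of supports, the operators `Θ` -/

set_option autoImplicit false

namespace Pool.Agent.NegK.H91

universe u v w

open Matrix

section

variable {k : Type u} [Ring k] {Γ : Type} [Group Γ]

/-- The set of all `y` with `g * y ∈ Y`. -/
def pre (g : Γ) (Y : Set Γ) : Set Γ := {y | g * y ∈ Y}

theorem mem_pre (g : Γ) (Y : Set Γ) (y : Γ) : y ∈ pre g Y ↔ g * y ∈ Y := Iff.rfl

/-- Restriction of the support of an element of the group ring. -/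
noncomputable def resA (k : Type u) [Ring k] {Γ : Type} [Group Γ] (Y : Set Γ) :
    MonoidAlgebra k Γ →+ MonoidAlgebra k Γ := by
  classical
  exact
  { toFun := fun w => MonoidAlgebra.ofCoeff (w.coeff.filter (fun g => g ∈ Y))
    map_zero' := by
      show MonoidAlgebra.ofCoeff (Finsupp.filter (fun g => g ∈ Y) (0 : Γ →₀ k)) = 0
      rw [Finsupp.filter_zero]; rfl
    map_add' := fun w w' => by
      show MonoidAlgebra.ofCoeff (Finsupp.filter (fun g => g ∈ Y) (w.coeff + w'.coeff)) = _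
      rw [Finsupp.filter_add]; rfl }

theorem resA_coeff_mem (Y : Set Γ) (w : MonoidAlgebra k Γ) (g : Γ) (h : g ∈ Y) :
    (resA k Y w).coeff g = w.coeff g := by
  classical
  show (w.coeff.filter (fun g => g ∈ Y)) g = _
  rw [Finsupp.filter_apply_pos _ _ h]

theorem resA_coeff_notMem (Y : Set Γ) (w : MonoidAlgebra k Γ) (g : Γ) (h : g ∉ Y) :
    (resA k Y w).coeff g = 0 := by
  classical
  show (w.coeff.filter (fun g => g ∈ Y)) g = _
  rw [Finsupp.filter_apply_neg _ _ h]

theorem resA_univ (w : MonoidAlgebra k Γ) : resA k (Set.univ : Set Γ) w = w := by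
  ext g
  rw [resA_coeff_mem _ _ _ (Set.mem_univ g)]

theorem resA_empty (w : MonoidAlgebra k Γ) : resA k (∅ : Set Γ) w = 0 := by
  ext g
  rw [resA_coeff_notMem _ _ _ (Set.notMem_empty g)]; rfl

theorem resA_resA (Y Y' : Set Γ) (w : MonoidAlgebra k Γ) :
    resA k Y (resA k Y' w) = resA k (Y ∩ Y') w := by
  ext g
  by_cases h : g ∈ Y
  · rw [resA_coeff_mem _ _ _ h]
    by_cases h' : g ∈ Y'
    · rw [resA_coeff_mem _ _ _ h', resA_coeff_mem (Y ∩ Y') _ _ ⟨h, h'⟩]
    · rw [resA_coeff_notMem _ _ _ h', resA_coeff_notMem (Y ∩ Y') _ _ (fun hc => h' hc.2)]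
  · rw [resA_coeff_notMem _ _ _ h, resA_coeff_notMem (Y ∩ Y') _ _ (fun hc => h hc.1)]

theorem resA_union (Y Y' : Set Γ) (hd : Disjoint Y Y') (w : MonoidAlgebra k Γ) :
    resA k (Y ∪ Y') w = resA k Y w + resA k Y' w := by
  ext g
  rw [MonoidAlgebra.coeff_add, Finsupp.add_apply]
  by_cases h : g ∈ Y
  · rw [resA_coeff_mem _ _ _ h, resA_coeff_mem (Y ∪ Y') _ _ (Or.inl h),
      resA_coeff_notMem _ _ _ (Set.disjoint_left.1 hd h), add_zero]
  · rw [resA_coeff_notMem Y _ _ h, zero_add]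
    by_cases h' : g ∈ Y'
    · rw [resA_coeff_mem _ _ _ h', resA_coeff_mem (Y ∪ Y') _ _ (Or.inr h')]
    · rw [resA_coeff_notMem _ _ _ h', resA_coeff_notMem (Y ∪ Y') _ _ (fun hc => hc.elim h h')]

theorem resA_single_mul (Y : Set Γ) (g : Γ) (c : k) (w : MonoidAlgebra k Γ) :
    resA k Y (MonoidAlgebra.single g c * w) = MonoidAlgebra.single g c * resA k (pre g Y) w := by
  ext h
  rw [MonoidAlgebra.coeff_single_mul_apply]
  have hg : g⁻¹ * h ∈ pre g Y ↔ h ∈ Y := by rw [mem_pre, mul_inv_cancel_left]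
  by_cases hY : h ∈ Y
  · rw [resA_coeff_mem _ _ _ hY, resA_coeff_mem _ _ _ (hg.2 hY),
      MonoidAlgebra.coeff_single_mul_apply]
  · rw [resA_coeff_notMem _ _ _ hY, resA_coeff_notMem _ _ _ (fun hc => hY (hg.1 hc)), mul_zero]

theorem resA_single (Y : Set Γ) (g : Γ) (c : k) [Decidable (g ∈ Y)] :
    resA k Y (MonoidAlgebra.single g c) = if g ∈ Y then MonoidAlgebra.single g c else 0 := by
  ext h
  by_cases hh : h = g
  · subst hh
    by_cases hY : h ∈ Y
    · rw [resA_coeff_mem _ _ _ hY, if_pos hY]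
    · rw [resA_coeff_notMem _ _ _ hY, if_neg hY]; rfl
  · have h0 : (MonoidAlgebra.single g c).coeff h = 0 :=
      Finsupp.single_eq_of_ne hh
    by_cases hY : h ∈ Y
    · rw [resA_coeff_mem _ _ _ hY, h0]
      split_ifs
      · rw [h0]
      · rfl
    · rw [resA_coeff_notMem _ _ _ hY]
      split_ifs
      · rw [h0]
      · rfl

/-- Restriction commutes with right multiplication by elements of `k[G]` if `Y G = Y`. -/
theorem resA_mul_inc (G : Subgroup Γ) (Y : Set Γ) (hY : ∀ y ∈ Y, ∀ g ∈ G, y * g ∈ Y)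
    (w : MonoidAlgebra k Γ) (c : MonoidAlgebra k G) :
    resA k Y (w * inc k G.subtype c) = resA k Y w * inc k G.subtype c := by
  induction c using MonoidAlgebra.induction_linear with
  | zero => simp
  | add c d hc hd => rw [map_add, mul_add, map_add, hc, hd, mul_add]
  | single g r =>
    rw [inc_single]
    ext h
    rw [MonoidAlgebra.coeff_mul_single_apply]
    have hg : h * (G.subtype g)⁻¹ ∈ Y ↔ h ∈ Y := by
      constructor
      · intro h1
        have := hY _ h1 g g.2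
        rwa [Subgroup.subtype_apply, inv_mul_cancel_right] at this
      · intro h1
        exact hY _ h1 _ (G.inv_mem g.2)
    by_cases hh : h ∈ Y
    · rw [resA_coeff_mem _ _ _ hh, resA_coeff_mem _ _ _ (hg.2 hh),
        MonoidAlgebra.coeff_mul_single_apply]
    · rw [resA_coeff_notMem _ _ _ hh, resA_coeff_notMem _ _ _ (fun hc => hh (hg.1 hc)), zero_mul]

/-- Row vectors over `k[Γ]`. -/
def Row (k : Type u) [Ring k] (Γ : Type) [Group Γ] (n : ℕ) : Type u := Fin n → MonoidAlgebra k Γ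

noncomputable instance (n : ℕ) : AddCommGroup (Row k Γ n) :=
  inferInstanceAs (AddCommGroup (Fin n → MonoidAlgebra k Γ))

/-- Left multiplication of row vectors. -/
noncomputable instance (n : ℕ) : SMul (MonoidAlgebra k Γ) (Row k Γ n) :=
  inferInstanceAs (SMul (MonoidAlgebra k Γ) (Fin n → MonoidAlgebra k Γ))

noncomputable instance (n : ℕ) (H : Subgroup Γ) : Module (MonoidAlgebra k H) (Row k Γ n) :=
  Module.compHom (Fin n → MonoidAlgebra k Γ) (inc k H.subtype)

theorem smul_apply (n : ℕ) (H : Subgroup Γ) (c : MonoidAlgebra k H) (x : Row k Γ n)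
    (i : Fin n) : (c • x) i = inc k H.subtype c * x i := rfl

theorem single_smul_apply (n : ℕ) (H : Subgroup Γ) (h : H) (c : k) (x : Row k Γ n)
    (i : Fin n) : (MonoidAlgebra.single h c • x) i =
      MonoidAlgebra.single (h : Γ) c * x i := by
  rw [smul_apply, inc_single]; rfl

theorem smul_eq (n : ℕ) (H : Subgroup Γ) (h : H) (c : k) (x : Row k Γ n) :
    (MonoidAlgebra.single h c • x) = (MonoidAlgebra.single (h : Γ) c : MonoidAlgebra k Γ) • x :=
  funext fun i => single_smul_apply n H h c x i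

/-- The basis vectors. -/
noncomputable def del {n : ℕ} (g : Γ) (i : Fin n) (c : k) : Row k Γ n :=
  Pi.single i (MonoidAlgebra.single g c)

theorem row_hom_ext {n : ℕ} {M : Type v} [AddCommGroup M] {f f' : Row k Γ n →+ M}
    (h : ∀ g i c, f (del g i c) = f' (del g i c)) : f = f' := by
  have h1 : ∀ (i : Fin n) (w : MonoidAlgebra k Γ),
      f (Pi.single i w : Fin n → MonoidAlgebra k Γ) =
        f' (Pi.single i w : Fin n → MonoidAlgebra k Γ) := by
    intro i w
    let a : MonoidAlgebra k Γ →+ M := AddMonoidHom.comp (f : (Fin n → MonoidAlgebra k Γ) →+ M)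
      (AddMonoidHom.single (fun _ : Fin n => MonoidAlgebra k Γ) i)
    let b : MonoidAlgebra k Γ →+ M := AddMonoidHom.comp (f' : (Fin n → MonoidAlgebra k Γ) →+ M)
      (AddMonoidHom.single (fun _ : Fin n => MonoidAlgebra k Γ) i)
    have hab : a = b := MonoidAlgebra.addMonoidHom_ext fun g c => h g i c
    exact DFunLike.congr_fun hab w
  refine DFunLike.ext _ _ fun x => ?_
  have hx : x = ∑ i, (Pi.single i (x i) : Fin n → MonoidAlgebra k Γ) :=
    (Finset.univ_sum_single x).symm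
  have e1 : f x = ∑ i, f (Pi.single i (x i) : Fin n → MonoidAlgebra k Γ) := by
    conv_lhs => rw [hx]
    exact _root_.map_sum f _ _
  have e2 : f' x = ∑ i, f' (Pi.single i (x i) : Fin n → MonoidAlgebra k Γ) := by
    conv_lhs => rw [hx]
    exact _root_.map_sum f' _ _
  rw [e1, e2]
  exact Finset.sum_congr rfl fun i _ => h1 i (x i)

/-- Restriction of supports of row vectors. -/
noncomputable def res {n : ℕ} (Y : Set Γ) : Row k Γ n →+ Row k Γ n where
  toFun x := fun i => resA k Y (x i)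
  map_zero' := funext fun _ => map_zero _
  map_add' _ _ := funext fun _ => map_add _ _ _

theorem res_apply {n : ℕ} (Y : Set Γ) (x : Row k Γ n) (i : Fin n) :
    res Y x i = resA k Y (x i) := rfl

theorem res_univ {n : ℕ} (x : Row k Γ n) : res (Set.univ : Set Γ) x = x :=
  funext fun i => resA_univ (x i)

theorem res_empty {n : ℕ} (x : Row k Γ n) : res (∅ : Set Γ) x = 0 :=
  funext fun i => resA_empty (x i)

theorem res_res {n : ℕ} (Y Y' : Set Γ) (x : Row k Γ n) : res Y (res Y' x) = res (Y ∩ Y') x :=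
  funext fun i => resA_resA Y Y' (x i)

theorem res_comm {n : ℕ} (Y Y' : Set Γ) (x : Row k Γ n) : res Y (res Y' x) = res Y' (res Y x) := by
  rw [res_res, res_res, Set.inter_comm]

theorem res_union {n : ℕ} (Y Y' : Set Γ) (hd : Disjoint Y Y') (x : Row k Γ n) :
    res (Y ∪ Y') x = res Y x + res Y' x :=
  funext fun i => resA_union Y Y' hd (x i)

theorem res_smul {n : ℕ} (Y : Set Γ) (g : Γ) (c : k) (x : Row k Γ n) :
    res Y ((MonoidAlgebra.single g c : MonoidAlgebra k Γ) • x) =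
      (MonoidAlgebra.single g c : MonoidAlgebra k Γ) • res (pre g Y) x :=
  funext fun i => resA_single_mul Y g c (x i)

theorem del_apply_self {n : ℕ} (g : Γ) (i : Fin n) (c : k) :
    (del g i c : Row k Γ n) i = MonoidAlgebra.single g c := Pi.single_eq_same _ _

theorem del_apply_ne {n : ℕ} (g : Γ) (i j : Fin n) (c : k) (h : j ≠ i) :
    (del g i c : Row k Γ n) j = 0 := Pi.single_eq_of_ne h _

theorem res_del_mem {n : ℕ} (Y : Set Γ) (g : Γ) (i : Fin n) (c : k) (h : g ∈ Y) :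
    res Y (del g i c : Row k Γ n) = del g i c := by
  classical
  funext j
  rw [res_apply]
  by_cases hj : j = i
  · subst hj
    rw [del_apply_self, resA_single, if_pos h]
  · rw [del_apply_ne _ _ _ _ hj, map_zero]

theorem res_del_notMem {n : ℕ} (Y : Set Γ) (g : Γ) (i : Fin n) (c : k) (h : g ∉ Y) :
    res Y (del g i c : Row k Γ n) = 0 := by
  classical
  funext j
  rw [res_apply]
  by_cases hj : j = i
  · subst hj
    rw [del_apply_self, resA_single, if_neg h]; rfl
  · rw [del_apply_ne _ _ _ _ hj, map_zero]; rfl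

theorem smul_del {n : ℕ} (g h : Γ) (i : Fin n) (c d : k) :
    (MonoidAlgebra.single g c : MonoidAlgebra k Γ) • (del h i d : Row k Γ n) =
      del (g * h) i (c * d) := by
  funext j
  show MonoidAlgebra.single g c * (del h i d : Row k Γ n) j = _
  by_cases hj : j = i
  · subst hj
    rw [del_apply_self, del_apply_self, MonoidAlgebra.single_mul_single]
  · rw [del_apply_ne _ _ _ _ hj, del_apply_ne _ _ _ _ hj, mul_zero]

theorem smul_smul_row {n : ℕ} (a b : MonoidAlgebra k Γ) (x : Row k Γ n) :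
    a • b • x = (a * b) • x := funext fun i => (mul_assoc a b (x i)).symm

theorem one_smul_row {n : ℕ} (x : Row k Γ n) : (1 : MonoidAlgebra k Γ) • x = x :=
  funext fun i => one_mul (x i)

/-- Multiplication of row vectors by a matrix. -/
noncomputable def mulM {n m : ℕ} (u : Matrix (Fin n) (Fin m) (MonoidAlgebra k Γ)) :
    Row k Γ n →+ Row k Γ m where
  toFun x := x ᵥ* u
  map_zero' := Matrix.zero_vecMul u
  map_add' x y := Matrix.add_vecMul u x y

theorem mulM_apply {n m : ℕ} (u : Matrix (Fin n) (Fin m) (MonoidAlgebra k Γ)) (x : Row k Γ n)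
    (j : Fin m) : mulM u x j = ∑ i, x i * u i j := rfl

theorem mulM_mulM {n m l : ℕ} (u : Matrix (Fin n) (Fin m) (MonoidAlgebra k Γ))
    (v : Matrix (Fin m) (Fin l) (MonoidAlgebra k Γ)) (x : Row k Γ n) :
    mulM v (mulM u x) = mulM (u * v) x := Matrix.vecMul_vecMul x u v

theorem mulM_one {n : ℕ} (x : Row k Γ n) : mulM (1 : Matrix (Fin n) (Fin n) _) x = x :=
  Matrix.vecMul_one x

theorem mulM_smul {n m : ℕ} (u : Matrix (Fin n) (Fin m) (MonoidAlgebra k Γ))
    (a : MonoidAlgebra k Γ) (x : Row k Γ n) : mulM u (a • x) = a • mulM u x := by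
  funext j
  show ∑ i, (a * x i) * u i j = a * ∑ i, x i * u i j
  rw [Finset.mul_sum]
  exact Finset.sum_congr rfl fun i _ => mul_assoc _ _ _

theorem res_mulM_inc {n m : ℕ} (G : Subgroup Γ) (Y : Set Γ)
    (hY : ∀ y ∈ Y, ∀ g ∈ G, y * g ∈ Y) (P : Matrix (Fin n) (Fin m) (MonoidAlgebra k G))
    (x : Row k Γ n) :
    res Y (mulM (P.map (inc k G.subtype)) x) = mulM (P.map (inc k G.subtype)) (res Y x) := by
  funext j
  rw [res_apply, mulM_apply, mulM_apply, _root_.map_sum]
  exact Finset.sum_congr rfl fun i _ => resA_mul_inc G Y hY (x i) (P i j)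

/-- The operator `Θ_Y(x) = (χ_Y (x u)) v`. -/
noncomputable def Th {n m : ℕ} (u : Matrix (Fin n) (Fin m) (MonoidAlgebra k Γ))
    (v : Matrix (Fin m) (Fin n) (MonoidAlgebra k Γ)) (Y : Set Γ) : Row k Γ n →+ Row k Γ n :=
  (mulM v).comp ((res Y).comp (mulM u))

theorem Th_apply {n m : ℕ} (u : Matrix (Fin n) (Fin m) (MonoidAlgebra k Γ))
    (v : Matrix (Fin m) (Fin n) (MonoidAlgebra k Γ)) (Y : Set Γ) (x : Row k Γ n) :
    Th u v Y x = mulM v (res Y (mulM u x)) := rfl

theorem Th_smul {n m : ℕ} (u : Matrix (Fin n) (Fin m) (MonoidAlgebra k Γ))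
    (v : Matrix (Fin m) (Fin n) (MonoidAlgebra k Γ)) (Y : Set Γ) (g : Γ) (c : k)
    (x : Row k Γ n) :
    Th u v Y ((MonoidAlgebra.single g c : MonoidAlgebra k Γ) • x) =
      (MonoidAlgebra.single g c : MonoidAlgebra k Γ) • Th u v (pre g Y) x := by
  rw [Th_apply, Th_apply, mulM_smul, res_smul, mulM_smul]

theorem Th_empty {n m : ℕ} (u : Matrix (Fin n) (Fin m) (MonoidAlgebra k Γ))
    (v : Matrix (Fin m) (Fin n) (MonoidAlgebra k Γ)) (x : Row k Γ n) :
    Th u v ∅ x = 0 := by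
  rw [Th_apply, res_empty, map_zero]

theorem Th_univ {n m : ℕ} (u : Matrix (Fin n) (Fin m) (MonoidAlgebra k Γ))
    (v : Matrix (Fin m) (Fin n) (MonoidAlgebra k Γ)) (huv : u * v = 1) (x : Row k Γ n) :
    Th u v Set.univ x = x := by
  rw [Th_apply, res_univ, mulM_mulM, huv, mulM_one]

theorem Th_union {n m : ℕ} (u : Matrix (Fin n) (Fin m) (MonoidAlgebra k Γ))
    (v : Matrix (Fin m) (Fin n) (MonoidAlgebra k Γ)) (Y Y' : Set Γ) (hd : Disjoint Y Y')
    (x : Row k Γ n) : Th u v (Y ∪ Y') x = Th u v Y x + Th u v Y' x := by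
  rw [Th_apply, Th_apply, Th_apply, res_union _ _ hd, map_add]

/-- The data `u v = 1`, `v u = ι(P)` with `P` over `k[G]`. -/
structure Dat {n m : ℕ} (G : Subgroup Γ) (u : Matrix (Fin n) (Fin m) (MonoidAlgebra k Γ))
    (v : Matrix (Fin m) (Fin n) (MonoidAlgebra k Γ))
    (P : Matrix (Fin m) (Fin m) (MonoidAlgebra k G)) : Prop where
  huv : u * v = 1
  hvu : v * u = P.map (inc k G.subtype)

theorem Dat.hPv {n m : ℕ} {G : Subgroup Γ} {u : Matrix (Fin n) (Fin m) (MonoidAlgebra k Γ)}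
    {v : Matrix (Fin m) (Fin n) (MonoidAlgebra k Γ)}
    {P : Matrix (Fin m) (Fin m) (MonoidAlgebra k G)} (h : Dat G u v P) :
    P.map (inc k G.subtype) * v = v := by
  rw [← h.hvu, Matrix.mul_assoc, h.huv, Matrix.mul_one]

theorem Dat.huP {n m : ℕ} {G : Subgroup Γ} {u : Matrix (Fin n) (Fin m) (MonoidAlgebra k Γ)}
    {v : Matrix (Fin m) (Fin n) (MonoidAlgebra k Γ)}
    {P : Matrix (Fin m) (Fin m) (MonoidAlgebra k G)} (h : Dat G u v P) :
    u * P.map (inc k G.subtype) = u := by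
  rw [← h.hvu, ← Matrix.mul_assoc, h.huv, Matrix.one_mul]

/-- `χ_Y (· v u) = (χ_Y ·) v u`. -/
theorem Dat.mulM_v {n m : ℕ} {G : Subgroup Γ}
    {u : Matrix (Fin n) (Fin m) (MonoidAlgebra k Γ)}
    {v : Matrix (Fin m) (Fin n) (MonoidAlgebra k Γ)}
    {P : Matrix (Fin m) (Fin m) (MonoidAlgebra k G)} (h : Dat G u v P) (Y : Set Γ)
    (hY : ∀ y ∈ Y, ∀ g ∈ G, y * g ∈ Y) (w : Row k Γ m) :
    Th u v Y (mulM v w) = mulM v (res Y w) := by
  rw [Th_apply, mulM_mulM, h.hvu, res_mulM_inc G Y hY, mulM_mulM, h.hPv]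

theorem Dat.Th_Th {n m : ℕ} {G : Subgroup Γ} {u : Matrix (Fin n) (Fin m) (MonoidAlgebra k Γ)}
    {v : Matrix (Fin m) (Fin n) (MonoidAlgebra k Γ)}
    {P : Matrix (Fin m) (Fin m) (MonoidAlgebra k G)} (h : Dat G u v P) (Y Y' : Set Γ)
    (hY : ∀ y ∈ Y, ∀ g ∈ G, y * g ∈ Y) (x : Row k Γ n) :
    Th u v Y (Th u v Y' x) = Th u v (Y ∩ Y') x := by
  rw [Th_apply u v Y', h.mulM_v Y hY, res_res]; rfl

end

end Pool.Agent.NegK.H91
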